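import Pool.Agent.H65.BP.Descent

set_option autoImplicit false

/-!
# Certificates and decision trees
-/

namespace Pool.Agent.H65.BP

open DT

/-! ### from certificates to decision trees -/

section

variable {P : Type} [DecidableEq P]

open Classical in
/-- the tree made from certificates -/
noncomputable def mkTree (Good : (P → Bool) → Prop) (f : (P → Bool) → Bool)
    (cert : (P → Bool) → Finset P) : ℕ → Finset P → (P → Bool) → DT P
  | 0, κ, Y => DT.out (decide (∃ A, Good A ∧ f A = true ∧ ∀ q ∈ κ, A q = Y q))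
  | n + 1, κ, Y =>
    if h : ∃ A, Good A ∧ f A = true ∧ ∀ q ∈ κ, A q = Y q then
      DT.run (fun Y' => mkTree Good f cert n (κ ∪ cert h.choose) Y')
        (DT.lin (cert h.choose).toList) Y
    else DT.out false

theorem mkTree_depth {Good : (P → Bool) → Prop} {f : (P → Bool) → Bool}
    {cert : (P → Bool) → Finset P} {C : ℕ} (hC : ∀ A, Good A → (cert A).card ≤ C) (n : ℕ) :
    ∀ κ Y, (mkTree Good f cert n κ Y).depth ≤ n * C := by
  induction n with
  | zero => intro κ Y; simp [mkTree, DT.depth]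
  | succ n ih =>
    intro κ Y
    rw [mkTree]
    split_ifs with h
    · refine (DT.depth_run _ (ih _) _ _).trans ?_
      rw [DT.depth_lin, Finset.length_toList]
      have := hC _ h.choose_spec.1
      nlinarith
    · simp [DT.depth]

theorem mkTree_true {Good : (P → Bool) → Prop} {f : (P → Bool) → Bool}
    {cert : (P → Bool) → Finset P} {X : P → Bool} (hX : Good X) (hf : f X = true) (n : ℕ) :
    ∀ κ Y, (∀ q ∈ κ, X q = Y q) → (mkTree Good f cert n κ Y).eval X = true := by
  classical
  induction n with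
  | zero =>
    intro κ Y h
    rw [mkTree, DT.eval, decide_eq_true_eq]
    exact ⟨X, hX, hf, h⟩
  | succ n ih =>
    intro κ Y h
    have hex : ∃ A, Good A ∧ f A = true ∧ ∀ q ∈ κ, A q = Y q := ⟨X, hX, hf, h⟩
    rw [mkTree, dif_pos hex, DT.eval_run, DT.path_lin]
    refine ih _ _ (fun q hq => ?_)
    unfold DT.ovr
    rw [Finset.mem_union] at hq
    split_ifs with hm
    · rfl
    · rcases hq with hq | hq
      · exact h q hq
      · exact absurd (Finset.mem_toList.mpr hq) hm

theorem mkTree_false {Good : (P → Bool) → Prop} {f : (P → Bool) → Bool}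
    {cert : (P → Bool) → Finset P}
    (hcert : ∀ A, Good A → ∀ X, Good X → (∀ q ∈ cert A, X q = A q) → f X = f A)
    (hext : ∀ A B, Good A → Good B → (∀ q ∈ cert A, q ∈ cert B → A q = B q) →
      ∃ X, Good X ∧ (∀ q ∈ cert A, X q = A q) ∧ ∀ q ∈ cert B, X q = B q)
    {X : P → Bool} (hX : Good X) (hf : f X = false) (n : ℕ) :
    ∀ κ Y, (∀ q ∈ κ, X q = Y q) → (cert X \ κ).card ≤ n →
      (mkTree Good f cert n κ Y).eval X = false := by
  classical
  induction n with
  | zero =>
    intro κ Y h hn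
    rw [mkTree, DT.eval, decide_eq_false_iff_not]
    rintro ⟨A, hA, hfA, hAY⟩
    have h1 : f A = f X := by
      refine hcert X hX A hA (fun q hq => ?_)
      have hqκ : q ∈ κ := by
        by_contra hcon
        have : q ∈ cert X \ κ := Finset.mem_sdiff.mpr ⟨hq, hcon⟩
        rw [Finset.card_eq_zero.mp (Nat.le_zero.mp hn)] at this
        simp at this
      rw [hAY q hqκ, h q hqκ]
    rw [hfA, hf] at h1
    cases h1
  | succ n ih =>
    intro κ Y h hn
    rw [mkTree]
    split_ifs with hex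
    · rw [DT.eval_run, DT.path_lin]
      obtain ⟨hA, hfA, hAY⟩ := hex.choose_spec
      set A := hex.choose with hAdef
      refine ih _ _ (fun q hq => ?_) ?_
      · unfold DT.ovr
        rw [Finset.mem_union] at hq
        split_ifs with hm
        · rfl
        · rcases hq with hq | hq
          · exact h q hq
          · exact absurd (Finset.mem_toList.mpr hq) hm
      · -- the certificates are in conflict
        have hconf : ∃ q ∈ cert A, q ∈ cert X ∧ A q ≠ X q := by
          by_contra hcon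
          push Not at hcon
          obtain ⟨Z, hZ, h1, h2⟩ := hext A X hA hX hcon
          have h3 := hcert A hA Z hZ h1
          have h4 := hcert X hX Z hZ h2
          rw [h3, hfA, hf] at h4
          cases h4
        obtain ⟨q, hqA, hqX, hne⟩ := hconf
        have hqκ : q ∉ κ := fun hq => hne (by rw [hAY q hq, h q hq])
        have h5 : cert X \ (κ ∪ cert A) ⊂ cert X \ κ := by
          rw [Finset.ssubset_iff_of_subset]
          · refine ⟨q, Finset.mem_sdiff.mpr ⟨hqX, hqκ⟩, fun h' => ?_⟩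
            rw [Finset.mem_sdiff] at h'
            exact h'.2 (Finset.mem_union_right _ hqA)
          · intro x hx
            rw [Finset.mem_sdiff] at hx ⊢
            exact ⟨hx.1, fun h' => hx.2 (Finset.mem_union_left _ h')⟩
        have := Finset.card_lt_card h5
        omega
    · rfl

theorem exists_tree_of_cert {Good : (P → Bool) → Prop} {f : (P → Bool) → Bool} {C : ℕ}
    (hcert : ∀ A, Good A → ∃ ρ : Finset P, ρ.card ≤ C ∧
      ∀ X, Good X → (∀ q ∈ ρ, X q = A q) → f X = f A)
    (hext : ∀ A B, Good A → Good B → ∀ ρ ρ' : Finset P, ρ.card ≤ C → ρ'.card ≤ C →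
      (∀ q ∈ ρ, q ∈ ρ' → A q = B q) →
      ∃ X, Good X ∧ (∀ q ∈ ρ, X q = A q) ∧ ∀ q ∈ ρ', X q = B q) :
    ∃ t : DT P, t.depth ≤ C * C ∧ ∀ X, Good X → t.eval X = f X := by
  classical
  choose! cert hc1 hc2 using hcert
  refine ⟨mkTree Good f cert C ∅ (fun _ => false), mkTree_depth hc1 C _ _, fun X hX => ?_⟩
  cases hf : f X with
  | true => exact mkTree_true hX hf C _ _ (by simp)
  | false =>
    refine mkTree_false hc2 (fun A B hA hB h => hext A B hA hB _ _ (hc1 A hA) (hc1 B hB) h)
      hX hf C _ _ (by simp) ?_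
    rw [Finset.sdiff_empty]
    exact hc1 X hX

end

namespace Sys

variable {P V : Type} {S : Sys P V} {Ω : Type} [Fintype Ω]

/-- **Certificates.** -/
theorem exists_cert (hfin : S.act.Finite) {d ℓ t : ℕ} (hL : ∀ w ∈ S.act, S.L w < ℓ)
    (hd : 1 ≤ d) (hdep : ∀ v ∈ S.act, (S.T v).depth ≤ d)
    {M : Ω → DT P} (hΩ : 0 < Fintype.card Ω) (ht : ∀ ω, (M ω).depth ≤ t)
    {fr : Set P} {A : P → Bool} {e e' m : V → ℕ} {H : ℕ} (hH : H = 3 * t * (1 + (2 * d) ^ ℓ))
    (hA : ∀ w ∈ S.act, (S.Wr A w).card ≤ e w)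
    (hm : ∀ w ∈ S.act, ∀ X : P → Bool, ∀ s : Finset P, s ⊆ S.B w →
      (∀ q ∈ s, q ∈ S.Des X (S.L w) ∨ q ∈ fr) → s.card + H * H + H + 1 ≤ m w)
    (he : ∀ w ∈ S.act, 2 * e w + m w + 1 ≤ e' w)
    (hvalid : ∀ X : P → Bool, (∀ q ∈ fr, X q = A q) → (∀ w ∈ S.act, (S.Wr X w).card ≤ e' w) →
      Valid M X) :
    ∃ ρ : Finset P, ρ.card ≤ H * H ∧ ∀ X : P → Bool, (∀ q ∈ fr, X q = A q) →
      (∀ q ∈ ρ, X q = A q) → (∀ w ∈ S.act, (S.Wr X w).card ≤ e w) → ans M X = ans M A := by
  classical
  by_contra hcon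
  push Not at hcon
  have key : ∀ n ≤ H + 1, ∃ (X : ℕ → P → Bool) (D : ℕ → Finset P),
      (∀ i < n, ∀ j < n, i ≠ j → ∀ q, q ∈ D i → q ∉ D j) ∧
      ∀ i < n, (D i).card ≤ H ∧ (∀ w ∈ S.act, (S.Wr (X i) w).card ≤ e' w) ∧
        (∀ q ∈ fr, X i q = A q) ∧ ans M (X i) ≠ ans M A ∧
        ∀ q, X i q ≠ A q → q ∈ D i ∨
          ∃ w ∈ S.act, q ∈ S.B w ∧ S.tv (X i) w ≠ S.tv A w ∧ q ∉ S.Des (X i) (S.L w) := by
    intro n
    induction n with
    | zero =>
      intro _
      exact ⟨fun _ => A, fun _ => ∅, fun i hi => absurd hi (Nat.not_lt_zero i),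
        fun i hi => absurd hi (Nat.not_lt_zero i)⟩
    | succ n ih =>
      intro hn
      obtain ⟨X, D, h1, h2⟩ := ih (by omega)
      let ρ : Finset P := (Finset.range n).biUnion D
      have hρ : ρ.card ≤ H * H := by
        refine (Finset.card_biUnion_le_card_mul _ _ H (fun i hi => ?_)).trans ?_
        · exact (h2 i (Finset.mem_range.mp hi)).1
        · rw [Finset.card_range]
          exact Nat.mul_le_mul_right _ (by omega)
      obtain ⟨X', hX1, hX2, hX3, hX4⟩ := hcon ρ hρ
      obtain ⟨Z, hZ1, hZ2, hZ3, E, hE1, hE2, hE3⟩ := exists_seed (S := S) hfin hL hd hdep hΩ ht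
        (fr := fr) (prot := fr ∪ ↑ρ) Set.subset_union_left hA
        (fun w hw Y s hs hsq => by
          have h3 := hm w hw Y (s.filter (fun q => q ∈ S.Des Y (S.L w) ∨ q ∈ fr))
            (fun q hq => hs (Finset.mem_filter.mp hq).1) (fun q hq => (Finset.mem_filter.mp hq).2)
          have h4 : s ⊆ s.filter (fun q => q ∈ S.Des Y (S.L w) ∨ q ∈ fr) ∪ ρ := by
            intro q hq
            rw [Finset.mem_union, Finset.mem_filter]
            rcases hsq q hq with h | h | h
            · exact Or.inl ⟨hq, Or.inl h⟩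
            · exact Or.inl ⟨hq, Or.inr h⟩
            · exact Or.inr h
          have h5 := (Finset.card_le_card h4).trans (Finset.card_union_le _ _)
          rw [← hH]
          omega) he hvalid (X' := X') (fun q hq => by
            rcases hq with hq | hq
            · exact hX1 q hq
            · exact hX2 q hq) hX3 hX4
      refine ⟨fun i => if i = n then Z else X i, fun i => if i = n then E else D i, ?_, ?_⟩
      · intro i hi j hj hij q hqi hqj
        simp only at hqi hqj
        by_cases hin : i = n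
        · by_cases hjn : j = n
          · exact hij (hin.trans hjn.symm)
          · rw [if_pos hin] at hqi
            rw [if_neg hjn] at hqj
            refine hE2 q hqi (Or.inr ?_)
            exact Finset.mem_biUnion.mpr ⟨j, Finset.mem_range.mpr (by omega), hqj⟩
        · by_cases hjn : j = n
          · rw [if_neg hin] at hqi
            rw [if_pos hjn] at hqj
            refine hE2 q hqj (Or.inr ?_)
            exact Finset.mem_biUnion.mpr ⟨i, Finset.mem_range.mpr (by omega), hqi⟩
          · rw [if_neg hin] at hqi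
            rw [if_neg hjn] at hqj
            exact h1 i (by omega) j (by omega) hij q hqi hqj
      · intro i hi
        by_cases hin : i = n
        · simp only [if_pos hin]
          exact ⟨by rw [hH]; exact hE1, hZ2, fun q hq => hZ1 q (Or.inl hq), hZ3, hE3⟩
        · simp only [if_neg hin]
          exact h2 i (by omega)
  obtain ⟨X, D, h1, h2⟩ := key (H + 1) le_rfl
  have h3 := heavy (S := S) (X := A) (I := Finset.range (H + 1)) (Y := X)
    (Sd := fun i => ↑(D i)) ⟨fun i hi j hj hij q hqi hqj =>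
      h1 i (Finset.mem_range.mp hi) j (Finset.mem_range.mp hj) hij q hqi hqj,
      fun i hi q hne => (h2 i (Finset.mem_range.mp hi)).2.2.2.2 q hne⟩ hd (ℓ := ℓ)
      (fun v hv _ => hdep v hv) hΩ ht (fun _ _ _ w hw _ => hL w hw)
      (hvalid A (fun _ _ => rfl) (fun w hw => by
        have h3 := hA w hw
        have h4 := he w hw
        omega))
      (fun i hi => hvalid _ (h2 i (Finset.mem_range.mp hi)).2.2.1
        (h2 i (Finset.mem_range.mp hi)).2.1)
      (fun i hi => (h2 i (Finset.mem_range.mp hi)).2.2.2.1)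
  rw [Finset.card_range, ← hH] at h3
  omega

/-- **Decision trees.** -/
theorem exists_tree (hfin : S.act.Finite) {d ℓ t : ℕ} (hL : ∀ w ∈ S.act, S.L w < ℓ)
    (hd : 1 ≤ d) (hdep : ∀ v ∈ S.act, (S.T v).depth ≤ d)
    {M : Ω → DT P} (hΩ : 0 < Fintype.card Ω) (ht : ∀ ω, (M ω).depth ≤ t)
    {fr : Set P} {a : P → Bool} {e e' m : V → ℕ} {H : ℕ} (hH : H = 3 * t * (1 + (2 * d) ^ ℓ))
    (hm : ∀ w ∈ S.act, ∀ X : P → Bool, ∀ s : Finset P, s ⊆ S.B w →
      (∀ q ∈ s, q ∈ S.Des X (S.L w) ∨ q ∈ fr) →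
      s.card + H * H + H + 1 ≤ m w ∧ s.card + 2 * (H * H) ≤ e w)
    (he : ∀ w ∈ S.act, 2 * e w + m w + 1 ≤ e' w)
    (hvalid : ∀ X : P → Bool, (∀ q ∈ fr, X q = a q) → (∀ w ∈ S.act, (S.Wr X w).card ≤ e' w) →
      Valid M X) :
    ∃ T : DT P, T.depth ≤ (H * H) * (H * H) ∧ ∀ X : P → Bool, (∀ q ∈ fr, X q = a q) →
      (∀ w ∈ S.act, (S.Wr X w).card ≤ e w) → T.eval X = ans M X := by
  classical
  obtain ⟨T, hT1, hT2⟩ := exists_tree_of_cert (C := H * H)
    (Good := fun X : P → Bool => (∀ q ∈ fr, X q = a q) ∧ ∀ w ∈ S.act, (S.Wr X w).card ≤ e w)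
    (f := ans M) (by
      rintro A ⟨hA1, hA2⟩
      obtain ⟨ρ, h1, h2⟩ := exists_cert (S := S) hfin hL hd hdep hΩ ht (fr := fr) hH hA2
        (fun w hw X s hs hq => (hm w hw X s hs hq).1) he
        (fun X hX => hvalid X (fun q hq => by rw [hX q hq, hA1 q hq]))
      exact ⟨ρ, h1, fun X hX hX' => h2 X (fun q hq => by rw [hX.1 q hq, hA1 q hq]) hX' hX.2⟩)
    (by
      rintro A B ⟨hA1, hA2⟩ ⟨hB1, hB2⟩ ρ ρ' hρ hρ' hcomp
      let Y : P → Bool := fun q => if q ∈ ρ' then B q else A q
      obtain ⟨F, h1, h2⟩ := S.exists_fix Y (fr ∪ (↑ρ ∪ ↑ρ')) (fun _ _ => True)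
      have h3 : ∀ q ∈ fr ∪ (↑ρ ∪ ↑ρ' : Set P), F q = Y q := by
        intro q hq
        by_contra hne
        obtain ⟨w, _, _, _, _, h⟩ := h1 q hne
        exact h hq
      refine ⟨F, ⟨fun q hq => ?_, fun w hw => ?_⟩, fun q hq => ?_, fun q hq => ?_⟩
      · rw [h3 q (Or.inl hq)]
        simp only [Y]
        split_ifs
        · exact hB1 q hq
        · exact hA1 q hq
      · have h4 : S.Wr F w ⊆ (S.Wr F w).filter (fun q => q ∈ S.Des F (S.L w) ∨ q ∈ fr) ∪
            (ρ ∪ ρ') := by
          intro q hq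
          obtain ⟨h5, h6⟩ := mem_Wr.mp hq
          rw [Finset.mem_union, Finset.mem_union, Finset.mem_filter]
          by_contra hcon
          rw [not_or, not_or] at hcon
          obtain ⟨hc1, hc2, hc3⟩ := hcon
          have hc4 : q ∉ S.Des F (S.L w) := fun h => hc1 ⟨hq, Or.inl h⟩
          have hc5 : q ∉ fr := fun h => hc1 ⟨hq, Or.inr h⟩
          refine h6 (h2 w hw q h5 trivial hc4 ?_)
          rintro (h | h | h)
          · exact hc5 h
          · exact hc2 h
          · exact hc3 h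
        have h5 := (hm w hw F ((S.Wr F w).filter (fun q => q ∈ S.Des F (S.L w) ∨ q ∈ fr))
          (fun q hq => (mem_Wr.mp (Finset.mem_filter.mp hq).1).1)
          (fun q hq => (Finset.mem_filter.mp hq).2)).2
        have h6 := (Finset.card_le_card h4).trans (Finset.card_union_le _ _)
        have h7 := Finset.card_union_le ρ ρ'
        omega
      · rw [h3 q (Or.inr (Or.inl hq))]
        simp only [Y]
        split_ifs with h'
        · exact (hcomp q hq h').symm
        · rfl
      · rw [h3 q (Or.inr (Or.inr hq))]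
        simp only [Y]
        rw [if_pos hq])
  exact ⟨T, hT1, fun X hX1 hX2 => hT2 X ⟨hX1, hX2⟩⟩

end Sys

end Pool.Agent.H65.BP
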