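import Pool.Agent.H65.BP.Cert

set_option autoImplicit false

/-!
# Blocks of strings
-/

namespace Pool.Agent.H65.BP

/-- the strings consisting of the bits of `x`, each followed by three arbitrary bits -/
def weaves : List Bool → Finset (List Bool)
  | [] => {[]}
  | a :: x => (Finset.univ ×ˢ weaves x).image
      (fun p : (Bool × Bool × Bool) × List Bool => a :: p.1.1 :: p.1.2.1 :: p.1.2.2 :: p.2)

/-- every fourth bit -/
def unweave : List Bool → List Bool
  | a :: _ :: _ :: _ :: y => a :: unweave y
  | _ => []

/-- `1^i 0 y` -/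
def pre (i : ℕ) (y : List Bool) : List Bool := List.replicate i true ++ false :: y

theorem pre_length (i : ℕ) (y : List Bool) : (pre i y).length = i + 1 + y.length := by
  simp [pre]; ring

theorem pre_inj {i j : ℕ} {y z : List Bool} (h : pre i y = pre j z) : i = j ∧ y = z := by
  induction i generalizing j with
  | zero =>
    cases j with
    | zero => simpa [pre] using h
    | succ j => simp [pre, List.replicate_succ] at h
  | succ i ih =>
    cases j with
    | zero => simp [pre, List.replicate_succ] at h
    | succ j =>
      have h' : pre i y = pre j z := by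
        simpa [pre, List.replicate_succ] using h
      obtain ⟨h1, h2⟩ := ih h'
      exact ⟨by omega, h2⟩

theorem mem_weaves_length {x y : List Bool} (h : y ∈ weaves x) : y.length = 4 * x.length := by
  induction x generalizing y with
  | nil =>
    rw [weaves, Finset.mem_singleton] at h
    subst h
    rfl
  | cons a x ih =>
    rw [weaves, Finset.mem_image] at h
    obtain ⟨p, hp, rfl⟩ := h
    have h1 := ih (Finset.mem_product.mp hp).2
    simp only [List.length_cons]
    omega

theorem unweave_of_mem {x y : List Bool} (h : y ∈ weaves x) : unweave y = x := by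
  induction x generalizing y with
  | nil =>
    rw [weaves, Finset.mem_singleton] at h
    subst h
    rfl
  | cons a x ih =>
    rw [weaves, Finset.mem_image] at h
    obtain ⟨p, hp, rfl⟩ := h
    rw [unweave, ih (Finset.mem_product.mp hp).2]

theorem card_weaves (x : List Bool) : (weaves x).card = 8 ^ x.length := by
  induction x with
  | nil => rfl
  | cons a x ih =>
    rw [weaves, Finset.card_image_of_injective, Finset.card_product, ih, List.length_cons]
    · simp only [Finset.card_univ, Fintype.card_prod, Fintype.card_bool]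
      rw [pow_succ]; ring
    · rintro ⟨⟨b1, b2, b3⟩, y⟩ ⟨⟨c1, c2, c3⟩, z⟩ h
      simp only [List.cons.injEq, true_and] at h
      obtain ⟨rfl, rfl, rfl, rfl⟩ := h
      rfl

/-- the block of `(i, x)` -/
def blk (w : ℕ × List Bool) : Finset (List Bool) := (weaves w.2).image (pre w.1)

theorem card_blk (w : ℕ × List Bool) : (blk w).card = 8 ^ w.2.length := by
  rw [blk, Finset.card_image_of_injective _ (fun y z h => (pre_inj h).2), card_weaves]

theorem blk_disj (v w : ℕ × List Bool) (q : List Bool) (hv : q ∈ blk v) (hw : q ∈ blk w) :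
    v = w := by
  rw [blk, Finset.mem_image] at hv hw
  obtain ⟨y, hy, rfl⟩ := hv
  obtain ⟨z, hz, h⟩ := hw
  obtain ⟨h1, h2⟩ := pre_inj h
  subst h2
  rw [Prod.ext_iff, h1, ← unweave_of_mem hy, ← unweave_of_mem hz]
  exact ⟨rfl, rfl⟩

theorem blk_length {w : ℕ × List Bool} {q : List Bool} (h : q ∈ blk w) :
    w.2.length < q.length := by
  rw [blk, Finset.mem_image] at h
  obtain ⟨y, hy, rfl⟩ := h
  rw [pre_length, mem_weaves_length hy]
  omega

/-- the strings of length less than `m` -/
def shorts : ℕ → Finset (List Bool)
  | 0 => ∅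
  | m + 1 => insert [] ((Finset.univ ×ˢ shorts m).image (fun p : Bool × List Bool => p.1 :: p.2))

theorem mem_shorts {m : ℕ} {x : List Bool} : x ∈ shorts m ↔ x.length < m := by
  induction m generalizing x with
  | zero => simp [shorts]
  | succ m ih =>
    rw [shorts, Finset.mem_insert, Finset.mem_image]
    constructor
    · rintro (rfl | ⟨p, hp, rfl⟩)
      · simp
      · have := (ih).mp (Finset.mem_product.mp hp).2
        simp only [List.length_cons]
        omega
    · intro h
      cases x with
      | nil => exact Or.inl rfl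
      | cons b x =>
        refine Or.inr ⟨(b, x), Finset.mem_product.mpr ⟨Finset.mem_univ _, ih.mpr ?_⟩, rfl⟩
        simpa using h

theorem card_shorts (m : ℕ) : (shorts m).card + 1 ≤ 2 ^ m := by
  induction m with
  | zero => simp [shorts]
  | succ m ih =>
    rw [shorts]
    have h1 := Finset.card_insert_le ([] : List Bool) ((Finset.univ ×ˢ shorts m).image
      (fun p : Bool × List Bool => p.1 :: p.2))
    have h2 : ((Finset.univ ×ˢ shorts m).image
      (fun p : Bool × List Bool => p.1 :: p.2)).card ≤ 2 * (shorts m).card := by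
      refine Finset.card_image_le.trans ?_
      rw [Finset.card_product, Finset.card_univ, Fintype.card_bool]
    rw [pow_succ]
    omega

/-- the layer of a string -/
def layer (w : ℕ × List Bool) : ℕ := Nat.log 2 w.2.length

theorem lt_of_layer_le {v w : ℕ × List Bool} (h : layer v ≤ layer w) (hw : 1 ≤ w.2.length) :
    v.2.length < 2 * w.2.length := by
  unfold layer at h
  have h1 : v.2.length < 2 ^ (Nat.log 2 v.2.length + 1) := Nat.lt_pow_succ_log_self (by omega) _
  have h2 : 2 ^ Nat.log 2 w.2.length ≤ w.2.length := Nat.pow_log_le_self 2 (by omega)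
  have h3 : 2 ^ (Nat.log 2 v.2.length + 1) ≤ 2 ^ (Nat.log 2 w.2.length + 1) :=
    Nat.pow_le_pow_right (by omega) (by omega)
  rw [pow_succ] at h3 h1
  rw [pow_succ] at h3
  omega

/-- the system of blocks for the indices in `J` and inputs of length at least `N` -/
def sys (J : Finset ℕ) (N : ℕ) (T : ℕ × List Bool → DT (List Bool)) :
    Sys (List Bool) (ℕ × List Bool) where
  B := blk
  L := layer
  T := T
  act := {w | w.1 ∈ J ∧ N ≤ w.2.length}
  disj := blk_disj

/-- the trees up to the layer of `w` read few positions -/
theorem count_paths {J : Finset ℕ} {N : ℕ} {T : ℕ × List Bool → DT (List Bool)} {f : ℕ → ℕ}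
    (hf : Monotone f)
    (hT : ∀ w : ℕ × List Bool, w.1 ∈ J → N ≤ w.2.length → (T w).depth ≤ f w.2.length)
    {w : ℕ × List Bool} (hw : 1 ≤ w.2.length) (X : List Bool → Bool) (s : Finset (List Bool))
    (hs : ∀ q ∈ s, ∃ v : ℕ × List Bool, v.1 ∈ J ∧ N ≤ v.2.length ∧ layer v ≤ layer w ∧
      q ∈ (T v).path X) :
    s.card ≤ J.card * 2 ^ (2 * w.2.length) * f (2 * w.2.length) := by
  classical
  have h1 : s ⊆ (J ×ˢ shorts (2 * w.2.length)).biUnion (fun v =>
      if N ≤ v.2.length then ((T v).path X).toFinset else ∅) := by
    intro q hq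
    obtain ⟨v, hv1, hv2, hv3, hv4⟩ := hs q hq
    rw [Finset.mem_biUnion]
    refine ⟨v, Finset.mem_product.mpr ⟨hv1, mem_shorts.mpr (lt_of_layer_le hv3 hw)⟩, ?_⟩
    rw [if_pos hv2, List.mem_toFinset]
    exact hv4
  refine (Finset.card_le_card h1).trans ((Finset.card_biUnion_le_card_mul _ _
    (f (2 * w.2.length)) (fun v hv => ?_)).trans ?_)
  · rw [Finset.mem_product, mem_shorts] at hv
    split_ifs with h
    · exact (List.toFinset_card_le _).trans ((DT.path_length_le _ _).trans
        ((hT v hv.1 h).trans (hf hv.2.le)))
    · simp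
  · refine Nat.mul_le_mul_right _ ?_
    rw [Finset.card_product]
    refine Nat.mul_le_mul_left _ ?_
    have := card_shorts (2 * w.2.length)
    omega

end Pool.Agent.H65.BP
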