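import Mathlib

set_option autoImplicit false

/-!
# Decision trees
-/

namespace Pool.Agent.H65.BP

/-- Decision trees which ask for the values of positions in `P`. -/
inductive DT (P : Type) : Type
  /-- a leaf with a result -/
  | out (b : Bool) : DT P
  /-- ask for the value at `p`, continue with `l` if it is `false` and with `r` if it is `true` -/
  | ask (p : P) (l r : DT P) : DT P

variable {P : Type}

namespace DT

/-- the result of the tree on `X` -/
def eval (X : P → Bool) : DT P → Bool
  | out b => b
  | ask p l r => if X p then eval X r else eval X l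

/-- the positions asked on `X` -/
def path (X : P → Bool) : DT P → List P
  | out _ => []
  | ask p l r => p :: (if X p then path X r else path X l)

/-- the depth of the tree -/
def depth : DT P → ℕ
  | out _ => 0
  | ask _ l r => max l.depth r.depth + 1

theorem path_length_le (X : P → Bool) (t : DT P) : (t.path X).length ≤ t.depth := by
  induction t with
  | out b => simp [path]
  | ask p l r ihl ihr =>
    simp only [path, depth, List.length_cons]
    split_ifs <;> omega

theorem agree {X Y : P → Bool} {t : DT P} (h : ∀ p ∈ t.path X, X p = Y p) :
    t.path Y = t.path X ∧ t.eval Y = t.eval X := by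
  induction t with
  | out b => simp [path, eval]
  | ask p l r ihl ihr =>
    simp only [path, List.mem_cons] at h
    have hp : X p = Y p := h p (Or.inl rfl)
    simp only [path, eval, ← hp]
    by_cases hX : X p = true
    · simp only [hX, if_true] at h ⊢
      obtain ⟨h1, h2⟩ := ihr (fun q hq => h q (Or.inr hq))
      rw [h1, h2]
      exact ⟨rfl, rfl⟩
    · rw [Bool.not_eq_true] at hX
      simp only [hX, Bool.false_eq_true, if_false] at h ⊢
      obtain ⟨h1, h2⟩ := ihl (fun q hq => h q (Or.inr hq))
      rw [h1, h2]
      exact ⟨rfl, rfl⟩

/-- if the results are different, then the two paths have a common position with different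
values -/
theorem inter {X Y : P → Bool} {t : DT P} (h : t.eval X ≠ t.eval Y) :
    ∃ p ∈ t.path X, p ∈ t.path Y ∧ X p ≠ Y p := by
  induction t with
  | out b => exact absurd rfl h
  | ask p l r ihl ihr =>
    by_cases hp : X p = Y p
    · simp only [eval, path, hp] at h ⊢
      by_cases hY : Y p = true
      · simp only [hY, if_true] at h ⊢
        obtain ⟨q, h1, h2, h3⟩ := ihr h
        exact ⟨q, List.mem_cons_of_mem _ h1, List.mem_cons_of_mem _ h2, h3⟩
      · rw [Bool.not_eq_true] at hY
        simp only [hY, Bool.false_eq_true, if_false] at h ⊢
        obtain ⟨q, h1, h2, h3⟩ := ihl h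
        exact ⟨q, List.mem_cons_of_mem _ h1, List.mem_cons_of_mem _ h2, h3⟩
    · exact ⟨p, by simp [path], by simp [path], hp⟩

/-- all positions of the tree -/
def support [DecidableEq P] : DT P → Finset P
  | out _ => ∅
  | ask p l r => insert p (l.support ∪ r.support)

theorem mem_support [DecidableEq P] {X : P → Bool} {t : DT P} {p : P} (h : p ∈ t.path X) :
    p ∈ t.support := by
  induction t with
  | out b => simp [path] at h
  | ask q l r ihl ihr =>
    simp only [path, List.mem_cons] at h
    simp only [support, Finset.mem_insert, Finset.mem_union]
    rcases h with h | h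
    · exact Or.inl h
    · split_ifs at h
      · exact Or.inr (Or.inr (ihr h))
      · exact Or.inr (Or.inl (ihl h))

/-- overwrite `Y` with `X` at the positions of `l` -/
def ovr [DecidableEq P] (Y X : P → Bool) (l : List P) : P → Bool :=
  fun q => if q ∈ l then X q else Y q

/-- run the tree `t`, store the answers in `Y` and continue with `k` -/
def run [DecidableEq P] (k : (P → Bool) → DT P) : DT P → (P → Bool) → DT P
  | out _, Y => k Y
  | ask p l r, Y => ask p (run k l (Function.update Y p false)) (run k r (Function.update Y p true))

theorem ovr_cons [DecidableEq P] (Y X : P → Bool) (p : P) (l : List P) :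
    ovr (Function.update Y p (X p)) X l = ovr Y X (p :: l) := by
  funext q
  unfold ovr
  by_cases h : q ∈ l
  · simp [h]
  · by_cases hq : q = p
    · subst hq; simp [h]
    · simp [h, hq]

theorem ovr_nil [DecidableEq P] (Y X : P → Bool) : ovr Y X [] = Y := by
  funext q
  simp [ovr]

theorem eval_run [DecidableEq P] (k : (P → Bool) → DT P) (X : P → Bool) (t : DT P) :
    ∀ Y, (run k t Y).eval X = (k (ovr Y X (t.path X))).eval X := by
  induction t with
  | out b => intro Y; simp only [run, path, ovr_nil]
  | ask p l r ihl ihr =>
    intro Y
    simp only [run, eval, path]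
    by_cases hX : X p = true
    · simp only [hX, if_true]
      rw [ihr, ← ovr_cons, hX]
    · rw [Bool.not_eq_true] at hX
      simp only [hX, Bool.false_eq_true, if_false]
      rw [ihl, ← ovr_cons, hX]

theorem depth_run [DecidableEq P] (k : (P → Bool) → DT P) {D : ℕ} (hk : ∀ Y, (k Y).depth ≤ D)
    (t : DT P) : ∀ Y, (run k t Y).depth ≤ t.depth + D := by
  induction t with
  | out b => intro Y; simp only [run, depth, zero_add]; exact hk Y
  | ask p l r ihl ihr =>
    intro Y
    simp only [run, depth]
    have h1 := ihl (Function.update Y p false)
    have h2 := ihr (Function.update Y p true)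
    omega

/-- ask all positions of a list -/
def lin : List P → DT P
  | [] => out false
  | p :: l => ask p (lin l) (lin l)

theorem path_lin (X : P → Bool) (l : List P) : (lin l).path X = l := by
  induction l with
  | nil => rfl
  | cons p l ih => simp only [lin, path, ih, ite_self]

theorem depth_lin (l : List P) : (lin l).depth = l.length := by
  induction l with
  | nil => rfl
  | cons p l ih => simp only [lin, depth, ih, max_self, List.length_cons]

/-- first `t`, then `u` -/
def seq : DT P → DT P → DT P
  | out _, u => u
  | ask p l r, u => ask p (seq l u) (seq r u)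

theorem path_seq (X : P → Bool) (t u : DT P) : (seq t u).path X = t.path X ++ u.path X := by
  induction t with
  | out b => simp [seq, path]
  | ask p l r ihl ihr =>
    simp only [seq, path, ihl, ihr, List.cons_append]
    split_ifs <;> rfl

theorem depth_seq (t u : DT P) : (seq t u).depth ≤ t.depth + u.depth := by
  induction t with
  | out b => simp [seq, depth]
  | ask p l r ihl ihr =>
    simp only [seq, depth]
    omega

/-- all trees of a list -/
def seqs : List (DT P) → DT P
  | [] => out false
  | t :: l => seq t (seqs l)

theorem path_seqs (X : P → Bool) (l : List (DT P)) :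
    (seqs l).path X = l.flatMap (fun t => t.path X) := by
  induction l with
  | nil => rfl
  | cons t l ih => simp only [seqs, path_seq, ih, List.flatMap_cons]

theorem depth_seqs (l : List (DT P)) : (seqs l).depth ≤ (l.map depth).sum := by
  induction l with
  | nil => simp [seqs, depth]
  | cons t l ih =>
    simp only [seqs, List.map_cons, List.sum_cons]
    exact (depth_seq _ _).trans (by omega)

end DT

/-! ### adapted lists -/

/-- A list of positions depending on `X` is adapted if the first `k` positions and their values
determine the next position. -/
def Adapted (R : (P → Bool) → List P) : Prop :=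
  ∀ X Y k, (∀ q ∈ (R X).take k, X q = Y q) → (R Y).take (k + 1) = (R X).take (k + 1)

theorem Adapted.eq {R : (P → Bool) → List P} (h : Adapted R) {X Y : P → Bool}
    (hXY : ∀ q ∈ R X, X q = Y q) : R Y = R X := by
  have h1 := h X Y (max (R X).length (R Y).length) (fun q hq => hXY q (List.mem_of_mem_take hq))
  rwa [List.take_of_length_le (by omega), List.take_of_length_le (by omega)] at h1

theorem Adapted.path (t : DT P) : Adapted (fun X => t.path X) := by
  intro X Y k
  induction t generalizing k with
  | out b => intro _; rfl
  | ask p l r ihl ihr =>
    intro h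
    simp only [DT.path] at h ⊢
    cases k with
    | zero => simp
    | succ k =>
      simp only [List.take_succ_cons, List.mem_cons] at h
      have hp : X p = Y p := h p (Or.inl rfl)
      simp only [List.take_succ_cons, ← hp]
      by_cases hX : X p = true
      · simp only [hX, if_true] at h ⊢
        rw [ihr k (fun q hq => h q (Or.inr hq))]
      · rw [Bool.not_eq_true] at hX
        simp only [hX, Bool.false_eq_true, if_false] at h ⊢
        rw [ihl k (fun q hq => h q (Or.inr hq))]

theorem Adapted.const (l : List P) : Adapted (fun _ : P → Bool => l) := fun _ _ _ _ => rfl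

theorem Adapted.append {R R' : (P → Bool) → List P} (h : Adapted R) (h' : Adapted R') :
    Adapted (fun X => R X ++ R' X) := by
  intro X Y k hk
  simp only at hk ⊢
  rcases Nat.lt_or_ge k (R X).length with hlt | hge
  · have h1 := h X Y k (fun q hq => hk q (by
      rw [List.take_append_of_le_length hlt.le]; exact hq))
    have h2 : k + 1 ≤ (R Y).length := by
      have := congrArg List.length h1
      rw [List.length_take, List.length_take] at this
      omega
    rw [List.take_append_of_le_length h2, List.take_append_of_le_length (by omega), h1]
  · have h1 : R Y = R X := h.eq (fun q hq => hk q (by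
      rw [List.take_append, List.take_of_length_le hge]
      exact List.mem_append_left _ hq))
    have h2 := h' X Y (k - (R X).length) (fun q hq => hk q (by
      rw [List.take_append]
      exact List.mem_append_right _ hq))
    rw [List.take_append, List.take_append, h1]
    have e : k + 1 - (R X).length = k - (R X).length + 1 := by omega
    rw [e, h2]

theorem Adapted.flatMap {ι : Type} (l : List ι) {g : ι → (P → Bool) → List P}
    (h : ∀ a, Adapted (g a)) : Adapted (fun X => l.flatMap (fun a => g a X)) := by
  induction l with
  | nil => exact Adapted.const []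
  | cons a l ih => exact (h a).append ih

theorem Adapted.getElem? {R : (P → Bool) → List P} (h : Adapted R) {X Y : P → Bool} {k : ℕ}
    (hk : ∀ q ∈ (R X).take k, X q = Y q) : (R Y)[k]? = (R X)[k]? := by
  have h1 := congrArg (fun l => l[k]?) (h X Y k hk)
  simp only [List.getElem?_take, if_pos (Nat.lt_succ_self k)] at h1
  simpa using h1

theorem Adapted.take {R : (P → Bool) → List P} (h : Adapted R) {X Y : P → Bool} {k : ℕ}
    (hk : ∀ q ∈ (R X).take k, X q = Y q) : (R Y).take k = (R X).take k := by
  have h1 := congrArg (List.take k) (h X Y k hk)
  rwa [List.take_take, List.take_take, min_eq_left (by omega)] at h1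

/-- **Lexicographic minimality.** -/
theorem exists_minimal {R : (P → Bool) → List P} (h : Adapted R)
    (D : (P → Bool) → P → Bool)
    (hD : ∀ X Y k q, (∀ x ∈ (R X).take k, X x = Y x) → (R X)[k]? = some q → D Y q = D X q)
    {G : Set (P → Bool)} (hG : G.Nonempty) (n : ℕ) :
    ∃ X ∈ G, ∀ k < n, ∀ q, (R X)[k]? = some q → X q ≠ D X q →
      ∀ Y, (∀ x ∈ (R X).take k, X x = Y x) → Y q = D X q → Y ∉ G := by
  induction n with
  | zero =>
    obtain ⟨X, hX⟩ := hG
    exact ⟨X, hX, fun k hk => absurd hk (Nat.not_lt_zero k)⟩
  | succ n ih =>
    obtain ⟨X, hX, hm⟩ := ih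
    by_cases hc : ∃ q, (R X)[n]? = some q ∧ ∃ Y ∈ G, (∀ x ∈ (R X).take n, X x = Y x) ∧
        Y q = D X q
    · obtain ⟨q, hq, Y, hY, hag, hYq⟩ := hc
      refine ⟨Y, hY, fun k hk q' hq' hne Z hZ hZq => ?_⟩
      have hsub : ∀ k ≤ n, ∀ x ∈ (R X).take k, X x = Y x := by
        intro k hk x hx
        refine hag x ?_
        have : (R X).take k = ((R X).take n).take k := by
          rw [List.take_take, min_eq_left hk]
        rw [this] at hx
        exact List.mem_of_mem_take hx
      have hkn : k ≤ n := by omega
      have e1 : (R Y)[k]? = (R X)[k]? := h.getElem? (hsub k hkn)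
      rw [e1] at hq'
      have e2 : D Y q' = D X q' := hD X Y k q' (hsub k hkn) hq'
      rcases Nat.lt_or_ge k n with hlt | hge
      · have hXY : X q' = Y q' := by
          refine hag q' ?_
          have : q' ∈ (R X).take n := by
            rw [List.mem_iff_getElem?]
            refine ⟨k, ?_⟩
            rw [List.getElem?_take, if_pos hlt]
            exact hq'
          exact this
        refine hm k hlt q' hq' (by rw [hXY, ← e2]; exact hne) Z ?_ (by rw [hZq, e2])
        intro x hx
        rw [hsub k hkn x hx]
        exact hZ x (by rw [h.take (hsub k hkn)]; exact hx)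
      · have hkn' : k = n := by omega
        subst hkn'
        rw [hq] at hq'
        injection hq' with hq'
        subst hq'
        exact absurd (by rw [hYq, e2]) hne
    · refine ⟨X, hX, fun k hk q hq hne Y hY hYq hYG => ?_⟩
      rcases Nat.lt_or_ge k n with hlt | hge
      · exact hm k hlt q hq hne Y hY hYq hYG
      · have hkn' : k = n := by omega
        subst hkn'
        exact hc ⟨q, hq, Y, hYG, hY, hYq⟩

/-- locating an entry of a concatenated list -/
theorem flatMap_getElem? {ι : Type} (g : ι → List P) (l : List ι) :
    ∀ (k : ℕ) (q : P), (l.flatMap g)[k]? = some q →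
      ∃ l₁ a l₂ j, l = l₁ ++ a :: l₂ ∧ (g a)[j]? = some q ∧
        (∀ x ∈ (g a).take j, x ∈ (l.flatMap g).take k) ∧
        ∀ a' ∈ l₁, ∀ x ∈ g a', x ∈ (l.flatMap g).take k := by
  induction l with
  | nil => intro k q h; simp at h
  | cons b l ih =>
    intro k q h
    rw [List.flatMap_cons] at h ⊢
    rcases Nat.lt_or_ge k (g b).length with hlt | hge
    · rw [List.getElem?_append_left hlt] at h
      refine ⟨[], b, l, k, rfl, h, fun x hx => ?_, by simp⟩
      rw [List.take_append_of_le_length hlt.le]
      exact hx
    · rw [List.getElem?_append_right hge] at h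
      obtain ⟨l₁, a, l₂, j, h1, h2, h3, h4⟩ := ih _ _ h
      refine ⟨b :: l₁, a, l₂, j, by rw [h1]; rfl, h2, fun x hx => ?_, fun a' ha' x hx => ?_⟩
      · rw [List.take_append]
        exact List.mem_append_right _ (h3 x hx)
      · rw [List.take_append]
        rcases List.mem_cons.mp ha' with rfl | ha'
        · refine List.mem_append_left _ ?_
          rw [List.take_of_length_le hge]
          exact hx
        · exact List.mem_append_right _ (h4 a' ha' x hx)

end Pool.Agent.H65.BP
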