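import Pool.Agent.H65.BP.Seed

set_option autoImplicit false

/-!
# Descent to small seeds
-/

namespace Pool.Agent.H65.BP

open DT

namespace Sys

variable {P V : Type} {S : Sys P V} {Ω : Type} [Fintype Ω]

theorem bool_flip {a b : Bool} (h : a ≠ b) : (!a) = b := by
  cases a <;> cases b <;> simp_all

/-- wrong positions of `X` in the block `w` which are right in `A` -/
def Wd (S : Sys P V) (A X : P → Bool) (w : V) : Finset P :=
  (S.B w).filter (fun q => X q ≠ S.tv X w ∧ A q = S.tv A w)

/-- the state is in good standing -/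
def Standing (S : Sys P V) (A : P → Bool) (b : V → ℕ) (X : P → Bool) : Prop :=
  ∀ w ∈ S.act, (S.tv X w = S.tv A w → (Wd S A X w).card ≤ b w) ∧
    (S.tv X w ≠ S.tv A w → (S.Wr X w).card ≤ b w)

/-- **Small seeds.** -/
theorem exists_seed (hfin : S.act.Finite) {d ℓ t : ℕ} (hL : ∀ w ∈ S.act, S.L w < ℓ)
    (hd : 1 ≤ d) (hdep : ∀ v ∈ S.act, (S.T v).depth ≤ d)
    {M : Ω → DT P} (hΩ : 0 < Fintype.card Ω) (ht : ∀ ω, (M ω).depth ≤ t)
    {fr prot : Set P} (hfp : fr ⊆ prot) {A : P → Bool} {e e' m : V → ℕ}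
    (hA : ∀ w ∈ S.act, (S.Wr A w).card ≤ e w)
    (hm : ∀ w ∈ S.act, ∀ X : P → Bool, ∀ s : Finset P, s ⊆ S.B w →
      (∀ q ∈ s, q ∈ S.Des X (S.L w) ∨ q ∈ prot) →
      s.card + 3 * t * (1 + (2 * d) ^ ℓ) + 1 ≤ m w)
    (he : ∀ w ∈ S.act, 2 * e w + m w + 1 ≤ e' w)
    (hvalid : ∀ X : P → Bool, (∀ q ∈ fr, X q = A q) → (∀ w ∈ S.act, (S.Wr X w).card ≤ e' w) →
      Valid M X)
    {X' : P → Bool} (hX1 : ∀ q ∈ prot, X' q = A q) (hX2 : ∀ w ∈ S.act, (S.Wr X' w).card ≤ e w)
    (hX3 : ans M X' ≠ ans M A) :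
    ∃ X : P → Bool, (∀ q ∈ prot, X q = A q) ∧ (∀ w ∈ S.act, (S.Wr X w).card ≤ e' w) ∧
      ans M X ≠ ans M A ∧ ∃ D : Finset P, D.card ≤ 3 * t * (1 + (2 * d) ^ ℓ) ∧
        (∀ q ∈ D, q ∉ prot) ∧ ∀ q, X q ≠ A q → q ∈ D ∨
          ∃ w ∈ S.act, q ∈ S.B w ∧ S.tv X w ≠ S.tv A w ∧ q ∉ S.Des X (S.L w) := by
  classical
  set H := 3 * t * (1 + (2 * d) ^ ℓ) with hH
  obtain ⟨l, hl1, hl2, hl3, hl4, hl5⟩ := exists_items S hfin ℓ
  -- the relevant positions
  let U : Finset P := hfin.toFinset.biUnion (fun v => S.B v ∪ (S.T v).support) ∪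
    Finset.univ.biUnion (fun ω => (M ω).support)
  have hU1 : ∀ v ∈ S.act, ∀ q ∈ S.B v, q ∈ U := by
    intro v hv q hq
    simp only [U, Finset.mem_union, Finset.mem_biUnion]
    exact Or.inl ⟨v, by simpa using hv, Or.inl hq⟩
  have hU2 : ∀ v ∈ S.act, ∀ X : P → Bool, ∀ q ∈ (S.T v).path X, q ∈ U := by
    intro v hv X q hq
    simp only [U, Finset.mem_union, Finset.mem_biUnion]
    exact Or.inl ⟨v, by simpa using hv, Or.inr (mem_support hq)⟩
  have hU3 : ∀ ω, ∀ X : P → Bool, ∀ q ∈ (M ω).path X, q ∈ U := by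
    intro ω X q hq
    simp only [U, Finset.mem_union, Finset.mem_biUnion]
    exact Or.inr ⟨ω, Finset.mem_univ _, mem_support hq⟩
  let b : V → ℕ := fun w => e w + m w
  let G : Set (P → Bool) := {X | (∀ q ∈ prot, X q = A q) ∧ (∀ q ∉ U, X q = A q) ∧
    ans M X ≠ ans M A ∧ Standing S A b X}
  have hG : G.Nonempty := by
    let X'' : P → Bool := fun q => if q ∈ U then X' q else A q
    have e1 : ∀ q ∈ U, X' q = X'' q := fun q hq => by simp only [X'', if_pos hq]
    have e2 : ∀ v ∈ S.act, S.tv X'' v = S.tv X' v := fun v hv =>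
      (DT.agree (fun q hq => e1 q (hU2 v hv X' q hq))).2
    have e3 : acc M X'' = acc M X' := by
      unfold acc
      congr 1
      ext ω
      rw [Finset.mem_filter, Finset.mem_filter,
        (DT.agree (fun q hq => e1 q (hU3 ω X' q hq))).2]
    have e4 : ans M X'' = ans M X' := by unfold ans; rw [e3]
    have e5 : ∀ w ∈ S.act, S.Wr X'' w = S.Wr X' w := by
      intro w hw
      ext q
      rw [mem_Wr, mem_Wr]
      constructor
      · rintro ⟨h1, h2⟩
        rw [← e1 q (hU1 w hw q h1), e2 w hw] at h2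
        exact ⟨h1, h2⟩
      · rintro ⟨h1, h2⟩
        rw [← e1 q (hU1 w hw q h1), e2 w hw]
        exact ⟨h1, h2⟩
    refine ⟨X'', fun q hq => ?_, fun q hq => ?_, by rw [e4]; exact hX3, fun w hw => ⟨fun _ => ?_,
      fun _ => ?_⟩⟩
    · simp only [X'']
      split_ifs
      · exact hX1 q hq
      · rfl
    · simp only [X'', if_neg hq]
    · have h1 : Wd S A X'' w ⊆ S.Wr X'' w := by
        intro q hq
        unfold Wd at hq
        rw [Finset.mem_filter] at hq
        exact mem_Wr.mpr ⟨hq.1, hq.2.1⟩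
      rw [e5 w hw] at h1
      have h2 := (Finset.card_le_card h1).trans (hX2 w hw)
      simp only [b]; omega
    · rw [e5 w hw]
      have h2 := hX2 w hw
      simp only [b]; omega
  obtain ⟨N, hN⟩ := rev_bound S U l
  obtain ⟨X, hXG, hmin⟩ := exists_minimal (rev_adapted S U l) (dfl S prot A)
    (dfl_adapted hl1 hl4 hl5 hL prot A) hG N
  obtain ⟨hXp, hXU, hXa, hXs⟩ := hXG
  -- deviating positions
  let Dev : Finset P := U.filter (fun q => X q ≠ dfl S prot A X q)
  have hDev : ∀ q, q ∈ Dev ↔ q ∈ U ∧ X q ≠ dfl S prot A X q := fun q => Finset.mem_filter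
  have hDp : ∀ q ∈ Dev, q ∉ prot := by
    intro q hq hp
    have h1 := ((hDev q).mp hq).2
    rw [dfl_neg (by rintro ⟨w, _, _, _, _, h⟩; exact h hp)] at h1
    exact h1 (hXp q hp)
  choose fl hfl using fun p => exists_flip S prot X p
  -- changes only outside of `prot` and inside `U`
  have hf1 : ∀ p ∈ Dev, ∀ q ∈ prot, fl p q = A q := by
    intro p hp q hq
    have hqp : q ≠ p := by rintro rfl; exact hDp _ hp hq
    by_contra hne
    rw [← hXp q hq] at hne
    obtain ⟨w, _, _, _, _, h⟩ := (hfl p).change q hqp hne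
    exact h hq
  have hf2 : ∀ p ∈ Dev, ∀ q ∉ U, fl p q = A q := by
    intro p hp q hq
    have hqp : q ≠ p := by rintro rfl; exact hq ((hDev _).mp hp).1
    by_contra hne
    rw [← hXU q hq] at hne
    obtain ⟨w, hw, hqw, _, _, h⟩ := (hfl p).change q hqp hne
    exact hq (hU1 w hw q hqw)
  -- the new state is not in `G`
  have hf3 : ∀ p ∈ Dev, fl p ∉ G := by
    intro p hp
    obtain ⟨hpU, hpd⟩ := (hDev p).mp hp
    have h1 : p ∈ rev S U l X := by
      unfold rev
      rw [List.mem_flatMap]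
      exact ⟨Item.rest, hl3, Finset.mem_toList.mpr hpU⟩
    obtain ⟨k, hk0, hk1, hk2⟩ := exists_first h1
    refine hmin k (lt_of_lt_of_le hk0 (hN X)) p hk1 hpd (fl p)
      ((hfl p).agree hl1 hl4 hl5 hL k hk2) ?_
    rw [(hfl p).flip]
    exact bool_flip hpd
  -- wrong positions after a flip
  have hc1 : ∀ p ∈ Dev, ∀ w ∈ S.act, S.tv (fl p) w ≠ S.tv X w → (S.Wr (fl p) w).card ≤ m w := by
    intro p hp w hw hne
    have h1 : S.Wr (fl p) w ⊆ insert p ((S.Wr (fl p) w).filter (fun q =>
        q ∈ S.Des (fl p) (S.L w) ∨ q ∈ prot)) := by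
      intro q hq
      obtain ⟨h1, h2⟩ := mem_Wr.mp hq
      rw [Finset.mem_insert, Finset.mem_filter]
      by_cases hqp : q = p
      · exact Or.inl hqp
      · refine Or.inr ⟨hq, ?_⟩
        by_contra hcon
        rw [not_or] at hcon
        exact h2 ((hfl p).reset w hw q h1 hne hcon.1 hcon.2 hqp)
    have h2 := hm w hw (fl p) ((S.Wr (fl p) w).filter (fun q =>
        q ∈ S.Des (fl p) (S.L w) ∨ q ∈ prot)) (fun q hq =>
          (mem_Wr.mp (Finset.mem_filter.mp hq).1).1) (fun q hq => (Finset.mem_filter.mp hq).2)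
    have h3 := (Finset.card_le_card h1).trans (Finset.card_insert_le _ _)
    omega
  have hsame : ∀ p, ∀ w ∈ S.act, S.tv (fl p) w = S.tv X w → ∀ q ∈ S.B w, q ≠ p →
      fl p q = X q := by
    intro p w hw hT q hq hqp
    by_contra hne
    obtain ⟨w', _, hqw, hT', _⟩ := (hfl p).change q hqp hne
    rw [S.disj _ _ _ hqw hq] at hT'
    exact hT' hT
  have hc2 : ∀ p ∈ Dev, ∀ w ∈ S.act, S.tv (fl p) w = S.tv X w →
      (S.Wr (fl p) w).card ≤ (S.Wr X w).card + 1 := by
    intro p hp w hw hT
    have h1 : S.Wr (fl p) w ⊆ insert p (S.Wr X w) := by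
      intro q hq
      obtain ⟨h1, h2⟩ := mem_Wr.mp hq
      rw [Finset.mem_insert]
      by_cases hqp : q = p
      · exact Or.inl hqp
      · refine Or.inr (mem_Wr.mpr ⟨h1, ?_⟩)
        rw [← hsame p w hw hT q h1 hqp, ← hT]
        exact h2
    exact (Finset.card_le_card h1).trans (Finset.card_insert_le _ _)
  -- special deviating positions
  let Sp : P → Prop := fun p => ∃ w ∈ S.act, p ∈ S.B w ∧ S.tv X w ≠ S.tv A w ∧
    p ∈ S.Des X (S.L w)
  -- standing of the new state
  have hst : ∀ p ∈ Dev, (∀ w ∈ S.act, p ∈ S.B w → S.tv X w ≠ S.tv A w → p ∈ S.Des X (S.L w) →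
      (S.Wr X w).card + 1 ≤ b w) → Standing S A b (fl p) := by
    intro p hp hsp w hw
    obtain ⟨hpU, hpd⟩ := (hDev p).mp hp
    have hWd : Wd S A (fl p) w ⊆ S.Wr (fl p) w := by
      intro q hq
      unfold Wd at hq
      rw [Finset.mem_filter] at hq
      exact mem_Wr.mpr ⟨hq.1, hq.2.1⟩
    by_cases hT : S.tv (fl p) w = S.tv X w
    · constructor
      · intro hTA
        rw [hT] at hTA
        have h1 : Wd S A (fl p) w ⊆ Wd S A X w := by
          intro q hq
          unfold Wd at hq ⊢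
          rw [Finset.mem_filter] at hq ⊢
          obtain ⟨h1, h2, h3⟩ := hq
          by_cases hqp : q = p
          · exfalso
            subst hqp
            have h4 : dfl S prot A X q = A q := by
              refine dfl_neg ?_
              rintro ⟨w', _, hq', hne, _⟩
              rw [S.disj _ _ _ hq' h1] at hne
              exact hne hTA
            rw [h4] at hpd
            rw [hT, hTA, (hfl q).flip, bool_flip hpd] at h2
            exact h2 h3
          · refine ⟨h1, ?_, h3⟩
            rw [← hsame p w hw hT q h1 hqp, ← hT]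
            exact h2
        exact (Finset.card_le_card h1).trans ((hXs w hw).1 hTA)
      · intro hTA
        rw [hT] at hTA
        by_cases hpw : p ∈ S.B w ∧ p ∈ S.Des X (S.L w)
        · have h1 := hsp w hw hpw.1 hTA hpw.2
          have h2 := hc2 p hp w hw hT
          omega
        · have h1 : S.Wr (fl p) w ⊆ S.Wr X w := by
            intro q hq
            obtain ⟨h1, h2⟩ := mem_Wr.mp hq
            by_cases hqp : q = p
            · exfalso
              subst hqp
              have h4 : dfl S prot A X q = S.tv X w :=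
                dfl_pos ⟨hw, h1, hTA, fun h => hpw ⟨h1, h⟩, hDp q hp⟩
              rw [h4] at hpd
              rw [hT, (hfl q).flip] at h2
              exact h2 (bool_flip hpd)
            · refine mem_Wr.mpr ⟨h1, ?_⟩
              rw [← hsame p w hw hT q h1 hqp, ← hT]
              exact h2
          exact (Finset.card_le_card h1).trans ((hXs w hw).2 hTA)
    · have h1 := hc1 p hp w hw hT
      have h2 := Finset.card_le_card hWd
      constructor
      · intro _; simp only [b]; omega
      · intro _; simp only [b]; omega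
  -- validity
  have hWX : ∀ w ∈ S.act, (S.Wr X w).card ≤ 2 * e w + m w := by
    intro w hw
    by_cases hTA : S.tv X w = S.tv A w
    · have h1 : S.Wr X w ⊆ Wd S A X w ∪ S.Wr A w := by
        intro q hq
        obtain ⟨h1, h2⟩ := mem_Wr.mp hq
        rw [Finset.mem_union]
        by_cases hAq : A q = S.tv A w
        · left
          unfold Wd
          rw [Finset.mem_filter]
          exact ⟨h1, h2, hAq⟩
        · exact Or.inr (mem_Wr.mpr ⟨h1, hAq⟩)
      have h2 := (Finset.card_le_card h1).trans (Finset.card_union_le _ _)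
      have h3 := (hXs w hw).1 hTA
      have h4 := hA w hw
      simp only [b] at h3
      omega
    · have h3 := (hXs w hw).2 hTA
      simp only [b] at h3
      omega
  have hX'e : ∀ w ∈ S.act, (S.Wr X w).card ≤ e' w := fun w hw => by
    have h1 := hWX w hw
    have h2 := he w hw
    omega
  have hvX : Valid M X := hvalid X (fun q hq => hXp q (hfp hq)) hX'e
  have hvF : ∀ p ∈ Dev, Valid M (fl p) := by
    intro p hp
    refine hvalid _ (fun q hq => hf1 p hp q (hfp hq)) (fun w hw => ?_)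
    have h2 := he w hw
    have h3 := hWX w hw
    by_cases hT : S.tv (fl p) w = S.tv X w
    · have h1 := hc2 p hp w hw hT
      omega
    · have h1 := hc1 p hp w hw hT
      omega
  -- a set of heavy positions is small
  have hheavy : ∀ I ⊆ Dev, (∀ p ∈ I, ans M (fl p) = ans M A) → I.card ≤ H := by
    intro I hI hans
    refine heavy (S := S) (X := X) (Y := fl) (Sd := fun p => {p}) ⟨?_, ?_⟩ hd
      (fun v hv _ => hdep v hv) hΩ ht (fun _ _ _ w hw _ => hL w hw) hvX
      (fun p hp => hvF p (hI hp)) (fun p hp => by rw [hans p hp]; exact fun h => hXa h.symm)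
    · intro i _ j _ hij q hqi hqj
      simp only [Set.mem_singleton_iff] at hqi hqj
      exact hij (hqi.symm.trans hqj)
    · intro p hp q hne
      by_cases hqp : q = p
      · exact Or.inl hqp
      · obtain ⟨w, hw, hqw, hT, hD, _⟩ := (hfl p).change q hqp hne
        exact Or.inr ⟨w, hw, hqw, hT, hD⟩
  have hnot : ∀ p ∈ Dev, Standing S A b (fl p) → ans M (fl p) = ans M A := by
    intro p hp hs
    by_contra hne
    exact hf3 p hp ⟨hf1 p hp, hf2 p hp, hne, hs⟩
  -- the non-special ones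
  have hN0 : (Dev.filter (fun p => ¬ Sp p)).card ≤ H := by
    refine hheavy _ (Finset.filter_subset _ _) (fun p hp => ?_)
    rw [Finset.mem_filter] at hp
    refine hnot p hp.1 (hst p hp.1 (fun w hw hpw hTA hD => ?_))
    exact absurd ⟨w, hw, hpw, hTA, hD⟩ hp.2
  have hWs : ∀ w ∈ S.act, S.tv X w ≠ S.tv A w → (S.Wr X w).card + 1 ≤ m w := by
    intro w hw hTA
    have h1 : S.Wr X w ⊆ (S.Wr X w).filter (fun q => q ∈ S.Des X (S.L w) ∨ q ∈ prot) ∪
        Dev.filter (fun p => ¬ Sp p) := by
      intro q hq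
      obtain ⟨h1, h2⟩ := mem_Wr.mp hq
      rw [Finset.mem_union]
      by_cases hc : q ∈ S.Des X (S.L w) ∨ q ∈ prot
      · exact Or.inl (Finset.mem_filter.mpr ⟨hq, hc⟩)
      · rw [not_or] at hc
        right
        rw [Finset.mem_filter, hDev]
        refine ⟨⟨hU1 w hw q h1, ?_⟩, ?_⟩
        · rw [dfl_pos ⟨hw, h1, hTA, hc.1, hc.2⟩]
          exact h2
        · rintro ⟨w', _, hq', _, hD⟩
          rw [S.disj _ _ _ hq' h1] at hD
          exact hc.1 hD
    have h2 := hm w hw X ((S.Wr X w).filter (fun q => q ∈ S.Des X (S.L w) ∨ q ∈ prot))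
      (fun q hq => (mem_Wr.mp (Finset.mem_filter.mp hq).1).1)
      (fun q hq => (Finset.mem_filter.mp hq).2)
    have h3 := (Finset.card_le_card h1).trans (Finset.card_union_le _ _)
    omega
  have hD : Dev.card ≤ H := by
    refine hheavy _ (Finset.Subset.refl _) (fun p hp => ?_)
    refine hnot p hp (hst p hp (fun w hw hpw hTA hD => ?_))
    have h1 := hWs w hw hTA
    simp only [b]
    omega
  refine ⟨X, hXp, hX'e, hXa, Dev, hD, hDp, fun q hne => ?_⟩
  by_cases hqD : q ∈ Dev
  · exact Or.inl hqD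
  · right
    have hqU : q ∈ U := by
      by_contra h
      exact hne (hXU q h)
    have h1 : X q = dfl S prot A X q := by
      by_contra h
      exact hqD ((hDev q).mpr ⟨hqU, h⟩)
    by_contra hcon
    apply hne
    rw [h1]
    refine dfl_neg ?_
    rintro ⟨w, hw, hqw, hT, hD', _⟩
    exact hcon ⟨w, hw, hqw, hT, hD'⟩

end Sys

end Pool.Agent.H65.BP
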