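import Pool.Agent.H65.BP.Sim

set_option autoImplicit false

/-!
# Time bounds with subexponential iterates
-/

namespace Pool.Agent.H65.BP

section

variable {Q : Type} {g m : ℕ}

theorem halts_list {M : PTM Q g m} {A : List Bool → Bool} {x : List Bool} {n : ℕ}
    (h : ∀ ω : Fin n → Bool, M.result A x (List.ofFn ω) = Kind.accept ∨
      M.result A x (List.ofFn ω) = Kind.reject) (l : List Bool) (hl : l.length = n) :
    M.result A x l = Kind.accept ∨ M.result A x l = Kind.reject := by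
  have h4 := h (fun i => l.get (i.cast hl.symm))
  have h5 : List.ofFn (fun i : Fin n => l.get (i.cast hl.symm)) = l := by
    refine List.ext_getElem (by rw [List.length_ofFn, hl]) (fun i h1 h2 => ?_)
    simp
  rwa [h5] at h4

end

open Classical in
theorem BPTIME.mono {A : List Bool → Bool} {s t : ℕ → ℕ} {L : Set (List Bool)}
    (h : ∀ n, s n ≤ t n) (hL : BPTIME A s L) : BPTIME A t L := by
  obtain ⟨q, g, m, M, c, hM⟩ := hL
  refine ⟨q, g, m, M, c, fun x => ?_⟩
  obtain ⟨r, hr⟩ : ∃ r, c * t x.length + c = c * s x.length + c + r :=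
    Nat.exists_eq_add_of_le (Nat.add_le_add_right (Nat.mul_le_mul_left _ (h _)) _)
  have h3 := halts_list (hM x).1
  have h4 : ∀ l : List Bool, l.length = c * t x.length + c →
      M.result A x l = M.result A x (l.take (c * s x.length + c)) :=
    fun l hl => result_take M A x h3 (by omega)
  have h5 : (Finset.univ.filter (fun ω : Fin (c * t x.length + c) → Bool =>
      M.result A x (List.ofFn ω) = Kind.accept)).card = 2 ^ r *
      (Finset.univ.filter (fun ω : Fin (c * s x.length + c) → Bool =>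
        M.result A x (List.ofFn ω) = Kind.accept)).card := by
    have h6 := card_eq_cnt (c * t x.length + c)
      (fun l => decide (M.result A x l = Kind.accept))
    have h7 := card_eq_cnt (c * s x.length + c)
      (fun l => decide (M.result A x l = Kind.accept))
    simp only [decide_eq_true_eq] at h6 h7
    rw [h6, h7, hr, ← cnt_take (c * s x.length + c) r
      (fun l => decide (M.result A x l = Kind.accept))]
    exact cnt_congr _ (fun l hl => by rw [h4 l (by omega)])
  refine ⟨fun ω => ?_, fun hx => ?_, fun hx => ?_⟩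
  · rw [h4 _ (List.length_ofFn)]
    exact h3 _ (by rw [List.length_take, List.length_ofFn]; omega)
  · rw [h5, hr, pow_add]
    have h6 := (hM x).2.1 hx
    calc 2 * (2 ^ (c * s x.length + c) * 2 ^ r) = 2 ^ r * (2 * 2 ^ (c * s x.length + c)) := by ring
      _ ≤ 2 ^ r * (3 * _) := Nat.mul_le_mul_left _ h6
      _ = _ := by ring
  · rw [h5, hr, pow_add]
    have h6 := (hM x).2.2 hx
    calc 3 * (2 ^ r * (Finset.univ.filter (fun ω : Fin (c * s x.length + c) → Bool =>
          M.result A x (List.ofFn ω) = Kind.accept)).card) = 2 ^ r * (3 *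
          (Finset.univ.filter (fun ω : Fin (c * s x.length + c) → Bool =>
          M.result A x (List.ofFn ω) = Kind.accept)).card) := by ring
      _ ≤ 2 ^ r * 2 ^ (c * s x.length + c) := Nat.mul_le_mul_left _ h6
      _ = _ := by ring

/-! ### the admissible function -/

/-- the admissible function belonging to `t` -/
def up (t : ℕ → ℕ) (n : ℕ) : ℕ := max (t n) (2 ^ ((Nat.log 2 n + 2) ^ 2))

theorem up_mono {t : ℕ → ℕ} (h : Monotone t) : Monotone (up t) := by
  intro a b hab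
  refine max_le_max (h hab) (Nat.pow_le_pow_right (by omega) (Nat.pow_le_pow_left ?_ 2))
  exact Nat.add_le_add_right (Nat.log_mono_right hab) 2

theorem le_up (t : ℕ → ℕ) (n : ℕ) : t n ≤ up t n := le_max_left _ _

theorem le_t {t : ℕ → ℕ} (hbig : ∀ n, n ^ Nat.log 2 n ≤ t n) {n : ℕ} (hn : 4 ≤ n) : n ≤ t n := by
  have h1 : 1 ≤ Nat.log 2 n := Nat.log_pos (by omega) (by omega)
  calc n = n ^ 1 := (pow_one n).symm
    _ ≤ n ^ Nat.log 2 n := Nat.pow_le_pow_right (by omega) h1
    _ ≤ t n := hbig n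

theorem up_le {t : ℕ → ℕ} (hmono : Monotone t) (hbig : ∀ n, n ^ Nat.log 2 n ≤ t n) {n : ℕ}
    (hn : 4 ≤ n) : up t n ≤ t (t n) := by
  have h1 := le_t hbig hn
  refine max_le (hmono h1) ?_
  set ℓ := Nat.log 2 n with hℓ
  have h2 : 2 ≤ ℓ := by
    rw [hℓ]
    exact Nat.le_log_of_pow_le (by omega) (by omega)
  have h3 : ∀ x : ℕ, 1 ≤ x → 2 ^ (Nat.log 2 x * Nat.log 2 x) ≤ t x := by
    intro x hx
    refine le_trans ?_ (hbig x)
    rw [pow_mul]
    exact Nat.pow_le_pow_left (Nat.pow_log_le_self 2 (by omega)) _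
  have h4 : ℓ * ℓ ≤ Nat.log 2 (t n) :=
    Nat.le_log_of_pow_le (by omega) (h3 n (by omega))
  refine le_trans ?_ (h3 (t n) (by omega))
  refine Nat.pow_le_pow_right (by omega) ?_
  calc (ℓ + 2) ^ 2 = (ℓ + 2) * (ℓ + 2) := by ring
    _ ≤ (ℓ * ℓ) * (ℓ * ℓ) := Nat.mul_le_mul (by nlinarith) (by nlinarith)
    _ ≤ _ := Nat.mul_le_mul h4 h4

theorem le_iter {t : ℕ → ℕ} (hbig : ∀ n, n ^ Nat.log 2 n ≤ t n) {n : ℕ} (hn : 4 ≤ n) (k : ℕ) :
    n ≤ t^[k] n := by
  induction k with
  | zero => exact le_rfl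
  | succ k ih =>
    rw [Function.iterate_succ_apply']
    exact ih.trans (le_t hbig (hn.trans ih))

theorem iter_up_le {t : ℕ → ℕ} (hmono : Monotone t) (hbig : ∀ n, n ^ Nat.log 2 n ≤ t n) {n : ℕ}
    (hn : 4 ≤ n) (k : ℕ) : (up t)^[k] n ≤ t^[2 * k] n := by
  induction k with
  | zero => exact le_rfl
  | succ k ih =>
    rw [Function.iterate_succ_apply', show 2 * (k + 1) = (2 * k + 1) + 1 by ring,
      Function.iterate_succ_apply', Function.iterate_succ_apply']
    exact (up_mono hmono ih).trans (up_le hmono hbig (hn.trans (le_iter hbig hn _)))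

theorem adm_up {t : ℕ → ℕ} (hmono : Monotone t) (hbig : ∀ n, n ^ Nat.log 2 n ≤ t n)
    (hsmall : ∀ k, ∃ n₀, ∀ n ≥ n₀, t^[k] n ≤ 2 ^ n) : Adm (up t) where
  mono := up_mono hmono
  big := fun n => le_max_right _ _
  small := fun k => by
    obtain ⟨n₀, hn₀⟩ := hsmall (2 * k)
    exact ⟨max n₀ 4, fun n hn => (iter_up_le hmono hbig ((le_max_right _ _).trans hn) k).trans
      (hn₀ n ((le_max_left _ _).trans hn))⟩

theorem iter_le_up {t : ℕ → ℕ} (hmono : Monotone t) (k n : ℕ) : t^[k] n ≤ (up t)^[k] n := by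
  induction k with
  | zero => exact le_rfl
  | succ k ih =>
    rw [Function.iterate_succ_apply', Function.iterate_succ_apply']
    exact (hmono ih).trans (le_up t _)

theorem isBd_of_le {t : ℕ → ℕ} (hmono : Monotone t) (hbig : ∀ n, n ^ Nat.log 2 n ≤ t n)
    (hsmall : ∀ k, ∃ n₀, ∀ n ≥ n₀, t^[k] n ≤ 2 ^ n) {s : ℕ → ℕ} {k : ℕ}
    (hs : ∀ n, s n ≤ (t^[k] n + n + 2) ^ k) : IsBd (up t) s := by
  have hθ := adm_up hmono hbig hsmall
  have h1 : IsBd (up t) (fun n => t^[k] n) := ⟨k, fun n => by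
    refine (iter_le_up hmono k n).trans ?_
    unfold bd
    rw [Function.iterate_succ_apply']
    exact (hθ.lt _).le⟩
  exact ((((h1.add hθ (IsBd.id hθ)).add hθ (IsBd.const hθ 2)).powConst hθ k)).mono hs

/-- **The oracle.** -/
theorem exists_collapse (t : ℕ → ℕ) (hmono : Monotone t) (hbig : ∀ n, n ^ Nat.log 2 n ≤ t n)
    (hsmall : ∀ k, ∃ n₀, ∀ n ≥ n₀, t^[k] n ≤ 2 ^ n) :
    ∃ A : List Bool → Bool, ∀ s : ℕ → ℕ, (∀ n, n ≤ s n) →
      (∃ k, ∀ n, s n ≤ (t^[k] n + n + 2) ^ k) →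
      ∀ L : Set (List Bool), BPTIME A s L ↔ BPTIME A (fun n => n) L := by
  obtain ⟨A, hA⟩ := exists_encoding (adm_up hmono hbig hsmall)
  refine ⟨A, fun s hs1 ⟨k, hk⟩ L => ⟨fun hL => ?_, fun hL => BPTIME.mono hs1 hL⟩⟩
  obtain ⟨i, n₀, h⟩ := hA s L (isBd_of_le hmono hbig hsmall hk) hL
  exact bptime_of_encoding h

end Pool.Agent.H65.BP
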