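import Pool.Agent.H65.BP.Sys

set_option autoImplicit false

/-!
# Counting influences
-/

namespace Pool.Agent.H65.BP

open DT

namespace Sys

variable {P V : Type} {S : Sys P V}

/-- `Y i` arises from `X` by changes in `Sd i` and repairs -/
def Family (S : Sys P V) {ι : Type} (X : P → Bool) (I : Finset ι) (Y : ι → P → Bool)
    (Sd : ι → Set P) : Prop :=
  (∀ i ∈ I, ∀ j ∈ I, i ≠ j → ∀ q, q ∈ Sd i → q ∉ Sd j) ∧
  ∀ i ∈ I, ∀ q, Y i q ≠ X q → q ∈ Sd i ∨
    ∃ w ∈ S.act, q ∈ S.B w ∧ S.tv (Y i) w ≠ S.tv X w ∧ q ∉ S.Des (Y i) (S.L w)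

open Classical in
theorem count_tv {ι : Type} {X : P → Bool} {I : Finset ι} {Y : ι → P → Bool} {Sd : ι → Set P}
    (hF : S.Family X I Y Sd) {d ℓ : ℕ} (hd : 1 ≤ d)
    (hdep : ∀ v ∈ S.act, S.L v < ℓ → (S.T v).depth ≤ d) (n : ℕ) :
    ∀ w ∈ S.act, S.L w = n → n < ℓ →
      (I.filter (fun i => S.tv (Y i) w ≠ S.tv X w)).card ≤ (2 * d) ^ (n + 1) := by
  obtain ⟨hdis, hdev⟩ := hF
  induction n using Nat.strong_induction_on with
  | _ n ih =>
    intro w hw hLw hn
    have h1 : I.filter (fun i => S.tv (Y i) w ≠ S.tv X w) ⊆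
        ((S.T w).path X).toFinset.biUnion (fun π => I.filter (fun i => Y i π ≠ X π ∧
          π ∈ (S.T w).path (Y i))) := by
      intro i hi
      rw [Finset.mem_filter] at hi
      obtain ⟨π, h1, h2, h3⟩ := DT.inter (fun h => hi.2 h.symm : (S.T w).eval X ≠ (S.T w).eval (Y i))
      rw [Finset.mem_biUnion]
      exact ⟨π, List.mem_toFinset.mpr h1, Finset.mem_filter.mpr ⟨hi.1, fun h => h3 h.symm, h2⟩⟩
    have h2 : ∀ π, (I.filter (fun i => Y i π ≠ X π ∧ π ∈ (S.T w).path (Y i))).card ≤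
        1 + (2 * d) ^ n := by
      intro π
      have h3 : I.filter (fun i => Y i π ≠ X π ∧ π ∈ (S.T w).path (Y i)) ⊆
          I.filter (fun i => π ∈ Sd i) ∪ I.filter (fun i => ∃ w' ∈ S.act, π ∈ S.B w' ∧
            S.L w' < n ∧ S.tv (Y i) w' ≠ S.tv X w') := by
        intro i hi
        rw [Finset.mem_filter] at hi
        rw [Finset.mem_union, Finset.mem_filter, Finset.mem_filter]
        rcases hdev i hi.1 π hi.2.1 with h | ⟨w', hw', hπ, hne, hD⟩
        · exact Or.inl ⟨hi.1, h⟩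
        · refine Or.inr ⟨hi.1, w', hw', hπ, ?_, hne⟩
          by_contra hcon
          exact hD ⟨w, hw, by omega, hi.2.2⟩
      refine (Finset.card_le_card h3).trans ((Finset.card_union_le _ _).trans (Nat.add_le_add ?_ ?_))
      · rw [Finset.card_le_one]
        intro i hi j hj
        rw [Finset.mem_filter] at hi hj
        by_contra hne
        exact hdis i hi.1 j hj.1 hne π hi.2 hj.2
      · by_cases hex : ∃ w' ∈ S.act, π ∈ S.B w' ∧ S.L w' < n
        · obtain ⟨w', hw', hπ, hlt⟩ := hex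
          have h4 : I.filter (fun i => ∃ w' ∈ S.act, π ∈ S.B w' ∧
              S.L w' < n ∧ S.tv (Y i) w' ≠ S.tv X w') ⊆
              I.filter (fun i => S.tv (Y i) w' ≠ S.tv X w') := by
            intro i hi
            rw [Finset.mem_filter] at hi ⊢
            obtain ⟨hi1, w'', _, hπ'', _, hne⟩ := hi
            rw [S.disj _ _ _ hπ'' hπ] at hne
            exact ⟨hi1, hne⟩
          refine (Finset.card_le_card h4).trans ((ih _ hlt w' hw' rfl (by omega)).trans ?_)
          exact Nat.pow_le_pow_right (by omega) (by omega)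
        · rw [Finset.card_eq_zero.mpr]
          · exact Nat.zero_le _
          · rw [Finset.filter_eq_empty_iff]
            rintro i _ ⟨w', hw', hπ, hlt, _⟩
            exact hex ⟨w', hw', hπ, hlt⟩
    have h5 : ((S.T w).path X).toFinset.card ≤ d :=
      (List.toFinset_card_le _).trans ((path_length_le _ _).trans (hdep w hw (by omega)))
    calc (I.filter (fun i => S.tv (Y i) w ≠ S.tv X w)).card
        ≤ _ := Finset.card_le_card h1
      _ ≤ ((S.T w).path X).toFinset.card * (1 + (2 * d) ^ n) :=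
          Finset.card_biUnion_le_card_mul _ _ _ (fun π _ => h2 π)
      _ ≤ d * (1 + (2 * d) ^ n) := Nat.mul_le_mul_right _ h5
      _ ≤ (2 * d) ^ (n + 1) := by
          rw [pow_succ]
          have : 1 ≤ (2 * d) ^ n := Nat.one_le_pow _ _ (by omega)
          nlinarith

open Classical in
theorem count_q {ι : Type} {X : P → Bool} {I : Finset ι} {Y : ι → P → Bool} {Sd : ι → Set P}
    (hF : S.Family X I Y Sd) {d ℓ : ℕ} (hd : 1 ≤ d)
    (hdep : ∀ v ∈ S.act, S.L v < ℓ → (S.T v).depth ≤ d) (q : P)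
    (hq : ∀ w ∈ S.act, q ∈ S.B w → S.L w < ℓ) :
    (I.filter (fun i => Y i q ≠ X q)).card ≤ 1 + (2 * d) ^ ℓ := by
  have h3 : I.filter (fun i => Y i q ≠ X q) ⊆
      I.filter (fun i => q ∈ Sd i) ∪ I.filter (fun i => ∃ w' ∈ S.act, q ∈ S.B w' ∧
        S.tv (Y i) w' ≠ S.tv X w') := by
    intro i hi
    rw [Finset.mem_filter] at hi
    rw [Finset.mem_union, Finset.mem_filter, Finset.mem_filter]
    rcases hF.2 i hi.1 q hi.2 with h | ⟨w', hw', hπ, hne, hD⟩
    · exact Or.inl ⟨hi.1, h⟩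
    · exact Or.inr ⟨hi.1, w', hw', hπ, hne⟩
  refine (Finset.card_le_card h3).trans ((Finset.card_union_le _ _).trans (Nat.add_le_add ?_ ?_))
  · rw [Finset.card_le_one]
    intro i hi j hj
    rw [Finset.mem_filter] at hi hj
    by_contra hne
    exact hF.1 i hi.1 j hj.1 hne q hi.2 hj.2
  · by_cases hex : ∃ w' ∈ S.act, q ∈ S.B w'
    · obtain ⟨w', hw', hπ⟩ := hex
      have h4 : I.filter (fun i => ∃ w' ∈ S.act, q ∈ S.B w' ∧
          S.tv (Y i) w' ≠ S.tv X w') ⊆ I.filter (fun i => S.tv (Y i) w' ≠ S.tv X w') := by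
        intro i hi
        rw [Finset.mem_filter] at hi ⊢
        obtain ⟨hi1, w'', _, hπ'', hne⟩ := hi
        rw [S.disj _ _ _ hπ'' hπ] at hne
        exact ⟨hi1, hne⟩
      have h5 := hq w' hw' hπ
      refine (Finset.card_le_card h4).trans ((count_tv hF hd hdep _ w' hw' rfl h5).trans ?_)
      exact Nat.pow_le_pow_right (by omega) (by omega)
    · rw [Finset.card_eq_zero.mpr]
      · exact Nat.zero_le _
      · rw [Finset.filter_eq_empty_iff]
        rintro i _ ⟨w', hw', hπ, _⟩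
        exact hex ⟨w', hw', hπ⟩

/-! ### randomised decision trees -/

variable {Ω : Type} [Fintype Ω]

/-- number of accepting random choices -/
def acc (M : Ω → DT P) (X : P → Bool) : ℕ :=
  (Finset.univ.filter (fun ω => (M ω).eval X = true)).card

/-- the error is bounded -/
def Valid (M : Ω → DT P) (X : P → Bool) : Prop :=
  3 * acc M X ≤ Fintype.card Ω ∨ 2 * Fintype.card Ω ≤ 3 * acc M X

/-- the answer -/
def ans (M : Ω → DT P) (X : P → Bool) : Bool := decide (2 * Fintype.card Ω ≤ 3 * acc M X)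

theorem acc_le (M : Ω → DT P) (X Y : P → Bool) :
    acc M X ≤ acc M Y +
      (Finset.univ.filter (fun ω => (M ω).eval X ≠ (M ω).eval Y)).card := by
  classical
  unfold acc
  refine (Finset.card_le_card ?_).trans (Finset.card_union_le _ _)
  intro ω hω
  rw [Finset.mem_filter] at hω
  rw [Finset.mem_union, Finset.mem_filter, Finset.mem_filter]
  by_cases h : (M ω).eval Y = true
  · exact Or.inl ⟨hω.1, h⟩
  · exact Or.inr ⟨hω.1, by rw [hω.2]; exact fun h' => h h'.symm⟩

theorem card_of_ans_ne {M : Ω → DT P} {X Y : P → Bool} (hX : Valid M X) (hY : Valid M Y)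
    (h : ans M X ≠ ans M Y) : Fintype.card Ω ≤
      3 * (Finset.univ.filter (fun ω => (M ω).eval X ≠ (M ω).eval Y)).card := by
  have h1 := acc_le M X Y
  have h2 := acc_le M Y X
  have h3 : (Finset.univ.filter (fun ω => (M ω).eval Y ≠ (M ω).eval X)).card =
      (Finset.univ.filter (fun ω => (M ω).eval X ≠ (M ω).eval Y)).card := by
    congr 1
    ext ω
    simp only [Finset.mem_filter, ne_comm]
  rw [h3] at h2
  unfold ans at h
  unfold Valid at hX hY
  by_cases hx : 2 * Fintype.card Ω ≤ 3 * acc M X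
  · by_cases hy : 2 * Fintype.card Ω ≤ 3 * acc M Y
    · simp [hx, hy] at h
    · rcases hY with hY | hY
      · omega
      · exact absurd hY hy
  · by_cases hy : 2 * Fintype.card Ω ≤ 3 * acc M Y
    · rcases hX with hX | hX
      · omega
      · exact absurd hX hx
    · simp [hx, hy] at h

open Classical in
/-- **A family in which all members change the answer is small.** -/
theorem heavy {ι : Type} {X : P → Bool} {I : Finset ι} {Y : ι → P → Bool} {Sd : ι → Set P}
    (hF : S.Family X I Y Sd) {d ℓ t : ℕ} (hd : 1 ≤ d)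
    (hdep : ∀ v ∈ S.act, S.L v < ℓ → (S.T v).depth ≤ d)
    {M : Ω → DT P} (hΩ : 0 < Fintype.card Ω) (ht : ∀ ω, (M ω).depth ≤ t)
    (hM : ∀ ω, ∀ q ∈ (M ω).path X, ∀ w ∈ S.act, q ∈ S.B w → S.L w < ℓ)
    (hX : Valid M X) (hY : ∀ i ∈ I, Valid M (Y i)) (hne : ∀ i ∈ I, ans M (Y i) ≠ ans M X) :
    I.card ≤ 3 * t * (1 + (2 * d) ^ ℓ) := by
  have h1 : ∀ i ∈ I, Fintype.card Ω ≤
      3 * (Finset.univ.filter (fun ω => (M ω).eval X ≠ (M ω).eval (Y i))).card :=
    fun i hi => card_of_ans_ne hX (hY i hi) (fun h => hne i hi h.symm)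
  have h2 : I.card * Fintype.card Ω ≤
      3 * ∑ i ∈ I, (Finset.univ.filter (fun ω => (M ω).eval X ≠ (M ω).eval (Y i))).card := by
    rw [Finset.mul_sum, ← smul_eq_mul, ← Finset.sum_const]
    exact Finset.sum_le_sum h1
  have h3 : ∑ i ∈ I, (Finset.univ.filter (fun ω => (M ω).eval X ≠ (M ω).eval (Y i))).card =
      ∑ ω : Ω, (I.filter (fun i => (M ω).eval X ≠ (M ω).eval (Y i))).card := by
    simp only [Finset.card_filter]
    exact Finset.sum_comm
  have h4 : ∀ ω : Ω, (I.filter (fun i => (M ω).eval X ≠ (M ω).eval (Y i))).card ≤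
      t * (1 + (2 * d) ^ ℓ) := by
    intro ω
    have h5 : I.filter (fun i => (M ω).eval X ≠ (M ω).eval (Y i)) ⊆
        ((M ω).path X).toFinset.biUnion (fun q => I.filter (fun i => Y i q ≠ X q)) := by
      intro i hi
      rw [Finset.mem_filter] at hi
      obtain ⟨q, h1, _, h3⟩ := DT.inter hi.2
      rw [Finset.mem_biUnion]
      exact ⟨q, List.mem_toFinset.mpr h1, Finset.mem_filter.mpr ⟨hi.1, fun h => h3 h.symm⟩⟩
    calc _ ≤ _ := Finset.card_le_card h5
      _ ≤ ((M ω).path X).toFinset.card * (1 + (2 * d) ^ ℓ) :=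
          Finset.card_biUnion_le_card_mul _ _ _ (fun q hq =>
            count_q hF hd hdep q (hM ω q (List.mem_toFinset.mp hq)))
      _ ≤ t * (1 + (2 * d) ^ ℓ) := Nat.mul_le_mul_right _
          ((List.toFinset_card_le _).trans ((path_length_le _ _).trans (ht ω)))
  rw [h3] at h2
  have h6 : ∑ ω : Ω, (I.filter (fun i => (M ω).eval X ≠ (M ω).eval (Y i))).card ≤
      Fintype.card Ω * (t * (1 + (2 * d) ^ ℓ)) := by
    refine (Finset.sum_le_sum (fun ω _ => h4 ω)).trans ?_
    rw [Finset.sum_const, smul_eq_mul, Finset.card_univ]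
  have h7 : I.card * Fintype.card Ω ≤ (3 * t * (1 + (2 * d) ^ ℓ)) * Fintype.card Ω :=
    calc _ ≤ _ := h2
      _ ≤ 3 * (Fintype.card Ω * (t * (1 + (2 * d) ^ ℓ))) := Nat.mul_le_mul_left _ h6
      _ = _ := by ring
  exact Nat.le_of_mul_le_mul_right h7 hΩ

end Sys

end Pool.Agent.H65.BP
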