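import Mathlib

set_option autoImplicit false

/-!
# Probabilistic oracle Turing machines
-/

namespace Pool.Agent.H65.BP

/-- The kinds of states of a machine. -/
inductive Kind : Type
  | work : Kind
  | query : Kind
  | accept : Kind
  | reject : Kind
  deriving DecidableEq

/-- A probabilistic oracle Turing machine with set of states `Q`, tape symbols `Fin (g + 3)` (`0` is
the blank, `1` and `2` stand for the bits 0 and 1) and `m + 2` tapes; tape `0` is the input tape and
tape `1` the oracle tape.  `next q a b r` is the next state, the symbols written and the moves of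
the heads (`0` left, `1` stay, `2` right), if the state is `q`, the symbols read are `a`, the result
of the coin toss is `b` and, in a query state, the answer of the oracle is `r`. -/
structure PTM (Q : Type) (g m : ℕ) where
  start : Q
  kind : Q → Kind
  next : Q → (Fin (m + 2) → Fin (g + 3)) → Bool → Bool →
    Q × (Fin (m + 2) → Fin (g + 3)) × (Fin (m + 2) → Fin 3)

/-- A configuration: state, positions of the heads and contents of the (one-way infinite) tapes. -/
structure Cfg (Q : Type) (g m : ℕ) where
  st : Q
  hd : Fin (m + 2) → ℕ
  tp : Fin (m + 2) → ℕ → Fin (g + 3)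

/-- the symbol for a bit -/
def bitSym (g : ℕ) (b : Bool) : Fin (g + 3) := if b then 2 else 1

/-- a tape with the string `x`, followed by blanks -/
def strTape (g : ℕ) (x : List Bool) (j : ℕ) : Fin (g + 3) :=
  match x[j]? with
  | some b => bitSym g b
  | none => 0

/-- moving a head; a left move at the left end does nothing -/
def moveHead (d : Fin 3) (h : ℕ) : ℕ := if d = 0 then h - 1 else if d = 1 then h else h + 1

open Classical in
/-- the string of bits at the beginning of a tape -/
noncomputable def tapeStr {g : ℕ} (t : ℕ → Fin (g + 3)) : List Bool :=
  if h : ∃ n, t n ≠ 1 ∧ t n ≠ 2 then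
    (List.range (Nat.find h)).map (fun j => decide (t j = 2))
  else []

namespace PTM

variable {Q : Type} {g m : ℕ}

/-- the initial configuration on input `x` -/
def init (M : PTM Q g m) (x : List Bool) : Cfg Q g m where
  st := M.start
  hd := fun _ => 0
  tp := fun i => if i = 0 then strTape g x else fun _ => 0

/-- the next configuration, if the coin shows `b` and the oracle answers `r`; accepting and rejecting
states are final -/
def stepWith (M : PTM Q g m) (b r : Bool) (c : Cfg Q g m) : Cfg Q g m :=
  if M.kind c.st = Kind.accept ∨ M.kind c.st = Kind.reject then c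
  else
    { st := (M.next c.st (fun i => c.tp i (c.hd i)) b r).1
      hd := fun i => moveHead ((M.next c.st (fun i => c.tp i (c.hd i)) b r).2.2 i) (c.hd i)
      tp := fun i => Function.update (c.tp i) (c.hd i)
        ((M.next c.st (fun i => c.tp i (c.hd i)) b r).2.1 i) }

/-- one step with oracle `A`; in a query state the oracle is asked about the string on the oracle
tape -/
noncomputable def step (M : PTM Q g m) (A : List Bool → Bool) (c : Cfg Q g m) (b : Bool) :
    Cfg Q g m :=
  M.stepWith b (if M.kind c.st = Kind.query then A (tapeStr (c.tp 1)) else false) c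

/-- the configuration reached with the coins `ω` -/
noncomputable def runFrom (M : PTM Q g m) (A : List Bool → Bool) (c : Cfg Q g m)
    (ω : List Bool) : Cfg Q g m := ω.foldl (M.step A) c

/-- the kind of the state reached on input `x` after `ω.length` steps with the coins `ω` -/
noncomputable def result (M : PTM Q g m) (A : List Bool → Bool) (x ω : List Bool) : Kind :=
  M.kind (M.runFrom A (M.init x) ω).st

end PTM

open Classical in
/-- The class `BPTIME(t)` relative to the oracle `A`: some probabilistic oracle machine halts on
each input `x` within `c t(|x|) + c` steps, for all results of the coin tosses, and accepts with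
probability at least 2/3 if `x` is in `L`, and at most 1/3 otherwise. -/
def BPTIME (A : List Bool → Bool) (t : ℕ → ℕ) (L : Set (List Bool)) : Prop :=
  ∃ (s g m : ℕ) (M : PTM (Fin (s + 1)) g m) (c : ℕ), ∀ x : List Bool,
    (∀ ω : Fin (c * t x.length + c) → Bool,
      M.result A x (List.ofFn ω) = Kind.accept ∨ M.result A x (List.ofFn ω) = Kind.reject) ∧
    (x ∈ L → 2 * 2 ^ (c * t x.length + c) ≤
      3 * (Finset.univ.filter (fun ω : Fin (c * t x.length + c) → Bool =>
        M.result A x (List.ofFn ω) = Kind.accept)).card) ∧
    (x ∉ L → 3 * (Finset.univ.filter (fun ω : Fin (c * t x.length + c) → Bool =>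
        M.result A x (List.ofFn ω) = Kind.accept)).card ≤ 2 ^ (c * t x.length + c))

/-! ### counting coin sequences -/

/-- number of coin sequences of length `n` satisfying `φ` -/
def cnt : (List Bool → Bool) → ℕ → ℕ
  | φ, 0 => if φ [] then 1 else 0
  | φ, n + 1 => cnt (fun l => φ (false :: l)) n + cnt (fun l => φ (true :: l)) n

theorem card_eq_cnt (n : ℕ) : ∀ φ : List Bool → Bool,
    (Finset.univ.filter (fun ω : Fin n → Bool => φ (List.ofFn ω) = true)).card = cnt φ n := by
  classical
  induction n with
  | zero =>
    intro φ
    rw [cnt]
    by_cases h : φ [] = true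
    · rw [if_pos h, Finset.card_eq_one]
      refine ⟨Fin.elim0, ?_⟩
      ext ω
      rw [Finset.mem_filter, Finset.mem_singleton, List.ofFn_zero]
      exact ⟨fun _ => Subsingleton.elim _ _, fun _ => ⟨Finset.mem_univ _, h⟩⟩
    · rw [if_neg h, Finset.card_eq_zero, Finset.filter_eq_empty_iff]
      intro ω _
      rw [List.ofFn_zero]
      exact h
  | succ n ih =>
    intro φ
    rw [cnt, ← ih, ← ih]
    have h1 : (Finset.univ.filter (fun ω : Fin (n + 1) → Bool => φ (List.ofFn ω) = true)) =
        ((Finset.univ.filter (fun ω : Fin n → Bool => φ (false :: List.ofFn ω) = true)).image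
          (fun ω => (Fin.cons false ω : Fin (n + 1) → Bool))) ∪
        ((Finset.univ.filter (fun ω : Fin n → Bool => φ (true :: List.ofFn ω) = true)).image
          (fun ω => (Fin.cons true ω : Fin (n + 1) → Bool))) := by
      ext ω
      simp only [Finset.mem_filter, Finset.mem_univ, true_and, Finset.mem_union,
        Finset.mem_image]
      constructor
      · intro h
        rw [List.ofFn_succ] at h
        cases hb : ω 0 with
        | false =>
          left
          refine ⟨fun i => ω i.succ, ?_, ?_⟩
          · rw [hb] at h; exact h
          · funext j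
            refine Fin.cases ?_ (fun i => ?_) j
            · simp [hb]
            · simp
        | true =>
          right
          refine ⟨fun i => ω i.succ, ?_, ?_⟩
          · rw [hb] at h; exact h
          · funext j
            refine Fin.cases ?_ (fun i => ?_) j
            · simp [hb]
            · simp
      · rintro (⟨ω', h, rfl⟩ | ⟨ω', h, rfl⟩)
        · rw [List.ofFn_succ]
          simpa using h
        · rw [List.ofFn_succ]
          simpa using h
    rw [h1, Finset.card_union_of_disjoint, Finset.card_image_of_injective,
      Finset.card_image_of_injective]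
    · intro a b hab
      exact (Fin.cons_injective2 hab).2
    · intro a b hab
      exact (Fin.cons_injective2 hab).2
    · rw [Finset.disjoint_left]
      intro ω h h'
      rw [Finset.mem_image] at h h'
      obtain ⟨a, _, rfl⟩ := h
      obtain ⟨b, _, h⟩ := h'
      have := (Fin.cons_injective2 h).1
      cases this

theorem cnt_congr {φ ψ : List Bool → Bool} (n : ℕ) (h : ∀ l : List Bool, l.length = n → φ l = ψ l) :
    cnt φ n = cnt ψ n := by
  induction n generalizing φ ψ with
  | zero => rw [cnt, cnt, h [] rfl]
  | succ n ih =>
    rw [cnt, cnt, ih (fun l hl => h _ (by rw [List.length_cons, hl])),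
      ih (fun l hl => h _ (by rw [List.length_cons, hl]))]

theorem cnt_const (b : Bool) (n : ℕ) : cnt (fun _ => b) n = if b then 2 ^ n else 0 := by
  induction n with
  | zero => rw [cnt]; simp
  | succ n ih =>
    rw [cnt, ih]
    cases b
    · simp
    · simp only [if_true, pow_succ]; ring

/-- only the last coins matter -/
theorem cnt_drop (φ : List Bool → Bool) (k n : ℕ) :
    cnt (fun l => φ (l.drop k)) (k + n) = 2 ^ k * cnt φ n := by
  induction k with
  | zero => simp
  | succ k ih =>
    rw [show k + 1 + n = (k + n) + 1 by ring, cnt]
    simp only [List.drop_succ_cons, ih]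
    rw [pow_succ]; ring

/-- only the first coins matter -/
theorem cnt_take (n r : ℕ) : ∀ φ : List Bool → Bool,
    cnt (fun l => φ (l.take n)) (n + r) = 2 ^ r * cnt φ n := by
  induction n with
  | zero =>
    intro φ
    simp only [List.take_zero, zero_add]
    rw [cnt_const, cnt]
    split_ifs <;> simp
  | succ n ih =>
    intro φ
    rw [show n + 1 + r = (n + r) + 1 by ring, cnt, cnt]
    simp only [List.take_succ_cons]
    rw [ih (fun l => φ (false :: l)), ih (fun l => φ (true :: l))]
    ring

end Pool.Agent.H65.BP
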