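import Pool.Agent.H65.BP.Stage
import Pool.Agent.H65.BP.TM

set_option autoImplicit false

/-!
# Machines as decision trees
-/

namespace Pool.Agent.H65.BP

open DT

section

variable {Q : Type} {g m : ℕ} {θ : ℕ → ℕ}

/-- the run with fixed coins as a decision tree -/
noncomputable def treeM (M : PTM Q g m) : List Bool → Cfg Q g m → DT (List Bool)
  | [], c => DT.out (decide (M.kind c.st = Kind.accept))
  | b :: ω, c =>
    if M.kind c.st = Kind.query then
      DT.ask (tapeStr (c.tp 1)) (treeM M ω (M.stepWith b false c)) (treeM M ω (M.stepWith b true c))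
    else treeM M ω (M.stepWith b false c)

theorem eval_treeM (M : PTM Q g m) (A : List Bool → Bool) (ω : List Bool) : ∀ c : Cfg Q g m,
    (treeM M ω c).eval A = decide (M.kind (M.runFrom A c ω).st = Kind.accept) := by
  induction ω with
  | nil => intro c; rfl
  | cons b ω ih =>
    intro c
    have h1 : M.runFrom A c (b :: ω) = M.runFrom A (M.step A c b) ω := rfl
    rw [treeM, h1]
    unfold PTM.step
    split_ifs with hq
    · rw [DT.eval]
      split_ifs with hA
      · rw [hA]; exact ih _
      · rw [Bool.not_eq_true] at hA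
        rw [hA]; exact ih _
    · exact ih _

theorem depth_treeM (M : PTM Q g m) (ω : List Bool) : ∀ c : Cfg Q g m,
    (treeM M ω c).depth ≤ ω.length := by
  induction ω with
  | nil => intro c; simp [treeM, DT.depth]
  | cons b ω ih =>
    intro c
    rw [treeM, List.length_cons]
    split_ifs
    · rw [DT.depth]
      have h1 := ih (M.stepWith b false c)
      have h2 := ih (M.stepWith b true c)
      omega
    · exact (ih _).trans (by omega)

/-- the used part of the oracle tape is short -/
def Short (j : ℕ) (c : Cfg Q g m) : Prop := c.hd 1 ≤ j ∧ ∀ n, j ≤ n → c.tp 1 n = 0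

theorem Short.step {M : PTM Q g m} {b r : Bool} {j : ℕ} {c : Cfg Q g m} (h : Short j c) :
    Short (j + 1) (M.stepWith b r c) := by
  unfold PTM.stepWith
  split_ifs
  · exact ⟨h.1.trans (by omega), fun n hn => h.2 n (by omega)⟩
  · refine ⟨?_, fun n hn => ?_⟩
    · have := h.1
      unfold moveHead
      simp only
      split_ifs <;> omega
    · have h1 := h.1
      simp only
      rw [Function.update_of_ne (by omega)]
      exact h.2 n (by omega)

theorem blank_ne_one (g : ℕ) : (0 : Fin (g + 3)) ≠ 1 := by
  intro h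
  have := congrArg Fin.val h
  simp at this

theorem blank_ne_two (g : ℕ) : (0 : Fin (g + 3)) ≠ 2 := by
  intro h
  have h1 : ((2 : Fin (g + 3)) : ℕ) = 2 := by
    show 2 % (g + 3) = 2
    exact Nat.mod_eq_of_lt (by omega)
  rw [← h] at h1
  simp at h1

theorem tapeStr_length {t : ℕ → Fin (g + 3)} {j : ℕ} (h : t j = 0) :
    (tapeStr t).length ≤ j := by
  classical
  have hj : t j ≠ 1 ∧ t j ≠ 2 := by
    rw [h]
    exact ⟨blank_ne_one g, blank_ne_two g⟩
  have hex : ∃ n, t n ≠ 1 ∧ t n ≠ 2 := ⟨j, hj⟩
  unfold tapeStr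
  rw [dif_pos hex, List.length_map, List.length_range]
  exact Nat.find_min' hex hj

theorem len_treeM (M : PTM Q g m) (X : List Bool → Bool) (ω : List Bool) :
    ∀ (j : ℕ) (c : Cfg Q g m), Short j c → ∀ q ∈ (treeM M ω c).path X, q.length ≤ j + ω.length := by
  induction ω with
  | nil => intro j c _ q hq; simp [treeM, DT.path] at hq
  | cons b ω ih =>
    intro j c hc q hq
    rw [treeM] at hq
    rw [List.length_cons]
    split_ifs at hq with hk
    · rw [DT.path, List.mem_cons] at hq
      rcases hq with rfl | hq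
      · exact (tapeStr_length (hc.2 j le_rfl)).trans (by omega)
      · split_ifs at hq
        · exact (ih _ _ hc.step q hq).trans (by omega)
        · exact (ih _ _ hc.step q hq).trans (by omega)
    · exact (ih _ _ hc.step q hq).trans (by omega)

theorem short_init (M : PTM Q g m) (x : List Bool) : Short 0 (M.init x) := by
  refine ⟨le_rfl, fun n _ => ?_⟩
  unfold PTM.init
  simp

/-- the clocked machine -/
noncomputable def PM.of (θ : ℕ → ℕ) (M : PTM Q g m) (κ : ℕ) : PM θ where
  κ := κ
  run := fun z ω => treeM M (List.ofFn ω) (M.init z)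
  depth_le := fun z ω => (depth_treeM M _ _).trans (by rw [List.length_ofFn])
  len_le := fun z ω X q hq => by
    have := len_treeM M X _ 0 _ (short_init M z) q hq
    rwa [List.length_ofFn, zero_add] at this

theorem acc_of (M : PTM Q g m) (κ : ℕ) (A : List Bool → Bool) (z : List Bool) :
    Sys.acc ((PM.of θ M κ).run z) A =
      cnt (fun l => decide (M.result A z l = Kind.accept)) (tauF θ κ z.length) := by
  rw [← card_eq_cnt]
  unfold Sys.acc
  refine congrArg Finset.card (Finset.filter_congr (fun ω _ => ?_))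
  have h1 : ((PM.of θ M κ).run z ω).eval A =
      decide (M.result A z (List.ofFn ω) = Kind.accept) := eval_treeM M A _ _
  rw [h1]
  exact Iff.rfl

theorem runFrom_append (M : PTM Q g m) (A : List Bool → Bool) (c : Cfg Q g m) (l l' : List Bool) :
    M.runFrom A c (l ++ l') = M.runFrom A (M.runFrom A c l) l' := List.foldl_append

theorem runFrom_halted (M : PTM Q g m) (A : List Bool → Bool) (c : Cfg Q g m)
    (h : M.kind c.st = Kind.accept ∨ M.kind c.st = Kind.reject) (l : List Bool) :
    M.runFrom A c l = c := by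
  induction l with
  | nil => rfl
  | cons b l ih =>
    have h1 : M.runFrom A c (b :: l) = M.runFrom A (M.step A c b) l := rfl
    have h2 : M.step A c b = c := by
      unfold PTM.step PTM.stepWith
      rw [if_pos h]
    rw [h1, h2, ih]

theorem result_take (M : PTM Q g m) (A : List Bool → Bool) (z : List Bool) {n : ℕ}
    (h : ∀ l : List Bool, l.length = n → M.result A z l = Kind.accept ∨
      M.result A z l = Kind.reject) {l : List Bool} (hl : n ≤ l.length) :
    M.result A z l = M.result A z (l.take n) := by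
  have h1 := h (l.take n) (by rw [List.length_take]; omega)
  unfold PTM.result at h1 ⊢
  conv_lhs => rw [← List.take_append_drop n l]
  rw [runFrom_append, runFrom_halted M A _ h1]

end

instance : Finite Kind := by
  refine Finite.of_surjective (fun i : Fin 4 =>
    if i = 0 then Kind.work else if i = 1 then Kind.query else if i = 2 then Kind.accept
    else Kind.reject) ?_
  intro k
  cases k with
  | work => exact ⟨0, by simp⟩
  | query => exact ⟨1, by simp⟩
  | accept => exact ⟨2, by simp⟩
  | reject => exact ⟨3, by simp⟩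

instance (s g m : ℕ) : Finite (PTM (Fin (s + 1)) g m) := by
  refine Finite.of_injective (fun M => (M.start, M.kind, M.next)) ?_
  rintro ⟨a, b, c⟩ ⟨a', b', c'⟩ h
  simp only [Prod.mk.injEq] at h
  obtain ⟨rfl, rfl, rfl⟩ := h
  rfl

/-- all clocked machines -/
abbrev AllM : Type := Σ s : ℕ, Σ g : ℕ, Σ m : ℕ, PTM (Fin (s + 1)) g m × ℕ

open Classical in
/-- **The oracle encodes all languages decidable in probabilistic quasipolynomial time.** -/
theorem exists_encoding {θ : ℕ → ℕ} (hθ : Adm θ) :
    ∃ A : List Bool → Bool, ∀ (t : ℕ → ℕ) (L : Set (List Bool)), IsBd θ t →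
    BPTIME A t L → ∃ k n, ∀ z : List Bool, n ≤ z.length →
      4 * ((blk (k, z)).filter (fun q => A q ≠ decide (z ∈ L))).card ≤ (blk (k, z)).card := by
  have hne : Nonempty AllM := ⟨⟨0, 0, 0, ⟨0, fun _ => Kind.accept, fun q a _ _ =>
    (q, a, fun _ => 0)⟩, 0⟩⟩
  obtain ⟨e, he⟩ := exists_surjective_nat AllM
  obtain ⟨A, hA⟩ := exists_oracle hθ (fun k => PM.of θ (e k).2.2.2.1 (e k).2.2.2.2)
  refine ⟨A, fun t L ht hL => ?_⟩
  obtain ⟨s, g, m, M, c, hM⟩ := hL
  obtain ⟨κ, hκ⟩ := ((IsBd.const hθ c).mul hθ ht).add hθ (IsBd.const hθ c)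
  obtain ⟨k, hk⟩ := he ⟨s, g, m, M, κ⟩
  have h1 : Req (PM.of θ M κ) k A := by
    have := hA k
    rw [hk] at this
    exact this
  have hacc : ∀ z : List Bool, ∃ r, tauF θ κ z.length = c * t z.length + c + r ∧
      Sys.acc ((PM.of θ M κ).run z) A = 2 ^ r *
        (Finset.univ.filter (fun ω : Fin (c * t z.length + c) → Bool =>
          M.result A z (List.ofFn ω) = Kind.accept)).card := by
    intro z
    have h2 : c * t z.length + c ≤ tauF θ κ z.length := hκ z.length
    obtain ⟨r, hr⟩ := Nat.exists_eq_add_of_le h2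
    refine ⟨r, hr, ?_⟩
    rw [acc_of, hr]
    have h3 : ∀ l : List Bool, l.length = c * t z.length + c →
        M.result A z l = Kind.accept ∨ M.result A z l = Kind.reject := by
      intro l hl
      have h4 := (hM z).1 (fun i => l.get (i.cast hl.symm))
      have h5 : List.ofFn (fun i : Fin (c * t z.length + c) => l.get (i.cast hl.symm)) = l := by
        refine List.ext_getElem (by rw [List.length_ofFn, hl]) (fun i h1 h2 => ?_)
        simp
      rwa [h5] at h4
    have h6 : cnt (fun l => decide (M.result A z l = Kind.accept)) (c * t z.length + c + r) =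
        2 ^ r * cnt (fun l => decide (M.result A z l = Kind.accept)) (c * t z.length + c) := by
      rw [← cnt_take (c * t z.length + c) r (fun l => decide (M.result A z l = Kind.accept))]
      exact cnt_congr _ (fun l hl => by rw [result_take M A z h3 (by omega)])
    rw [h6, ← card_eq_cnt]
    simp only [decide_eq_true_eq]
  have hval : ∀ z : List Bool, Sys.Valid ((PM.of θ M κ).run z) A ∧
      Sys.ans ((PM.of θ M κ).run z) A = decide (z ∈ L) := by
    intro z
    obtain ⟨r, hr1, hr2⟩ := hacc z
    have hΩ : Fintype.card (Fin (tauF θ κ z.length) → Bool) = 2 ^ r * 2 ^ (c * t z.length + c) := by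
      rw [Fintype.card_fun, Fintype.card_bool, Fintype.card_fin, hr1, ← pow_add]
      congr 1
      ring
    have hΩ' : Fintype.card (Fin (tauF θ (PM.of θ M κ).κ z.length) → Bool) =
        2 ^ r * 2 ^ (c * t z.length + c) := hΩ
    have hr : 0 < 2 ^ r := by positivity
    unfold Sys.Valid Sys.ans
    rw [hΩ', hr2]
    set a := (Finset.univ.filter (fun ω : Fin (c * t z.length + c) → Bool =>
          M.result A z (List.ofFn ω) = Kind.accept)).card with ha
    set T := 2 ^ (c * t z.length + c) with hT
    have hTpos : 0 < T := by rw [hT]; positivity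
    by_cases hz : z ∈ L
    · have h3 : 2 * T ≤ 3 * a := (hM z).2.1 hz
      have h4 : 2 * (2 ^ r * T) ≤ 3 * (2 ^ r * a) := by
        calc 2 * (2 ^ r * T) = 2 ^ r * (2 * T) := by ring
          _ ≤ 2 ^ r * (3 * a) := Nat.mul_le_mul_left _ h3
          _ = 3 * (2 ^ r * a) := by ring
      exact ⟨Or.inr h4, by simp [h4, hz]⟩
    · have h3 : 3 * a ≤ T := (hM z).2.2 hz
      have h4 : 3 * (2 ^ r * a) ≤ 2 ^ r * T := by
        calc 3 * (2 ^ r * a) = 2 ^ r * (3 * a) := by ring
          _ ≤ 2 ^ r * T := Nat.mul_le_mul_left _ h3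
      refine ⟨Or.inl h4, ?_⟩
      have h5 : ¬ (2 * (2 ^ r * T) ≤ 3 * (2 ^ r * a)) := by
        have : 0 < 2 ^ r * T := Nat.mul_pos hr hTpos
        omega
      simp [h5, hz]
  rcases h1 with ⟨z, hz⟩ | ⟨n, hn⟩
  · exact absurd (hval z).1 hz
  · refine ⟨k, n, fun z hz => ?_⟩
    have h2 := hn z hz
    rw [(hval z).2] at h2
    exact h2

end Pool.Agent.H65.BP
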