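import Pool.Agent.H65.BP.Code

set_option autoImplicit false

/-!
# Bounds by iterates of a function
-/

namespace Pool.Agent.H65.BP

/-- admissible functions -/
structure Adm (θ : ℕ → ℕ) : Prop where
  mono : Monotone θ
  big : ∀ n, 2 ^ ((Nat.log 2 n + 2) ^ 2) ≤ θ n
  small : ∀ k, ∃ n₀, ∀ n ≥ n₀, θ^[k] n ≤ 2 ^ n

/-- iterates -/
def bd (θ : ℕ → ℕ) (c n : ℕ) : ℕ := θ^[c + 1] n

variable {θ : ℕ → ℕ}

theorem bd_mono (h : Adm θ) (c : ℕ) : Monotone (bd θ c) := h.mono.iterate _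

theorem Adm.pow_log (h : Adm θ) (x : ℕ) : x ^ (Nat.log 2 x + 1) ≤ θ x := by
  refine le_trans ?_ (h.big x)
  have h1 : x ≤ 2 ^ (Nat.log 2 x + 1) := (Nat.lt_pow_succ_log_self (by omega) x).le
  calc x ^ (Nat.log 2 x + 1) ≤ (2 ^ (Nat.log 2 x + 1)) ^ (Nat.log 2 x + 1) :=
        Nat.pow_le_pow_left h1 _
    _ = 2 ^ ((Nat.log 2 x + 1) * (Nat.log 2 x + 1)) := by rw [← pow_mul]
    _ ≤ 2 ^ ((Nat.log 2 x + 2) ^ 2) := Nat.pow_le_pow_right (by omega) (by nlinarith)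

theorem Adm.sq (h : Adm θ) (x : ℕ) : x * x ≤ θ x := by
  refine le_trans ?_ (h.big x)
  have h1 : x ≤ 2 ^ (Nat.log 2 x + 1) := (Nat.lt_pow_succ_log_self (by omega) x).le
  calc x * x ≤ 2 ^ (Nat.log 2 x + 1) * 2 ^ (Nat.log 2 x + 1) := Nat.mul_le_mul h1 h1
    _ = 2 ^ (Nat.log 2 x + 1 + (Nat.log 2 x + 1)) := by rw [← pow_add]
    _ ≤ 2 ^ ((Nat.log 2 x + 2) ^ 2) := Nat.pow_le_pow_right (by omega) (by nlinarith)

theorem Adm.lt (h : Adm θ) (x : ℕ) : x < θ x := by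
  refine lt_of_lt_of_le ?_ (h.big x)
  refine lt_of_lt_of_le (Nat.lt_pow_succ_log_self (b := 2) (by omega) x) ?_
  exact Nat.pow_le_pow_right (by omega) (by nlinarith)

theorem Adm.ge (h : Adm θ) (x : ℕ) : 16 ≤ θ x := by
  refine le_trans ?_ (h.big x)
  have h4 : 4 ≤ (Nat.log 2 x + 2) ^ 2 := by
    calc 4 = 2 ^ 2 := by norm_num
      _ ≤ (Nat.log 2 x + 2) ^ 2 := Nat.pow_le_pow_left (by omega) 2
  calc 16 = 2 ^ 4 := by norm_num
    _ ≤ 2 ^ ((Nat.log 2 x + 2) ^ 2) := Nat.pow_le_pow_right (by omega) h4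

theorem Adm.two_mul (h : Adm θ) (x : ℕ) : 2 * x ≤ θ x := by
  rcases Nat.lt_or_ge x 2 with hx | hx
  · have := h.ge x
    omega
  · exact (Nat.mul_le_mul_right x hx).trans (h.sq x)

theorem bd_succ (c n : ℕ) : bd θ (c + 1) n = θ (bd θ c n) := Function.iterate_succ_apply' _ _ _

theorem bd_ge (h : Adm θ) (c n : ℕ) : 16 ≤ bd θ c n := by
  cases c with
  | zero => exact h.ge n
  | succ c => rw [bd_succ]; exact h.ge _

theorem one_le_bd (h : Adm θ) (c n : ℕ) : 1 ≤ bd θ c n := by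
  have := bd_ge h c n
  omega

theorem bd_le {c d : ℕ} (h : Adm θ) (hcd : c ≤ d) (n : ℕ) : bd θ c n ≤ bd θ d n := by
  induction d with
  | zero => rw [Nat.le_zero.mp hcd]
  | succ d ih =>
    rcases Nat.lt_or_ge c (d + 1) with h1 | h1
    · exact (ih (by omega)).trans (by rw [bd_succ]; exact (h.lt _).le)
    · rw [show c = d + 1 by omega]

theorem bd_comp (c d n : ℕ) : bd θ c (bd θ d n) = bd θ (c + d + 1) n := by
  unfold bd
  rw [← Function.iterate_add_apply]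
  congr 1
  ring

theorem self_le_bd (h : Adm θ) (c n : ℕ) : n ≤ bd θ c n := by
  refine le_trans ?_ (bd_le h (Nat.zero_le c) n)
  exact (h.lt n).le

theorem bd_large (h : Adm θ) (c n : ℕ) : c ≤ bd θ c n := by
  induction c with
  | zero => exact Nat.zero_le _
  | succ c ih => rw [bd_succ]; exact lt_of_le_of_lt ih (h.lt _)

theorem bd_small (h : Adm θ) (c D : ℕ) : ∃ n₀, ∀ n ≥ n₀, D * (bd θ c (2 * n) + 1) ≤ 2 ^ n := by
  obtain ⟨n₀, hn₀⟩ := h.small (c + 1 + 1 + 1 + 1)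
  refine ⟨max n₀ D, fun n hn => ?_⟩
  have h1 := hn₀ n ((le_max_left _ _).trans hn)
  have h2 : D ≤ n := (le_max_right _ _).trans hn
  have h3 : bd θ c (2 * n) ≤ bd θ (c + 1) n := by
    calc bd θ c (2 * n) ≤ bd θ c (θ n) := bd_mono h c (h.two_mul n)
      _ = bd θ (c + 1) n := bd_comp (θ := θ) c 0 n
  set y := bd θ (c + 1) n with hy
  have h4 : y + 1 ≤ θ y := h.lt y
  have h5 : D ≤ θ y := (h2.trans (self_le_bd h (c + 1) n)).trans (h.lt y).le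
  calc D * (bd θ c (2 * n) + 1) ≤ θ y * θ y := Nat.mul_le_mul h5 (by omega)
    _ ≤ θ (θ y) := h.sq _
    _ = bd θ (c + 1 + 1 + 1) n := by rw [bd_succ, bd_succ]
    _ ≤ 2 ^ n := h1

/-- slack -/
def slk (k n : ℕ) : ℕ := 2 ^ (3 * n - 2 * (k + 1))

theorem slk_anti (k n : ℕ) : slk (k + 1) n ≤ slk k n :=
  Nat.pow_le_pow_right (by omega) (by omega)

/-- numerical condition -/
def NC (θ : ℕ → ℕ) (k c n : ℕ) : Prop :=
  64 * (k + 1) * 2 ^ (2 * n) * (bd θ c (2 * n) + 1) ≤ slk (k + 1) n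

theorem NC.le {k c n : ℕ} (h : NC θ k c n) : 2 * (k + 2) < 3 * n := by
  by_contra hcon
  unfold NC slk at h
  rw [show 3 * n - 2 * (k + 1 + 1) = 0 by omega, pow_zero] at h
  have h2 : 1 ≤ 2 ^ (2 * n) := Nat.one_le_pow _ _ (by omega)
  have h3 : 64 * (k + 1) * 2 ^ (2 * n) * (bd θ c (2 * n) + 1) ≥ 64 * 1 * 1 * 1 :=
    Nat.mul_le_mul (Nat.mul_le_mul (Nat.mul_le_mul_left _ (by omega)) h2) (by omega)
  omega

theorem NC.slk {k c n : ℕ} (h : NC θ k c n) : 4 * slk (k + 1) n = slk k n := by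
  have := h.le
  unfold BP.slk
  rw [show 3 * n - 2 * (k + 1) = 3 * n - 2 * (k + 1 + 1) + 2 by omega, pow_add]
  ring

theorem NC_eventually (hθ : Adm θ) (k c : ℕ) : ∃ n₀, ∀ n ≥ n₀, NC θ k c n := by
  obtain ⟨n₀, hn₀⟩ := bd_small hθ c (64 * (k + 1) * 2 ^ (2 * (k + 2)))
  refine ⟨n₀, fun n hn => ?_⟩
  have h1 := hn₀ n hn
  have h2 : 2 ^ (2 * (k + 2)) ≤ 2 ^ n := by
    refine le_trans ?_ h1
    calc 2 ^ (2 * (k + 2)) = 1 * 1 * 2 ^ (2 * (k + 2)) * 1 := by ring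
      _ ≤ 64 * (k + 1) * 2 ^ (2 * (k + 2)) * (bd θ c (2 * n) + 1) :=
        Nat.mul_le_mul (Nat.mul_le_mul_right _ (Nat.mul_le_mul (by omega) (by omega))) (by omega)
  have h3 : 2 * (k + 2) ≤ n := (Nat.pow_le_pow_iff_right (by omega)).mp h2
  unfold NC slk
  have h4 : 2 ^ (3 * n - 2 * (k + 1 + 1)) * 2 ^ (2 * (k + 2)) = 2 ^ (2 * n) * 2 ^ n := by
    rw [← pow_add, ← pow_add]
    congr 1
    omega
  have h5 : 64 * (k + 1) * 2 ^ (2 * n) * (bd θ c (2 * n) + 1) * 2 ^ (2 * (k + 2)) ≤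
      2 ^ (3 * n - 2 * (k + 1 + 1)) * 2 ^ (2 * (k + 2)) := by
    rw [h4]
    calc _ = 2 ^ (2 * n) * (64 * (k + 1) * 2 ^ (2 * (k + 2)) * (bd θ c (2 * n) + 1)) := by ring
      _ ≤ 2 ^ (2 * n) * 2 ^ n := Nat.mul_le_mul_left _ h1
  exact Nat.le_of_mul_le_mul_right h5 (by positivity)

theorem freeze_eventually (hθ : Adm θ) (c F k : ℕ) :
    ∃ n₀, ∀ N ≥ n₀, F + k * 2 ^ N * bd θ c N ≤ 2 ^ (2 * N) := by
  obtain ⟨n₀, hn₀⟩ := bd_small hθ c (F + k)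
  refine ⟨n₀, fun N hN => ?_⟩
  have h1 := hn₀ N hN
  have h2 : bd θ c N ≤ bd θ c (2 * N) := bd_mono hθ c (by omega)
  have h3 : 1 ≤ 2 ^ N := Nat.one_le_pow _ _ (by omega)
  calc F + k * 2 ^ N * bd θ c N ≤ 2 ^ N * F + 2 ^ N * (k * bd θ c (2 * N)) := by
        refine Nat.add_le_add ?_ ?_
        · nlinarith
        · calc k * 2 ^ N * bd θ c N = 2 ^ N * (k * bd θ c N) := by ring
            _ ≤ _ := Nat.mul_le_mul_left _ (Nat.mul_le_mul_left _ h2)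
    _ ≤ 2 ^ N * ((F + k) * (bd θ c (2 * N) + 1)) := by
        rw [← Nat.mul_add]
        refine Nat.mul_le_mul_left _ ?_
        nlinarith
    _ ≤ 2 ^ N * 2 ^ N := Nat.mul_le_mul_left _ h1
    _ = 2 ^ (2 * N) := by rw [← pow_add]; congr 1; ring

/-! ### closure properties -/

/-- bounded by an iterate -/
def IsBd (θ f : ℕ → ℕ) : Prop := ∃ c, ∀ n, f n ≤ bd θ c n

theorem IsBd.mono {f g : ℕ → ℕ} (hg : IsBd θ g) (h : ∀ n, f n ≤ g n) : IsBd θ f := by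
  obtain ⟨c, hc⟩ := hg
  exact ⟨c, fun n => (h n).trans (hc n)⟩

theorem IsBd.mul (hθ : Adm θ) {f g : ℕ → ℕ} (hf : IsBd θ f) (hg : IsBd θ g) :
    IsBd θ (fun n => f n * g n) := by
  obtain ⟨c, hc⟩ := hf
  obtain ⟨d, hd⟩ := hg
  refine ⟨max c d + 1, fun n => ?_⟩
  rw [bd_succ]
  exact (Nat.mul_le_mul ((hc n).trans (bd_le hθ (le_max_left c d) n))
    ((hd n).trans (bd_le hθ (le_max_right c d) n))).trans (hθ.sq _)

theorem IsBd.add (hθ : Adm θ) {f g : ℕ → ℕ} (hf : IsBd θ f) (hg : IsBd θ g) :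
    IsBd θ (fun n => f n + g n) := by
  obtain ⟨c, hc⟩ := hf
  obtain ⟨d, hd⟩ := hg
  refine ⟨max c d + 1, fun n => ?_⟩
  rw [bd_succ]
  have h1 := (hc n).trans (bd_le hθ (le_max_left c d) n)
  have h2 := (hd n).trans (bd_le hθ (le_max_right c d) n)
  show f n + g n ≤ _
  exact le_trans (by omega) (hθ.two_mul _)

theorem IsBd.const (hθ : Adm θ) (C : ℕ) : IsBd θ (fun _ => C) := ⟨C, fun n => bd_large hθ C n⟩

theorem IsBd.id (hθ : Adm θ) : IsBd θ (fun n => n) := ⟨0, fun n => (hθ.lt n).le⟩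

theorem IsBd.self (c : ℕ) : IsBd θ (fun n => bd θ c n) := ⟨c, fun _ => le_rfl⟩

theorem IsBd.comp (hθ : Adm θ) {f : ℕ → ℕ} (hf : IsBd θ f) (c : ℕ) :
    IsBd θ (fun n => bd θ c (f n)) := by
  obtain ⟨d, hd⟩ := hf
  refine ⟨c + d + 1, fun n => ?_⟩
  rw [← bd_comp]
  exact bd_mono hθ c (hd n)

theorem IsBd.powLog (hθ : Adm θ) {f g : ℕ → ℕ} (hf : IsBd θ f) (hg : IsBd θ g) :
    IsBd θ (fun n => f n ^ (Nat.log 2 (g n) + 1)) := by
  obtain ⟨c, hc⟩ := hf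
  obtain ⟨d, hd⟩ := hg
  refine ⟨max c d + 1, fun n => ?_⟩
  rw [bd_succ]
  refine le_trans ?_ (hθ.pow_log _)
  have h1 := (hc n).trans (bd_le hθ (le_max_left c d) n)
  have h2 := (hd n).trans (bd_le hθ (le_max_right c d) n)
  exact (Nat.pow_le_pow_left h1 _).trans (Nat.pow_le_pow_right (one_le_bd hθ _ _)
    (Nat.add_le_add_right (Nat.log_mono_right h2) 1))

theorem IsBd.powConst (hθ : Adm θ) {f : ℕ → ℕ} (hf : IsBd θ f) (m : ℕ) :
    IsBd θ (fun n => f n ^ m) := by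
  induction m with
  | zero => exact (IsBd.const hθ 1).mono (fun n => by simp)
  | succ m ih => exact (ih.mul hθ hf).mono (fun n => by rw [pow_succ])

/-- the time bound -/
def tauF (θ : ℕ → ℕ) (κ n : ℕ) : ℕ := bd θ κ n

/-- bound for the depth -/
def dF (θ : ℕ → ℕ) (c κ n : ℕ) : ℕ := bd θ c (2 * tauF θ κ n)

/-- number of layers -/
def ellF (θ : ℕ → ℕ) (κ n : ℕ) : ℕ := Nat.log 2 (tauF θ κ n) + 1

/-- bound for the number of heavy positions -/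
def HF (θ : ℕ → ℕ) (c κ n : ℕ) : ℕ := 3 * tauF θ κ n * (1 + (2 * dF θ c κ n) ^ ellF θ κ n)

/-- bound used for small blocks -/
def QF (θ : ℕ → ℕ) (c κ n : ℕ) : ℕ := 2 * (HF θ c κ n * HF θ c κ n) + HF θ c κ n + 2

/-- depth of the new trees -/
def DF (θ : ℕ → ℕ) (k c κ n : ℕ) : ℕ :=
  k * QF θ c κ n ^ 2 * (QF θ c κ n ^ 6 + bd θ c (QF θ c κ n ^ 2)) +
    HF θ c κ n * HF θ c κ n * (HF θ c κ n * HF θ c κ n)

theorem IsBd_HF (hθ : Adm θ) (c κ : ℕ) : IsBd θ (HF θ c κ) := by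
  have h1 : IsBd θ (tauF θ κ) := IsBd.self κ
  have h2 : IsBd θ (dF θ c κ) := ((IsBd.const hθ 2).mul hθ h1).comp hθ c
  exact ((IsBd.const hθ 3).mul hθ h1).mul hθ ((IsBd.const hθ 1).add hθ
    (((IsBd.const hθ 2).mul hθ h2).powLog hθ h1))

theorem IsBd_DF (hθ : Adm θ) (k c κ : ℕ) : IsBd θ (DF θ k c κ) := by
  have h1 := IsBd_HF hθ c κ
  have h2 : IsBd θ (QF θ c κ) :=
    (((IsBd.const hθ 2).mul hθ (h1.mul hθ h1)).add hθ h1).add hθ (IsBd.const hθ 2)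
  exact (((IsBd.const hθ k).mul hθ (h2.powConst hθ 2)).mul hθ ((h2.powConst hθ 6).add hθ
    ((h2.powConst hθ 2).comp hθ c))).add hθ ((h1.mul hθ h1).mul hθ (h1.mul hθ h1))

end Pool.Agent.H65.BP
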