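import Pool.Agent.H65.BP.Final

set_option autoImplicit false

/-!
# Quasipolynomial time bounds
-/

namespace Pool.Agent.H65.BP

theorem pow_le_two_pow (c C : ℕ) : ∃ L₀, ∀ L ≥ L₀, (L + 3) ^ c + C ≤ 2 ^ L := by
  have h1 := tendsto_pow_const_div_const_pow_of_one_lt (r := (2 : ℝ)) c (by norm_num)
  have h2 : ∀ᶠ n : ℕ in Filter.atTop, (n : ℝ) ^ c / 2 ^ n < 1 / 16 :=
    h1.eventually (gt_mem_nhds (by norm_num))
  obtain ⟨n₀, hn₀⟩ := Filter.eventually_atTop.mp h2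
  refine ⟨n₀ + C + 1, fun L hL => ?_⟩
  have h3 := hn₀ (L + 3) (by omega)
  rw [div_lt_iff₀ (by positivity)] at h3
  have h4 : ((L + 3 : ℕ) : ℝ) ^ c ≤ ((2 ^ (L - 1) : ℕ) : ℝ) := by
    refine h3.le.trans ?_
    obtain ⟨m, rfl⟩ : ∃ m, L = m + 1 := ⟨L - 1, by omega⟩
    push_cast
    rw [show m + 1 + 3 = (m + 1 - 1) + 4 by omega, pow_add]
    norm_num
    linarith
  have h5 : (L + 3) ^ c ≤ 2 ^ (L - 1) := by exact_mod_cast h4
  have h6 : C ≤ 2 ^ (L - 1) :=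
    (Nat.lt_two_pow_self (n := C)).le.trans (Nat.pow_le_pow_right (by omega) (by omega))
  have h7 : 2 ^ L = 2 ^ (L - 1) + 2 ^ (L - 1) := by
    obtain ⟨m, rfl⟩ : ∃ m, L = m + 1 := ⟨L - 1, by omega⟩
    rw [Nat.add_sub_cancel, pow_succ]; ring
  omega

/-- a function with quasipolynomial iterates -/
def qf (n : ℕ) : ℕ := 2 ^ (Nat.log 2 n + 2) ^ 2

theorem qf_mono : Monotone qf := fun _ _ hab =>
  Nat.pow_le_pow_right (by omega) (Nat.pow_le_pow_left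
    (Nat.add_le_add_right (Nat.log_mono_right hab) 2) 2)

theorem qf_big (n : ℕ) : n ^ Nat.log 2 n ≤ qf n := by
  have h1 : n ≤ 2 ^ (Nat.log 2 n + 1) := (Nat.lt_pow_succ_log_self (by omega) n).le
  calc n ^ Nat.log 2 n ≤ (2 ^ (Nat.log 2 n + 1)) ^ Nat.log 2 n := Nat.pow_le_pow_left h1 _
    _ = 2 ^ ((Nat.log 2 n + 1) * Nat.log 2 n) := by rw [← pow_mul]
    _ ≤ 2 ^ (Nat.log 2 n + 2) ^ 2 := Nat.pow_le_pow_right (by omega) (by nlinarith)

theorem qf_iter_le (k : ℕ) : ∃ c, 1 ≤ c ∧ ∀ n, qf^[k] n ≤ 2 ^ (Nat.log 2 n + 2) ^ c := by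
  induction k with
  | zero =>
    refine ⟨1, le_rfl, fun n => ?_⟩
    rw [pow_one]
    exact (Nat.lt_pow_succ_log_self (b := 2) (by omega) n).le.trans
      (Nat.pow_le_pow_right (by omega) (by omega))
  | succ k ih =>
    obtain ⟨c, hc, h⟩ := ih
    refine ⟨2 * (c + 1), by omega, fun n => ?_⟩
    rw [Function.iterate_succ_apply']
    refine (qf_mono (h n)).trans ?_
    unfold qf
    rw [Nat.log_pow (by omega), mul_comm, pow_mul]
    refine Nat.pow_le_pow_right (by omega) (Nat.pow_le_pow_left ?_ 2)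
    have h1 : (Nat.log 2 n + 2) ≤ (Nat.log 2 n + 2) ^ c := by
      calc (Nat.log 2 n + 2) = (Nat.log 2 n + 2) ^ 1 := (pow_one _).symm
        _ ≤ _ := Nat.pow_le_pow_right (by omega) hc
    rw [pow_succ]
    nlinarith

theorem qf_small (k : ℕ) : ∃ n₀, ∀ n ≥ n₀, qf^[k] n ≤ 2 ^ n := by
  obtain ⟨c, _, h⟩ := qf_iter_le k
  obtain ⟨L₀, hL₀⟩ := pow_le_two_pow c 0
  refine ⟨2 ^ L₀, fun n hn => (h n).trans (Nat.pow_le_pow_right (by omega) ?_)⟩
  have hn1 : n ≠ 0 := by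
    have : 1 ≤ 2 ^ L₀ := Nat.one_le_pow _ _ (by omega)
    omega
  have h1 : L₀ ≤ Nat.log 2 n := Nat.le_log_of_pow_le (by omega) hn
  calc (Nat.log 2 n + 2) ^ c ≤ (Nat.log 2 n + 3) ^ c := Nat.pow_le_pow_left (by omega) c
    _ ≤ 2 ^ Nat.log 2 n := hL₀ _ h1
    _ ≤ n := Nat.pow_log_le_self 2 hn1

theorem le_qf_iter (k n : ℕ) : 2 ^ (Nat.log 2 n + 2) ^ (2 ^ (k + 1)) ≤ qf^[k + 1] n := by
  induction k with
  | zero => exact le_rfl
  | succ k ih =>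
    rw [Function.iterate_succ_apply']
    refine le_trans ?_ (qf_mono ih)
    unfold qf
    rw [Nat.log_pow (by omega), pow_succ 2 (k + 1), pow_mul]
    exact Nat.pow_le_pow_right (by omega) (Nat.pow_le_pow_left (by omega) 2)

/-- **The oracle for quasipolynomial time bounds.** -/
theorem exists_collapse_quasi : ∃ A : List Bool → Bool, ∀ s : ℕ → ℕ, (∀ n, n ≤ s n) →
    (∃ c, ∀ n, s n ≤ 2 ^ (Nat.log 2 n + 2) ^ c) →
    ∀ L : Set (List Bool), BPTIME A s L ↔ BPTIME A (fun n => n) L := by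
  obtain ⟨A, hA⟩ := exists_collapse qf qf_mono qf_big qf_small
  refine ⟨A, fun s hs1 ⟨c, hc⟩ => hA s hs1 ⟨c + 1, fun n => ?_⟩⟩
  have h1 : 2 ^ (Nat.log 2 n + 2) ^ c ≤ qf^[c + 1] n := by
    refine le_trans (Nat.pow_le_pow_right (by omega) (Nat.pow_le_pow_right (by omega) ?_))
      (le_qf_iter c n)
    exact Nat.lt_two_pow_self.le.trans (Nat.pow_le_pow_right (by omega) (by omega))
  calc s n ≤ qf^[c + 1] n + n + 2 := ((hc n).trans h1).trans (by omega)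
    _ = (qf^[c + 1] n + n + 2) ^ 1 := (pow_one _).symm
    _ ≤ (qf^[c + 1] n + n + 2) ^ (c + 1) := Nat.pow_le_pow_right (by omega) (by omega)

end Pool.Agent.H65.BP
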