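import Pool.Agent.H65.BP.Heavy

set_option autoImplicit false

/-!
# Small seeds
-/

namespace Pool.Agent.H65.BP

open DT

namespace Sys

variable {P V : Type} {S : Sys P V}

/-! ### the order of revealing -/

/-- the items which are revealed -/
inductive Item (V : Type) : Type
  | tree (v : V) : Item V
  | blk (v : V) : Item V
  | rest : Item V

/-- the time -/
def Item.rank (S : Sys P V) (ℓ : ℕ) : Item V → ℕ
  | .tree v => 2 * S.L v
  | .blk v => 2 * S.L v + 1
  | .rest => 2 * ℓ

/-- the positions -/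
noncomputable def Item.pos (S : Sys P V) (U : Finset P) : Item V → (P → Bool) → List P
  | .tree v => fun X => (S.T v).path X
  | .blk v => fun _ => (S.B v).toList
  | .rest => fun _ => U.toList

theorem Item.adapted (S : Sys P V) (U : Finset P) (a : Item V) : Adapted (a.pos S U) := by
  cases a with
  | tree v => exact Adapted.path _
  | blk v => exact Adapted.const _
  | rest => exact Adapted.const _

theorem exists_sorted {α : Type} (l : List α) (r : α → ℕ) :
    ∃ l' : List α, (∀ x, x ∈ l' ↔ x ∈ l) ∧ l'.Pairwise (fun a b => r a ≤ r b) := by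
  induction l with
  | nil => exact ⟨[], by simp⟩
  | cons a l ih =>
    obtain ⟨l', h1, h2⟩ := ih
    refine ⟨l'.filter (fun x => decide (r x < r a)) ++ a :: l'.filter (fun x => decide (r a ≤ r x)),
      fun x => ?_, ?_⟩
    · simp only [List.mem_append, List.mem_cons, List.mem_filter, decide_eq_true_eq, h1]
      constructor
      · rintro (h | h | h)
        · exact Or.inr h.1
        · exact Or.inl h
        · exact Or.inr h.1
      · rintro (h | h)
        · exact Or.inr (Or.inl h)
        · rcases Nat.lt_or_ge (r x) (r a) with h' | h'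
          · exact Or.inl ⟨h, h'⟩
          · exact Or.inr (Or.inr ⟨h, h'⟩)
    · rw [List.pairwise_append]
      refine ⟨h2.filter _, ?_, ?_⟩
      · rw [List.pairwise_cons]
        refine ⟨fun x hx => ?_, h2.filter _⟩
        rw [List.mem_filter, decide_eq_true_eq] at hx
        exact hx.2
      · intro x hx y hy
        rw [List.mem_filter, decide_eq_true_eq] at hx
        rcases List.mem_cons.mp hy with rfl | hy
        · exact hx.2.le
        · rw [List.mem_filter, decide_eq_true_eq] at hy
          omega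

theorem exists_items (S : Sys P V) (hfin : S.act.Finite) (ℓ : ℕ) :
    ∃ l : List (Item V), (∀ v ∈ S.act, Item.tree v ∈ l) ∧ (∀ v ∈ S.act, Item.blk v ∈ l) ∧
      Item.rest ∈ l ∧ (∀ v, Item.tree v ∈ l → v ∈ S.act) ∧
      l.Pairwise (fun a b => a.rank S ℓ ≤ b.rank S ℓ) := by
  obtain ⟨l, h1, h2⟩ := exists_sorted ((hfin.toFinset.toList.map Item.tree) ++
    (hfin.toFinset.toList.map Item.blk) ++ [Item.rest]) (Item.rank S ℓ)
  refine ⟨l, fun v hv => ?_, fun v hv => ?_, ?_, fun v hv => ?_, h2⟩
  · rw [h1]; simp [hv]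
  · rw [h1]; simp [hv]
  · rw [h1]; simp
  · rw [h1] at hv; simpa using hv

/-- the list of all reveals -/
noncomputable def rev (S : Sys P V) (U : Finset P) (l : List (Item V)) (X : P → Bool) : List P :=
  l.flatMap (fun a => a.pos S U X)

theorem rev_adapted (S : Sys P V) (U : Finset P) (l : List (Item V)) : Adapted (rev S U l) :=
  Adapted.flatMap l (fun a => Item.adapted S U a)

theorem rev_bound (S : Sys P V) (U : Finset P) (l : List (Item V)) :
    ∃ N, ∀ X, (rev S U l X).length ≤ N := by
  induction l with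
  | nil => exact ⟨0, by simp [rev]⟩
  | cons a l ih =>
    obtain ⟨N, hN⟩ := ih
    have h1 : ∃ c, ∀ X, (a.pos S U X).length ≤ c := by
      cases a with
      | tree v => exact ⟨_, fun X => path_length_le X _⟩
      | blk v => exact ⟨(S.B v).toList.length, fun X => le_rfl⟩
      | rest => exact ⟨U.toList.length, fun X => le_rfl⟩
    obtain ⟨c, hc⟩ := h1
    refine ⟨c + N, fun X => ?_⟩
    have h2 := hc X
    have h3 := hN X
    unfold rev at h3 ⊢
    rw [List.flatMap_cons, List.length_append]
    omega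

theorem locate {U : Finset P} {l : List (Item V)} {ℓ : ℕ} (hl1 : ∀ v ∈ S.act, Item.tree v ∈ l)
    (hl4 : ∀ v, Item.tree v ∈ l → v ∈ S.act)
    (hl5 : l.Pairwise (fun a b => a.rank S ℓ ≤ b.rank S ℓ)) (hL : ∀ w ∈ S.act, S.L w < ℓ)
    {X : P → Bool} {k : ℕ} {q : P} {w : V}
    (hk : (rev S U l X)[k]? = some q) (hq : q ∈ S.B w) :
    (∃ v ∈ S.act, S.L v ≤ S.L w ∧ q ∈ (S.T v).path X ∧
      ∀ Y : P → Bool, (∀ x ∈ (rev S U l X).take k, X x = Y x) → q ∈ (S.T v).path Y) ∨
    (∀ v ∈ S.act, S.L v ≤ S.L w → ∀ x ∈ (S.T v).path X, x ∈ (rev S U l X).take k) := by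
  obtain ⟨l₁, a, l₂, j, h1, h2, h3, h4⟩ := flatMap_getElem? _ _ _ _ hk
  have h5 : ∀ v ∈ S.act, (Item.tree v).rank S ℓ < a.rank S ℓ →
      ∀ x ∈ (S.T v).path X, x ∈ (rev S U l X).take k := by
    intro v hv hlt x hx
    have h6 : Item.tree v ∈ l₁ := by
      have h7 := hl1 v hv
      rw [h1, List.mem_append] at h7
      rcases h7 with h7 | h7
      · exact h7
      · exfalso
        rw [h1, List.pairwise_append] at hl5
        rcases List.mem_cons.mp h7 with h8 | h8
        · rw [h8] at hlt; exact absurd hlt (lt_irrefl _)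
        · have := (List.pairwise_cons.mp hl5.2.1).1 _ h8
          omega
    exact h4 _ h6 x hx
  cases a with
  | tree v =>
    have hv : v ∈ S.act := hl4 v (by rw [h1]; simp)
    by_cases hvw : S.L v ≤ S.L w
    · left
      refine ⟨v, hv, hvw, List.mem_of_getElem? h2, fun Y hY => ?_⟩
      have h6 := (Adapted.path (S.T v)).getElem? (X := X) (Y := Y) (k := j)
        (fun x hx => hY x (h3 x hx))
      have h7 : ((S.T v).path Y)[j]? = some q := h6.trans h2
      exact List.mem_of_getElem? h7
    · right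
      intro v' hv' hL'
      exact h5 v' hv' (by simp only [Item.rank]; omega)
  | blk v =>
    right
    intro v' hv' hL'
    have h6 : q ∈ S.B v := Finset.mem_toList.mp (List.mem_of_getElem? h2)
    rw [S.disj _ _ _ hq h6] at hL'
    exact h5 v' hv' (by simp only [Item.rank]; omega)
  | rest =>
    right
    intro v' hv' hL'
    have h6 := hL v' hv'
    exact h5 v' hv' (by simp only [Item.rank]; omega)

/-! ### default values -/

/-- the condition under which the default value is the value of the block -/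
def DCond (S : Sys P V) (prot : Set P) (A X : P → Bool) (q : P) (w : V) : Prop :=
  w ∈ S.act ∧ q ∈ S.B w ∧ S.tv X w ≠ S.tv A w ∧ q ∉ S.Des X (S.L w) ∧ q ∉ prot

open Classical in
/-- the default value -/
noncomputable def dfl (S : Sys P V) (prot : Set P) (A X : P → Bool) (q : P) : Bool :=
  if h : ∃ w, DCond S prot A X q w then S.tv X h.choose else A q

theorem dfl_pos {prot : Set P} {A X : P → Bool} {q : P} {w : V} (h : DCond S prot A X q w) :
    dfl S prot A X q = S.tv X w := by
  have h' : ∃ w, DCond S prot A X q w := ⟨w, h⟩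
  unfold dfl
  rw [dif_pos h', S.disj _ _ _ h'.choose_spec.2.1 h.2.1]

theorem dfl_neg {prot : Set P} {A X : P → Bool} {q : P} (h : ¬ ∃ w, DCond S prot A X q w) :
    dfl S prot A X q = A q := by
  unfold dfl
  rw [dif_neg h]

theorem dfl_adapted {U : Finset P} {l : List (Item V)} {ℓ : ℕ}
    (hl1 : ∀ v ∈ S.act, Item.tree v ∈ l)
    (hl4 : ∀ v, Item.tree v ∈ l → v ∈ S.act)
    (hl5 : l.Pairwise (fun a b => a.rank S ℓ ≤ b.rank S ℓ)) (hL : ∀ w ∈ S.act, S.L w < ℓ)
    (prot : Set P) (A X Y : P → Bool) (k : ℕ) (q : P)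
    (hag : ∀ x ∈ (rev S U l X).take k, X x = Y x) (hk : (rev S U l X)[k]? = some q) :
    dfl S prot A Y q = dfl S prot A X q := by
  by_cases hex : ∃ w ∈ S.act, q ∈ S.B w
  · obtain ⟨w, hw, hq⟩ := hex
    rcases locate hl1 hl4 hl5 hL hk hq with ⟨v, hv, hvw, h1, h2⟩ | h
    · rw [dfl_neg, dfl_neg]
      · rintro ⟨w', _, hq', _, hD, _⟩
        rw [S.disj _ _ _ hq' hq] at hD
        exact hD ⟨v, hv, hvw, h1⟩
      · rintro ⟨w', _, hq', _, hD, _⟩
        rw [S.disj _ _ _ hq' hq] at hD
        exact hD ⟨v, hv, hvw, h2 Y hag⟩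
    · have h1 : ∀ v ∈ S.act, S.L v ≤ S.L w → (S.T v).path Y = (S.T v).path X ∧
          (S.T v).eval Y = (S.T v).eval X :=
        fun v hv hvw => DT.agree (fun x hx => hag x (h v hv hvw x hx))
      have h2 : S.tv Y w = S.tv X w := (h1 w hw le_rfl).2
      have h3 : S.Des Y (S.L w) = S.Des X (S.L w) := by
        ext x
        constructor
        · rintro ⟨v, hv, hL', hx⟩
          exact ⟨v, hv, hL', by rw [← (h1 v hv hL').1]; exact hx⟩
        · rintro ⟨v, hv, hL', hx⟩
          exact ⟨v, hv, hL', by rw [(h1 v hv hL').1]; exact hx⟩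
      by_cases hc : DCond S prot A X q w
      · have hc' : DCond S prot A Y q w :=
          ⟨hw, hq, by rw [h2]; exact hc.2.2.1, by rw [h3]; exact hc.2.2.2.1, hc.2.2.2.2⟩
        rw [dfl_pos hc, dfl_pos hc', h2]
      · rw [dfl_neg, dfl_neg]
        · rintro ⟨w', hc'⟩
          rw [S.disj _ _ _ hc'.2.1 hq] at hc'
          exact hc hc'
        · rintro ⟨w', hc'⟩
          rw [S.disj _ _ _ hc'.2.1 hq] at hc'
          exact hc ⟨hw, hq, by rw [← h2]; exact hc'.2.2.1, by rw [← h3]; exact hc'.2.2.2.1,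
            hc'.2.2.2.2⟩
  · rw [dfl_neg, dfl_neg]
    · rintro ⟨w', hw', hq', _⟩
      exact hex ⟨w', hw', hq'⟩
    · rintro ⟨w', hw', hq', _⟩
      exact hex ⟨w', hw', hq'⟩

/-! ### flips -/

/-- `F` arises from `X` by a flip at `p` and repairs -/
structure IsFlip (S : Sys P V) (prot : Set P) (X : P → Bool) (p : P) (F : P → Bool) : Prop where
  flip : F p = !X p
  change : ∀ q, q ≠ p → F q ≠ X q → ∃ w ∈ S.act, q ∈ S.B w ∧ S.tv F w ≠ S.tv X w ∧
    q ∉ S.Des F (S.L w) ∧ q ∉ prot
  reset : ∀ w ∈ S.act, ∀ q ∈ S.B w, S.tv F w ≠ S.tv X w → q ∉ S.Des F (S.L w) → q ∉ prot →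
    q ≠ p → F q = S.tv F w

theorem exists_flip (S : Sys P V) (prot : Set P) (X : P → Bool) (p : P) :
    ∃ F, IsFlip S prot X p F := by
  classical
  obtain ⟨F, h1, h2⟩ := S.exists_fix (Function.update X p (!X p)) (insert p prot)
    (fun w b => b ≠ S.tv X w)
  refine ⟨F, ?_, fun q hq hne => ?_, fun w hw q hq hne hD hp hqp => ?_⟩
  · by_contra hcon
    obtain ⟨w, _, _, _, _, hp⟩ := h1 p (by rw [Function.update_self]; exact hcon)
    exact hp (Set.mem_insert _ _)
  · obtain ⟨w, hw, hqw, hc, hD, hp⟩ := h1 q (by rw [Function.update_of_ne hq]; exact hne)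
    exact ⟨w, hw, hqw, hc, hD, fun h => hp (Set.mem_insert_of_mem _ h)⟩
  · refine h2 w hw q hq hne hD (fun h => ?_)
    rcases Set.mem_insert_iff.mp h with h | h
    · exact hqp h
    · exact hp h

theorem IsFlip.agree {prot : Set P} {X F : P → Bool} {p : P} (h : IsFlip S prot X p F)
    {U : Finset P} {l : List (Item V)} {ℓ : ℕ}
    (hl1 : ∀ v ∈ S.act, Item.tree v ∈ l)
    (hl4 : ∀ v, Item.tree v ∈ l → v ∈ S.act)
    (hl5 : l.Pairwise (fun a b => a.rank S ℓ ≤ b.rank S ℓ)) (hL : ∀ w ∈ S.act, S.L w < ℓ) (k : ℕ)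
    (hk : p ∉ (rev S U l X).take k) : ∀ x ∈ (rev S U l X).take k, X x = F x := by
  induction k with
  | zero => intro x hx; simp at hx
  | succ k ih =>
    have hsub : ∀ x ∈ (rev S U l X).take k, x ∈ (rev S U l X).take (k + 1) := by
      intro x hx
      have : (rev S U l X).take k = ((rev S U l X).take (k + 1)).take k := by
        rw [List.take_take, min_eq_left (by omega)]
      rw [this] at hx
      exact List.mem_of_mem_take hx
    have ih' := ih (fun hp => hk (hsub p hp))
    intro x hx
    rw [List.take_add_one, List.mem_append] at hx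
    rcases hx with hx | hx
    · exact ih' x hx
    · cases hq : (rev S U l X)[k]? with
      | none => rw [hq] at hx; simp at hx
      | some q =>
        rw [hq] at hx
        simp only [Option.toList_some, List.mem_singleton] at hx
        subst hx
        by_contra hne
        have hxp : x ≠ p := by
          rintro rfl
          apply hk
          rw [List.take_add_one, List.mem_append, hq]
          exact Or.inr (by simp)
        obtain ⟨w, hw, hqw, hT, hD, _⟩ := h.change x hxp (fun h' => hne h'.symm)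
        rcases locate hl1 hl4 hl5 hL hq hqw with ⟨v, hv, hvw, _, h2⟩ | h2
        · exact hD ⟨v, hv, hvw, h2 F ih'⟩
        · exact hT (DT.agree (fun y hy => ih' y (h2 w hw le_rfl y hy))).2

theorem exists_first {α : Type} {l : List α} {q : α} (h : q ∈ l) :
    ∃ k, k < l.length ∧ l[k]? = some q ∧ q ∉ l.take k := by
  induction l with
  | nil => simp at h
  | cons a l ih =>
    by_cases ha : a = q
    · exact ⟨0, by simp, by simp [ha], by simp⟩
    · obtain ⟨k, h0, h1, h2⟩ := ih ((List.mem_cons.mp h).resolve_left (fun h' => ha h'.symm))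
      refine ⟨k + 1, by simpa using h0, by simpa using h1, ?_⟩
      rw [List.take_succ_cons, List.mem_cons]
      rintro (h3 | h3)
      · exact ha h3.symm
      · exact h2 h3

/-- the wrong positions of a block -/
def Wr (S : Sys P V) (X : P → Bool) (w : V) : Finset P :=
  (S.B w).filter (fun q => X q ≠ S.tv X w)

theorem mem_Wr {X : P → Bool} {w : V} {q : P} : q ∈ S.Wr X w ↔ q ∈ S.B w ∧ X q ≠ S.tv X w := by
  unfold Wr; rw [Finset.mem_filter]

end Sys

end Pool.Agent.H65.BP
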