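import Pool.Agent.H65.BP.Link

set_option autoImplicit false

/-!
# The simulating machine
-/

namespace Pool.Agent.H65.BP

/-! ### transport of machines -/

section

variable {Q : Type} {g m s : ℕ}

/-- rename the states -/
def PTM.map (M : PTM Q g m) (e : Q ≃ Fin (s + 1)) : PTM (Fin (s + 1)) g m where
  start := e M.start
  kind := fun q => M.kind (e.symm q)
  next := fun q a b r => (e (M.next (e.symm q) a b r).1, (M.next (e.symm q) a b r).2)

/-- rename the state of a configuration -/
def Cfg.map (e : Q ≃ Fin (s + 1)) (c : Cfg Q g m) : Cfg (Fin (s + 1)) g m where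
  st := e c.st
  hd := c.hd
  tp := c.tp

theorem step_map (M : PTM Q g m) (e : Q ≃ Fin (s + 1)) (A : List Bool → Bool) (c : Cfg Q g m)
    (b : Bool) : (M.map e).step A (c.map e) b = (M.step A c b).map e := by
  unfold PTM.step PTM.stepWith PTM.map Cfg.map
  simp only [Equiv.symm_apply_apply]
  split_ifs <;> rfl

theorem runFrom_map (M : PTM Q g m) (e : Q ≃ Fin (s + 1)) (A : List Bool → Bool) (l : List Bool) :
    ∀ c : Cfg Q g m, (M.map e).runFrom A (c.map e) l = (M.runFrom A c l).map e := by
  induction l with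
  | nil => intro c; rfl
  | cons b l ih =>
    intro c
    have h1 : (M.map e).runFrom A (c.map e) (b :: l) =
        (M.map e).runFrom A ((M.map e).step A (c.map e) b) l := rfl
    rw [h1, step_map, ih]
    rfl

theorem result_map (M : PTM Q g m) (e : Q ≃ Fin (s + 1)) (A : List Bool → Bool) (x l : List Bool) :
    (M.map e).result A x l = M.result A x l := by
  unfold PTM.result
  have h1 : (M.map e).init x = (M.init x).map e := rfl
  rw [h1, runFrom_map]
  unfold PTM.map Cfg.map
  simp only [Equiv.symm_apply_apply]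

end

/-! ### tapes -/

theorem strTape_lt {g : ℕ} {y : List Bool} {j : ℕ} (h : j < y.length) :
    strTape g y j = bitSym g y[j] := by
  unfold strTape
  rw [List.getElem?_eq_getElem h]

theorem strTape_ge {g : ℕ} {y : List Bool} {j : ℕ} (h : y.length ≤ j) : strTape g y j = 0 := by
  unfold strTape
  rw [List.getElem?_eq_none h]

theorem update_strTape (g : ℕ) (y : List Bool) (b : Bool) :
    Function.update (strTape g y) y.length (bitSym g b) = strTape g (y ++ [b]) := by
  funext j
  rcases lt_trichotomy j y.length with h | h | h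
  · rw [Function.update_of_ne h.ne, strTape_lt h,
      strTape_lt (by rw [List.length_append]; simp only [List.length_singleton]; omega)]
    rw [List.getElem_append_left h]
  · subst h
    rw [Function.update_self, strTape_lt (by simp)]
    simp
  · rw [Function.update_of_ne h.ne', strTape_ge h.le,
      strTape_ge (by rw [List.length_append]; simp only [List.length_singleton]; omega)]

theorem bitSym_eq_two (g : ℕ) (b : Bool) : decide (bitSym g b = 2) = b := by
  unfold bitSym
  cases b with
  | true => simp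
  | false =>
    simp only [Bool.false_eq_true, if_false, decide_eq_false_iff_not]
    intro h
    have h1 : ((2 : Fin (g + 3)) : ℕ) = 2 := by
      show 2 % (g + 3) = 2
      exact Nat.mod_eq_of_lt (by omega)
    rw [← h] at h1
    have h2 : ((1 : Fin (g + 3)) : ℕ) = 1 := by
      show 1 % (g + 3) = 1
      exact Nat.mod_eq_of_lt (by omega)
    omega

theorem bitSym_ne_zero (g : ℕ) (b : Bool) : bitSym g b ≠ 0 := by
  unfold bitSym
  split_ifs
  · exact fun h => blank_ne_two g h.symm
  · exact fun h => blank_ne_one g h.symm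

theorem tapeStr_strTape (g : ℕ) (y : List Bool) : tapeStr (strTape g y) = y := by
  classical
  have h1 : strTape g y y.length ≠ 1 ∧ strTape g y y.length ≠ 2 := by
    rw [strTape_ge le_rfl]
    exact ⟨blank_ne_one g, blank_ne_two g⟩
  have hex : ∃ n, strTape g y n ≠ 1 ∧ strTape g y n ≠ 2 := ⟨_, h1⟩
  have h2 : Nat.find hex = y.length := by
    refine le_antisymm (Nat.find_min' hex h1) ?_
    by_contra hlt
    push Not at hlt
    have h3 := Nat.find_spec hex
    rw [strTape_lt hlt] at h3
    unfold bitSym at h3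
    split_ifs at h3
    · exact h3.2 rfl
    · exact h3.1 rfl
  unfold tapeStr
  rw [dif_pos hex, h2]
  refine List.ext_getElem (by simp) (fun j hj1 hj2 => ?_)
  rw [List.getElem_map, List.getElem_range, strTape_lt hj2, bitSym_eq_two]

/-! ### the machine -/

/-- memory for short inputs -/
abbrev Mem (n₀ : ℕ) : Type := Option {l : List Bool // l.length < n₀}

/-- remember the string `x` if it is short -/
def memOf (n₀ : ℕ) (x : List Bool) : Mem n₀ := if h : x.length < n₀ then some ⟨x, h⟩ else none

/-- append a bit -/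
def push {n₀ : ℕ} (b : Bool) : Mem n₀ → Mem n₀
  | none => none
  | some l => memOf n₀ (l.1 ++ [b])

theorem push_memOf (n₀ : ℕ) (b : Bool) (x : List Bool) :
    push b (memOf n₀ x) = memOf n₀ (x ++ [b]) := by
  unfold memOf
  by_cases h : x.length < n₀
  · rw [dif_pos h]
    rfl
  · rw [dif_neg h, dif_neg (by rw [List.length_append]; simp only [List.length_singleton]; omega)]
    rfl

/-- the states -/
abbrev SQ (i n₀ : ℕ) : Type := Fin (i + 1) ⊕ (Fin 4 × Mem n₀) ⊕ Option Bool

/-- kinds of the states -/
def simKind {i n₀ : ℕ} : SQ i n₀ → Kind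
  | Sum.inl _ => Kind.work
  | Sum.inr (Sum.inl _) => Kind.work
  | Sum.inr (Sum.inr none) => Kind.query
  | Sum.inr (Sum.inr (some true)) => Kind.accept
  | Sum.inr (Sum.inr (some false)) => Kind.reject

/-- what to do at the end of the input -/
def endState {i n₀ : ℕ} (tb : List Bool → Bool) : Mem n₀ → SQ i n₀
  | none => Sum.inr (Sum.inr none)
  | some l => Sum.inr (Sum.inr (some (tb l.1)))

/-- transitions -/
def simNext {i n₀ : ℕ} (tb : List Bool → Bool) (q : SQ i n₀) (a : Fin (0 + 2) → Fin (0 + 3))
    (b r : Bool) : SQ i n₀ × (Fin (0 + 2) → Fin (0 + 3)) × (Fin (0 + 2) → Fin 3) :=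
  match q with
  | Sum.inl j =>
    if h : j.1 < i then
      (Sum.inl ⟨j.1 + 1, by omega⟩, ![a 0, bitSym 0 true], ![1, 2])
    else (Sum.inr (Sum.inl (0, memOf n₀ [])), ![a 0, bitSym 0 false], ![1, 2])
  | Sum.inr (Sum.inl (p, mm)) =>
    if p = 0 then
      if a 0 = 0 then (endState tb mm, a, fun _ => 1)
      else (Sum.inr (Sum.inl (1, push (decide (a 0 = 2)) mm)), ![a 0, a 0], ![1, 2])
    else if p = 3 then (Sum.inr (Sum.inl (0, mm)), ![a 0, bitSym 0 b], ![2, 2])
    else (Sum.inr (Sum.inl (p + 1, mm)), ![a 0, bitSym 0 b], ![1, 2])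
  | Sum.inr (Sum.inr _) => (Sum.inr (Sum.inr (some r)), a, fun _ => 1)

/-- the simulating machine -/
def simM (i n₀ : ℕ) (tb : List Bool → Bool) : PTM (SQ i n₀) 0 0 where
  start := Sum.inl 0
  kind := simKind
  next := simNext tb

/-- a configuration: `x` on the input tape, `y` on the oracle tape -/
def cf {i n₀ : ℕ} (q : SQ i n₀) (h : ℕ) (x y : List Bool) : Cfg (SQ i n₀) 0 0 where
  st := q
  hd := ![h, y.length]
  tp := ![strTape 0 x, strTape 0 y]

theorem cfg_ext {Q : Type} {c c' : Cfg Q 0 0} (h1 : c.st = c'.st) (h2 : c.hd 0 = c'.hd 0)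
    (h3 : c.hd 1 = c'.hd 1) (h4 : c.tp 0 = c'.tp 0) (h5 : c.tp 1 = c'.tp 1) : c = c' := by
  obtain ⟨s, h, t⟩ := c
  obtain ⟨s', h', t'⟩ := c'
  simp only at h1 h2 h3 h4 h5
  have e1 : h = h' := by
    funext j
    match j with
    | ⟨0, _⟩ => exact h2
    | ⟨1, _⟩ => exact h3
  have e2 : t = t' := by
    funext j
    match j with
    | ⟨0, _⟩ => exact h4
    | ⟨1, _⟩ => exact h5
  rw [h1, e1, e2]

section

variable {i n₀ : ℕ} {tb : List Bool → Bool} {A : List Bool → Bool}

theorem init_cf (x : List Bool) : (simM i n₀ tb).init x = cf (Sum.inl 0) 0 x [] := by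
  refine cfg_ext rfl rfl rfl rfl ?_
  funext j
  exact (strTape_ge (g := 0) (y := []) (Nat.zero_le j)).symm

theorem step_work {q : SQ i n₀} {h : ℕ} {x y : List Bool} {b : Bool} (hq : simKind q = Kind.work) :
    (simM i n₀ tb).step A (cf q h x y) b =
      { st := (simNext tb q ![strTape 0 x h, strTape 0 y y.length] b false).1
        hd := fun i => moveHead ((simNext tb q ![strTape 0 x h, strTape 0 y y.length] b false).2.2 i)
          ((cf q h x y).hd i)
        tp := fun i => Function.update ((cf q h x y).tp i) ((cf q h x y).hd i)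
          ((simNext tb q ![strTape 0 x h, strTape 0 y y.length] b false).2.1 i) } := by
  have hk : (simM i n₀ tb).kind (cf q h x y).st = Kind.work := hq
  have ha : (fun i => (cf q h x y).tp i ((cf q h x y).hd i)) =
      ![strTape 0 x h, strTape 0 y y.length] := by
    funext j
    match j with
    | ⟨0, _⟩ => rfl
    | ⟨1, _⟩ => rfl
  have e1 : ¬ (Kind.work = Kind.accept ∨ Kind.work = Kind.reject) := by decide
  have e2 : ¬ (Kind.work = Kind.query) := by decide
  unfold PTM.step PTM.stepWith
  rw [hk, if_neg e1, if_neg e2, ha]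
  rfl

theorem s1 {j : ℕ} (hj : j < i) {h : ℕ} {x y : List Bool} {b : Bool} :
    (simM i n₀ tb).step A (cf (Sum.inl ⟨j, by omega⟩) h x y) b =
      cf (Sum.inl ⟨j + 1, by omega⟩) h x (y ++ [true]) := by
  rw [step_work rfl]
  have hn : simNext (i := i) (n₀ := n₀) tb (Sum.inl ⟨j, by omega⟩)
      ![strTape 0 x h, strTape 0 y y.length] b false =
      (Sum.inl ⟨j + 1, by omega⟩, ![strTape 0 x h, bitSym 0 true], ![1, 2]) := by
    unfold simNext
    simp only
    rw [dif_pos hj]
    rfl
  rw [hn]
  refine cfg_ext rfl rfl ?_ ?_ ?_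
  · simp [cf, moveHead]
  · exact Function.update_eq_self _ _
  · exact update_strTape 0 y true

theorem s2 {h : ℕ} {x y : List Bool} {b : Bool} :
    (simM i n₀ tb).step A (cf (Sum.inl ⟨i, by omega⟩) h x y) b =
      cf (Sum.inr (Sum.inl (0, memOf n₀ []))) h x (y ++ [false]) := by
  rw [step_work rfl]
  have hn : simNext (i := i) (n₀ := n₀) tb (Sum.inl ⟨i, by omega⟩)
      ![strTape 0 x h, strTape 0 y y.length] b false =
      (Sum.inr (Sum.inl (0, memOf n₀ [])), ![strTape 0 x h, bitSym 0 false], ![1, 2]) := by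
    unfold simNext
    simp only
    rw [dif_neg (lt_irrefl _)]
    rfl
  rw [hn]
  refine cfg_ext rfl rfl ?_ ?_ ?_
  · simp [cf, moveHead]
  · exact Function.update_eq_self _ _
  · exact update_strTape 0 y false

theorem s3 {mm : Mem n₀} {h : ℕ} {x y : List Bool} {b a : Bool} (hx : x[h]? = some a) :
    (simM i n₀ tb).step A (cf (Sum.inr (Sum.inl (0, mm))) h x y) b =
      cf (Sum.inr (Sum.inl (1, push a mm))) h x (y ++ [a]) := by
  have hs : strTape 0 x h = bitSym 0 a := by unfold strTape; rw [hx]
  rw [step_work rfl]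
  have hn : simNext (i := i) (n₀ := n₀) tb (Sum.inr (Sum.inl (0, mm)))
      ![strTape 0 x h, strTape 0 y y.length] b false =
      (Sum.inr (Sum.inl (1, push a mm)), ![strTape 0 x h, bitSym 0 a], ![1, 2]) := by
    unfold simNext
    simp only [if_true]
    rw [hs]
    have e : (![bitSym 0 a, strTape 0 y y.length] : Fin (0 + 2) → Fin (0 + 3)) 0 = bitSym 0 a := rfl
    rw [e, if_neg (bitSym_ne_zero 0 a), bitSym_eq_two]
  rw [hn]
  refine cfg_ext rfl rfl ?_ ?_ ?_
  · simp [cf, moveHead]
  · exact Function.update_eq_self _ _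
  · exact update_strTape 0 y a

theorem s4 {p : Fin 4} (hp : p ≠ 0) (hp' : p ≠ 3) {mm : Mem n₀} {h : ℕ} {x y : List Bool}
    {b : Bool} : (simM i n₀ tb).step A (cf (Sum.inr (Sum.inl (p, mm))) h x y) b =
      cf (Sum.inr (Sum.inl (p + 1, mm))) h x (y ++ [b]) := by
  rw [step_work rfl]
  have hn : simNext (i := i) (n₀ := n₀) tb (Sum.inr (Sum.inl (p, mm)))
      ![strTape 0 x h, strTape 0 y y.length] b false =
      (Sum.inr (Sum.inl (p + 1, mm)), ![strTape 0 x h, bitSym 0 b], ![1, 2]) := by
    unfold simNext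
    simp only
    rw [if_neg hp, if_neg hp']
    rfl
  rw [hn]
  refine cfg_ext rfl rfl ?_ ?_ ?_
  · simp [cf, moveHead]
  · exact Function.update_eq_self _ _
  · exact update_strTape 0 y b

theorem s5 {mm : Mem n₀} {h : ℕ} {x y : List Bool} {b : Bool} :
    (simM i n₀ tb).step A (cf (Sum.inr (Sum.inl (3, mm))) h x y) b =
      cf (Sum.inr (Sum.inl (0, mm))) (h + 1) x (y ++ [b]) := by
  rw [step_work rfl]
  have hn : simNext (i := i) (n₀ := n₀) tb (Sum.inr (Sum.inl (3, mm)))
      ![strTape 0 x h, strTape 0 y y.length] b false =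
      (Sum.inr (Sum.inl (0, mm)), ![strTape 0 x h, bitSym 0 b], ![2, 2]) := by
    rfl
  rw [hn]
  refine cfg_ext rfl ?_ ?_ ?_ ?_
  · simp [cf, moveHead]
  · simp [cf, moveHead]
  · exact Function.update_eq_self _ _
  · exact update_strTape 0 y b

theorem s6 {mm : Mem n₀} {h : ℕ} {x y : List Bool} {b : Bool} (hx : x[h]? = none) :
    (simM i n₀ tb).step A (cf (Sum.inr (Sum.inl (0, mm))) h x y) b =
      cf (endState tb mm) h x y := by
  have hs : strTape 0 x h = 0 := by unfold strTape; rw [hx]
  rw [step_work rfl]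
  have hn : simNext (i := i) (n₀ := n₀) tb (Sum.inr (Sum.inl (0, mm)))
      ![strTape 0 x h, strTape 0 y y.length] b false =
      (endState tb mm, ![strTape 0 x h, strTape 0 y y.length], fun _ => 1) := by
    unfold simNext
    simp only [if_true]
    have e : (![strTape 0 x h, strTape 0 y y.length] : Fin (0 + 2) → Fin (0 + 3)) 0 = 0 := hs
    rw [if_pos e]
  rw [hn]
  refine cfg_ext rfl ?_ ?_ ?_ ?_
  · simp [moveHead, cf]
  · simp [moveHead, cf]
  · exact Function.update_eq_self _ _
  · exact Function.update_eq_self _ _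

theorem s7 {h : ℕ} {x y : List Bool} {b : Bool} :
    (simM i n₀ tb).step A (cf (Sum.inr (Sum.inr none)) h x y) b =
      cf (Sum.inr (Sum.inr (some (A y)))) h x y := by
  have hk : (simM i n₀ tb).kind (cf (n₀ := n₀) (i := i) (Sum.inr (Sum.inr none)) h x y).st =
      Kind.query := rfl
  have ht : tapeStr ((cf (n₀ := n₀) (i := i) (Sum.inr (Sum.inr none)) h x y).tp 1) = y :=
    tapeStr_strTape 0 y
  have e1 : ¬ (Kind.query = Kind.accept ∨ Kind.query = Kind.reject) := by decide
  unfold PTM.step PTM.stepWith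
  rw [hk, if_neg e1, if_pos rfl, ht]
  refine cfg_ext rfl ?_ ?_ ?_ ?_
  · rfl
  · rfl
  · exact Function.update_eq_self _ _
  · exact Function.update_eq_self _ _

/-! ### runs -/

theorem run_pre (x : List Bool) (l : List Bool) : ∀ j (hj : j + l.length ≤ i),
    (simM i n₀ tb).runFrom A (cf (Sum.inl ⟨j, by omega⟩) 0 x (List.replicate j true)) l =
      cf (Sum.inl ⟨j + l.length, by omega⟩) 0 x (List.replicate (j + l.length) true) := by
  induction l with
  | nil => intro j hj; rfl
  | cons b l ih =>
    intro j hj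
    rw [List.length_cons] at hj
    have h1 : (simM i n₀ tb).runFrom A (cf (Sum.inl ⟨j, by omega⟩) 0 x (List.replicate j true))
        (b :: l) = (simM i n₀ tb).runFrom A ((simM i n₀ tb).step A
          (cf (Sum.inl ⟨j, by omega⟩) 0 x (List.replicate j true)) b) l := rfl
    rw [h1, s1 (by omega), ← List.replicate_succ', ih (j + 1) (by omega)]
    have e : j + 1 + l.length = j + (b :: l).length := by rw [List.length_cons]; ring
    simp only [e]

/-- the string written on the oracle tape -/
def wv : List Bool → List Bool → List Bool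
  | a :: x, _ :: c₁ :: c₂ :: c₃ :: l => a :: c₁ :: c₂ :: c₃ :: wv x l
  | _, _ => []

theorem run_loop (v : List Bool) : ∀ (u y l : List Bool), l.length = 4 * v.length →
    (simM i n₀ tb).runFrom A (cf (Sum.inr (Sum.inl (0, memOf n₀ u))) u.length (u ++ v) y) l =
      cf (Sum.inr (Sum.inl (0, memOf n₀ (u ++ v)))) (u ++ v).length (u ++ v) (y ++ wv v l) := by
  induction v with
  | nil =>
    intro u y l hl
    have : l = [] := List.length_eq_zero_iff.mp (by simpa using hl)
    subst this
    simp [PTM.runFrom, wv]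
  | cons a v ih =>
    intro u y l hl
    match l, hl with
    | [], hl => simp at hl
    | [_], hl => simp at hl; omega
    | [_, _], hl => simp at hl; omega
    | [_, _, _], hl => simp at hl; omega
    | c₀ :: c₁ :: c₂ :: c₃ :: l, hl =>
      have hl' : l.length = 4 * v.length := by
        simp only [List.length_cons] at hl
        omega
      have h1 : ∀ c, (simM i n₀ tb).runFrom A c (c₀ :: c₁ :: c₂ :: c₃ :: l) =
        (simM i n₀ tb).runFrom A ((simM i n₀ tb).step A ((simM i n₀ tb).step A
          ((simM i n₀ tb).step A ((simM i n₀ tb).step A c c₀) c₁) c₂) c₃) l := fun c => rfl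
      rw [h1, s3 (a := a) (by simp), push_memOf, s4 (by decide) (by decide),
        s4 (by decide) (by decide)]
      have e3 : (1 : Fin 4) + 1 + 1 = 3 := by decide
      rw [e3, s5]
      have h2 := ih (u ++ [a]) (y ++ [a] ++ [c₁] ++ [c₂] ++ [c₃]) l hl'
      have e1 : u ++ [a] ++ v = u ++ a :: v := by simp
      have e2 : (u ++ [a]).length = u.length + 1 := by simp
      rw [e1, e2] at h2
      rw [h2]
      congr 1
      simp [wv]

/-- the run before the last steps -/
theorem run_main (x l₁ l₂ : List Bool) (h1 : l₁.length = i + 1) (h2 : l₂.length = 4 * x.length) :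
    (simM i n₀ tb).runFrom A ((simM i n₀ tb).init x) (l₁ ++ l₂) =
      cf (Sum.inr (Sum.inl (0, memOf n₀ x))) x.length x (pre i (wv x l₂)) := by
  rw [runFrom_append, init_cf]
  obtain ⟨l, b, rfl⟩ : ∃ l b, l₁ = l ++ [b] := by
    rcases List.eq_nil_or_concat l₁ with h | ⟨l, b, h⟩
    · rw [h] at h1; simp at h1
    · exact ⟨l, b, by simpa using h⟩
  have hl : l.length = i := by simpa using h1
  have h3 := run_pre (i := i) (n₀ := n₀) (tb := tb) (A := A) x l 0 (by omega)
  rw [runFrom_append]
  have h4 : (cf (Sum.inl 0) 0 x [] : Cfg (SQ i n₀) 0 0) =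
      cf (Sum.inl ⟨0, by omega⟩) 0 x (List.replicate 0 true) := rfl
  rw [h4, h3]
  have h5 : ∀ c, (simM i n₀ tb).runFrom A c [b] = (simM i n₀ tb).step A c b := fun c => rfl
  simp only [zero_add, hl]
  rw [h5, s2]
  have h6 := run_loop (i := i) (n₀ := n₀) (tb := tb) (A := A) x [] (List.replicate i true ++ [false])
    l₂ h2
  simp only [List.nil_append, List.length_nil] at h6
  rw [h6]
  congr 1
  simp [pre]

theorem result_long {x l₁ l₂ l₃ : List Bool} (hx : n₀ ≤ x.length) (h1 : l₁.length = i + 1)
    (h2 : l₂.length = 4 * x.length) (h3 : 2 ≤ l₃.length) :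
    (simM i n₀ tb).result A x (l₁ ++ l₂ ++ l₃) =
      if A (pre i (wv x l₂)) then Kind.accept else Kind.reject := by
  unfold PTM.result
  rw [runFrom_append, run_main x l₁ l₂ h1 h2]
  have hm : memOf n₀ x = none := by unfold memOf; rw [dif_neg (by omega)]
  rw [hm]
  match l₃, h3 with
  | b :: b' :: l₃, _ =>
    have h4 : ∀ c, (simM i n₀ tb).runFrom A c (b :: b' :: l₃) = (simM i n₀ tb).runFrom A
      ((simM i n₀ tb).step A ((simM i n₀ tb).step A c b) b') l₃ := fun c => rfl
    rw [h4, s6 (by simp)]
    have h5 : (endState tb (none : Mem n₀) : SQ i n₀) = Sum.inr (Sum.inr none) := rfl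
    rw [h5, s7]
    rw [runFrom_halted]
    · cases A (pre i (wv x l₂)) <;> rfl
    · cases A (pre i (wv x l₂))
      · exact Or.inr rfl
      · exact Or.inl rfl

theorem result_short {x l₁ l₂ l₃ : List Bool} (hx : x.length < n₀) (h1 : l₁.length = i + 1)
    (h2 : l₂.length = 4 * x.length) (h3 : 1 ≤ l₃.length) :
    (simM i n₀ tb).result A x (l₁ ++ l₂ ++ l₃) =
      if tb x then Kind.accept else Kind.reject := by
  unfold PTM.result
  rw [runFrom_append, run_main x l₁ l₂ h1 h2]
  have hm : memOf n₀ x = some ⟨x, hx⟩ := by unfold memOf; rw [dif_pos hx]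
  rw [hm]
  match l₃, h3 with
  | b :: l₃, _ =>
    have h4 : ∀ c, (simM i n₀ tb).runFrom A c (b :: l₃) = (simM i n₀ tb).runFrom A
      ((simM i n₀ tb).step A c b) l₃ := fun c => rfl
    rw [h4, s6 (by simp)]
    have h5 : (endState tb (some ⟨x, hx⟩ : Mem n₀) : SQ i n₀) =
      Sum.inr (Sum.inr (some (tb x))) := rfl
    rw [h5, runFrom_halted]
    · cases tb x <;> rfl
    · cases tb x
      · exact Or.inr rfl
      · exact Or.inl rfl

end

/-! ### counting -/

theorem card_weaves_cons (a : Bool) (x : List Bool) (ψ : List Bool → Bool) :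
    ((weaves (a :: x)).filter (fun y => ψ y = true)).card =
      ∑ p : Bool × Bool × Bool, ((weaves x).filter
        (fun y => ψ (a :: p.1 :: p.2.1 :: p.2.2 :: y) = true)).card := by
  classical
  rw [weaves, Finset.card_filter, Finset.sum_image, Finset.sum_product]
  · refine Finset.sum_congr rfl (fun p _ => ?_)
    rw [Finset.card_filter]
  · rintro ⟨⟨b1, b2, b3⟩, y⟩ _ ⟨⟨c1, c2, c3⟩, z⟩ _ h
    simp only [List.cons.injEq, true_and] at h
    obtain ⟨rfl, rfl, rfl, rfl⟩ := h
    rfl

theorem cnt_wv (x : List Bool) : ∀ ψ : List Bool → Bool,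
    cnt (fun l => ψ (wv x l)) (4 * x.length) =
      2 ^ x.length * ((weaves x).filter (fun y => ψ y = true)).card := by
  induction x with
  | nil =>
    intro ψ
    have h1 : ∀ l, wv [] l = [] := fun l => by cases l <;> rfl
    simp only [h1, List.length_nil, Nat.mul_zero, pow_zero, one_mul]
    rw [cnt, weaves, Finset.filter_singleton]
    split_ifs <;> simp_all
  | cons a x ih =>
    intro ψ
    have e : 4 * (a :: x).length = 4 * x.length + 1 + 1 + 1 + 1 := by
      rw [List.length_cons]; ring
    rw [e]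
    simp only [cnt]
    have h1 : ∀ c₀ c₁ c₂ c₃ : Bool, cnt (fun l => ψ (wv (a :: x) (c₀ :: c₁ :: c₂ :: c₃ :: l)))
        (4 * x.length) = 2 ^ x.length * ((weaves x).filter
          (fun y => ψ (a :: c₁ :: c₂ :: c₃ :: y) = true)).card := by
      intro c₀ c₁ c₂ c₃
      exact ih (fun y => ψ (a :: c₁ :: c₂ :: c₃ :: y))
    simp only [h1]
    rw [card_weaves_cons, Fintype.sum_prod_type]
    simp only [Fintype.sum_prod_type, Fintype.sum_bool, List.length_cons, pow_succ]
    ring

theorem card_blk_filter (i : ℕ) (x : List Bool) (φ : List Bool → Bool) :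
    ((blk (i, x)).filter (fun q => φ q = true)).card =
      ((weaves x).filter (fun y => φ (pre i y) = true)).card := by
  classical
  rw [blk, Finset.filter_image, Finset.card_image_of_injective _ (fun y z h => (pre_inj h).2)]

open Classical in
/-- **Decoding in linear time.** -/
theorem bptime_of_encoding {A : List Bool → Bool} {L : Set (List Bool)} {i n₀ : ℕ}
    (h : ∀ z : List Bool, n₀ ≤ z.length →
      4 * ((blk (i, z)).filter (fun q => A q ≠ decide (z ∈ L))).card ≤ (blk (i, z)).card) :
    BPTIME A (fun n => n) L := by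
  let tb : List Bool → Bool := fun x => decide (x ∈ L)
  have hfin : Finite (SQ i n₀) := by
    have : Finite {l : List Bool // l.length < n₀} := (List.finite_length_lt Bool n₀).to_subtype
    infer_instance
  obtain ⟨s', ⟨e'⟩⟩ := Finite.exists_equiv_fin (SQ i n₀)
  have hs' : s' ≠ 0 := by
    rintro rfl
    exact (e' (Sum.inl 0)).elim0
  obtain ⟨s, rfl⟩ := Nat.exists_eq_succ_of_ne_zero hs'
  let e : SQ i n₀ ≃ Fin (s + 1) := e'
  refine ⟨s, 0, 0, (simM i n₀ tb).map e, i + 4, fun x => ?_⟩
  simp only [result_map]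
  set n := x.length with hn
  have hT : (i + 4) * n + (i + 4) = (i + 1) + (4 * n + (2 + (i * n + 1))) := by ring
  have hres : ∀ l : List Bool, l.length = (i + 4) * n + (i + 4) →
      (simM i n₀ tb).result A x l =
        if (if x.length < n₀ then tb x else A (pre i (wv x ((l.drop (i + 1)).take (4 * n)))))
        then Kind.accept else Kind.reject := by
    intro l hl
    have h1 : l = l.take (i + 1) ++ (l.drop (i + 1)).take (4 * n) ++
        (l.drop (i + 1)).drop (4 * n) := by
      rw [List.append_assoc, List.take_append_drop, List.take_append_drop]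
    have h2 : (l.take (i + 1)).length = i + 1 := by
      rw [List.length_take]; omega
    have h3 : ((l.drop (i + 1)).take (4 * n)).length = 4 * n := by
      rw [List.length_take, List.length_drop]; omega
    have h4 : 2 ≤ ((l.drop (i + 1)).drop (4 * n)).length := by
      rw [List.length_drop, List.length_drop]; omega
    by_cases hx : x.length < n₀
    · rw [if_pos hx]
      conv_lhs => rw [h1]
      exact result_short hx h2 h3 (by omega)
    · rw [if_neg hx]
      conv_lhs => rw [h1]
      exact result_long (by omega) h2 h3 h4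
  have hcount : (Finset.univ.filter (fun ω : Fin ((i + 4) * n + (i + 4)) → Bool =>
      (simM i n₀ tb).result A x (List.ofFn ω) = Kind.accept)).card =
      cnt (fun l => if x.length < n₀ then tb x
        else A (pre i (wv x ((l.drop (i + 1)).take (4 * n))))) ((i + 4) * n + (i + 4)) := by
    rw [← card_eq_cnt]
    refine congrArg Finset.card (Finset.filter_congr (fun ω _ => ?_))
    rw [hres _ (List.length_ofFn)]
    cases (if x.length < n₀ then tb x
        else A (pre i (wv x (((List.ofFn ω).drop (i + 1)).take (4 * n))))) <;> simp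
  refine ⟨fun ω => ?_, ?_⟩
  · rw [hres _ (List.length_ofFn)]
    cases (if x.length < n₀ then tb x
        else A (pre i (wv x (((List.ofFn ω).drop (i + 1)).take (4 * n))))) <;> simp
  rw [hcount]
  by_cases hx : x.length < n₀
  · simp only [if_pos hx]
    rw [cnt_const]
    constructor
    · intro hL
      have : tb x = true := by simp only [tb]; exact decide_eq_true hL
      rw [this]
      simp only [if_true]
      omega
    · intro hL
      have : tb x = false := by simp only [tb]; exact decide_eq_false hL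
      rw [this]
      simp
  · simp only [if_neg hx]
    have h1 : cnt (fun l => A (pre i (wv x ((l.drop (i + 1)).take (4 * n)))))
        ((i + 4) * n + (i + 4)) = 2 ^ (i + 1) * (2 ^ (2 + (i * n + 1)) * (2 ^ n *
          ((blk (i, x)).filter (fun q => A q = true)).card)) := by
      rw [hT, cnt_drop (fun l => A (pre i (wv x (l.take (4 * n))))),
        cnt_take (4 * n) (2 + (i * n + 1)) (fun l => A (pre i (wv x l))),
        cnt_wv x (fun y => A (pre i y)), card_blk_filter]
    rw [h1]
    have h2 : 2 ^ ((i + 4) * n + (i + 4)) = 2 ^ (i + 1) * (2 ^ (2 + (i * n + 1)) * (2 ^ n *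
        8 ^ n)) := by
      rw [show (8 : ℕ) = 2 ^ 3 by norm_num, ← pow_mul, ← pow_add, ← pow_add, ← pow_add]
      congr 1
      ring
    rw [h2]
    have h3 := h x (by omega)
    rw [card_blk] at h3
    simp only at h3
    rw [← hn] at h3
    set F := ((blk (i, x)).filter (fun q => A q = true)).card with hF
    have h4 : F + ((blk (i, x)).filter (fun q => ¬ A q = true)).card = 8 ^ n := by
      rw [hF, Finset.card_filter_add_card_filter_not, card_blk]
    constructor
    · intro hL
      have h5 : (blk (i, x)).filter (fun q => A q ≠ decide (x ∈ L)) =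
          (blk (i, x)).filter (fun q => ¬ A q = true) := by
        refine Finset.filter_congr (fun q _ => ?_)
        rw [decide_eq_true hL]
      rw [h5] at h3
      have h6 : 2 * 8 ^ n ≤ 3 * F := by omega
      calc 2 * (2 ^ (i + 1) * (2 ^ (2 + (i * n + 1)) * (2 ^ n * 8 ^ n))) =
            2 ^ (i + 1) * (2 ^ (2 + (i * n + 1)) * (2 ^ n * (2 * 8 ^ n))) := by ring
        _ ≤ 2 ^ (i + 1) * (2 ^ (2 + (i * n + 1)) * (2 ^ n * (3 * F))) :=
          Nat.mul_le_mul_left _ (Nat.mul_le_mul_left _ (Nat.mul_le_mul_left _ h6))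
        _ = 3 * (2 ^ (i + 1) * (2 ^ (2 + (i * n + 1)) * (2 ^ n * F))) := by ring
    · intro hL
      have h5 : (blk (i, x)).filter (fun q => A q ≠ decide (x ∈ L)) =
          (blk (i, x)).filter (fun q => A q = true) := by
        refine Finset.filter_congr (fun q _ => ?_)
        rw [decide_eq_false hL]
        simp
      rw [h5] at h3
      have h6 : 3 * F ≤ 8 ^ n := by omega
      calc 3 * (2 ^ (i + 1) * (2 ^ (2 + (i * n + 1)) * (2 ^ n * F))) =
            2 ^ (i + 1) * (2 ^ (2 + (i * n + 1)) * (2 ^ n * (3 * F))) := by ring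
        _ ≤ 2 ^ (i + 1) * (2 ^ (2 + (i * n + 1)) * (2 ^ n * 8 ^ n)) :=
          Nat.mul_le_mul_left _ (Nat.mul_le_mul_left _ (Nat.mul_le_mul_left _ h6))

end Pool.Agent.H65.BP
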