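import Pool.Agent.H65.BP.Trees

set_option autoImplicit false

/-!
# The construction of the oracle
-/

namespace Pool.Agent.H65.BP

open DT

variable {θ : ℕ → ℕ}

/-- fix the oracle at the strings of `E` and at everything which matters for inputs shorter than
`N'` -/
def Cond.freeze (C : Cond) (A : List Bool → Bool) (E : Finset (List Bool)) (N' : ℕ) : Cond where
  J := C.J
  T := C.T
  N := N'
  fr := C.fr ∪ E ∪ (C.J ×ˢ shorts N').biUnion (fun v =>
    if C.N ≤ v.2.length then blk v ∪ ((C.T v).path A).toFinset else ∅)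
  a := A

theorem Cond.Good.freeze (hθ : Adm θ) {C : Cond} {k c : ℕ} (h : C.Good θ k c) {A : List Bool → Bool}
    (hA : A ∈ C.sat k) (E : Finset (List Bool)) :
    ∃ n₀, ∀ N' ≥ n₀, (C.freeze A E N').Good θ k c ∧ (C.freeze A E N').sat k ⊆ C.sat k := by
  classical
  obtain ⟨n₀, hn₀⟩ := freeze_eventually hθ c (C.fr.card + E.card) k
  refine ⟨max C.N n₀, fun N' hN' => ?_⟩
  have hN1 : C.N ≤ N' := (le_max_left _ _).trans hN'
  have hN2 : n₀ ≤ N' := (le_max_right _ _).trans hN'
  refine ⟨⟨h.sub, fun w hw hN => h.dep w hw (hN1.trans hN), fun w hw => ?_,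
    fun n hn => h.num n (hN1.trans hn), h.pos.trans hN1⟩, ?_⟩
  · have h1 : (blk w).filter (fun q => q ∈ (C.freeze A E N').fr) ⊆ (C.fr ∪ E) ∪
        (C.J ×ˢ shorts N').biUnion (fun v =>
          if C.N ≤ v.2.length then ((C.T v).path A).toFinset else ∅) := by
      intro q hq
      rw [Finset.mem_filter] at hq
      obtain ⟨hqw, hq⟩ := hq
      unfold Cond.freeze at hq
      rw [Finset.mem_union] at hq ⊢
      rcases hq with hq | hq
      · exact Or.inl hq
      · right
        rw [Finset.mem_biUnion] at hq ⊢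
        obtain ⟨v, hv, hq⟩ := hq
        refine ⟨v, hv, ?_⟩
        split_ifs at hq ⊢ with hNv
        · rw [Finset.mem_union] at hq
          rcases hq with hq | hq
          · exfalso
            have e := blk_disj _ _ _ hq hqw
            subst e
            rw [Finset.mem_product, mem_shorts] at hv
            have : N' ≤ v.2.length := hw
            omega
          · exact hq
        · simp at hq
    have h2 : ((C.J ×ˢ shorts N').biUnion (fun v =>
        if C.N ≤ v.2.length then ((C.T v).path A).toFinset else ∅)).card ≤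
        k * 2 ^ N' * bd θ c N' := by
      refine (Finset.card_biUnion_le_card_mul _ _ (bd θ c N') (fun v hv => ?_)).trans ?_
      · rw [Finset.mem_product, mem_shorts] at hv
        split_ifs with hNv
        · exact (List.toFinset_card_le _).trans ((DT.path_length_le _ _).trans
            ((h.dep v hv.1 hNv).trans (bd_mono hθ c hv.2.le)))
        · simp
      · refine Nat.mul_le_mul_right _ ?_
        rw [Finset.card_product]
        refine Nat.mul_le_mul h.card ?_
        have := card_shorts N'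
        omega
    have h3 := (Finset.card_le_card h1).trans (Finset.card_union_le _ _)
    have h4 := Finset.card_union_le C.fr E
    have h5 := hn₀ N' hN2
    have h6 : 2 ^ (2 * N') ≤ 2 ^ (2 * w.2.length) :=
      Nat.pow_le_pow_right (by omega) (Nat.mul_le_mul_left _ hw)
    omega
  · rintro X ⟨hX1, hX2⟩
    have hfr : ∀ q ∈ C.fr, q ∈ (C.freeze A E N').fr := by
      intro q hq
      unfold Cond.freeze
      rw [Finset.mem_union, Finset.mem_union]
      exact Or.inl (Or.inl hq)
    refine ⟨fun q hq => ?_, fun w hw hN => ?_⟩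
    · rw [hX1 q (hfr q hq)]
      exact hA.1 q hq
    · rcases Nat.lt_or_ge w.2.length N' with hlt | hge
      · have h1 : ∀ q, q ∈ blk w ∨ q ∈ (C.T w).path A → X q = A q := by
          intro q hq
          refine hX1 q ?_
          unfold Cond.freeze
          rw [Finset.mem_union, Finset.mem_biUnion]
          refine Or.inr ⟨w, Finset.mem_product.mpr ⟨hw, mem_shorts.mpr hlt⟩, ?_⟩
          rw [if_pos hN, Finset.mem_union, List.mem_toFinset]
          exact hq
        have h2 : wrong C.T X w = wrong C.T A w := by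
          ext q
          rw [mem_wrong, mem_wrong, (DT.agree (fun q hq => (h1 q (Or.inr hq)).symm)).2]
          constructor
          · rintro ⟨a1, a2⟩
            rw [h1 q (Or.inl a1)] at a2
            exact ⟨a1, a2⟩
          · rintro ⟨a1, a2⟩
            rw [h1 q (Or.inl a1)]
            exact ⟨a1, a2⟩
        rw [h2]
        exact hA.2 w hw hN
      · exact hX2 w hw hge

theorem Cond.Good.nonempty (hθ : Adm θ) {C : Cond} {k c : ℕ} (h : C.Good θ k c) : (C.sat k).Nonempty := by
  obtain ⟨F, hF, _⟩ := h.complete hθ (j := k) (by omega) 0 (Z := C.a) (fun _ _ => rfl)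
    (fun w _ _ hlt => absurd hlt (Nat.not_lt_zero _))
  exact ⟨F, hF⟩

theorem Cond.sat_anti (C : Cond) (k : ℕ) : C.sat (k + 1) ⊆ C.sat k :=
  fun _ hX => ⟨hX.1, fun w hw hN => (hX.2 w hw hN).trans (slk_anti _ _)⟩

/-- the requirement for the machine with index `k` -/
def Req (M : PM θ) (k : ℕ) (A : List Bool → Bool) : Prop :=
  (∃ z, ¬ Sys.Valid (M.run z) A) ∨
  ∃ n, ∀ z : List Bool, n ≤ z.length →
    4 * ((blk (k, z)).filter (fun q => A q ≠ Sys.ans (M.run z) A)).card ≤ (blk (k, z)).card

/-- **One stage.** -/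
theorem Cond.Good.step (hθ : Adm θ) {C : Cond} {k c : ℕ} (h : C.Good θ k c) (M : PM θ) :
    ∃ (c' : ℕ) (C' : Cond), C'.Good θ (k + 1) c' ∧ C'.sat (k + 1) ⊆ C.sat k ∧
      ∀ A ∈ C'.sat (k + 1), Req M k A := by
  classical
  by_cases hinv : ∃ A ∈ C.sat k, ∃ z, ¬ Sys.Valid (M.run z) A
  · obtain ⟨A, hA, z, hz⟩ := hinv
    let E : Finset (List Bool) := Finset.univ.biUnion (fun ω => ((M.run z ω).path A).toFinset)
    obtain ⟨n₀, hn₀⟩ := h.freeze hθ hA E
    obtain ⟨n₁, hn₁⟩ := NC_eventually hθ (k + 1) c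
    obtain ⟨hG, hsub⟩ := hn₀ (max n₀ n₁) (le_max_left _ _)
    refine ⟨c, C.freeze A E (max n₀ n₁), ⟨?_, hG.dep, hG.frs, fun n hn => hn₁ n
      ((le_max_right _ _).trans hn), hG.pos⟩, (Cond.sat_anti _ _).trans hsub,
      fun A' hA' => Or.inl ⟨z, fun hv => hz ?_⟩⟩
    · exact hG.sub.trans (Finset.range_mono (by omega))
    · have h1 : ∀ ω, (M.run z ω).eval A' = (M.run z ω).eval A := by
        intro ω
        refine (DT.agree (fun q hq => ?_)).2
        refine (hA'.1 q ?_).symm
        unfold Cond.freeze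
        simp only [Finset.mem_union, E, Finset.mem_biUnion, Finset.mem_univ, true_and,
          List.mem_toFinset]
        exact Or.inl (Or.inr ⟨ω, hq⟩)
      unfold Sys.Valid Sys.acc at hv ⊢
      simp only [h1] at hv
      exact hv
  · push Not at hinv
    obtain ⟨A, hA⟩ := h.nonempty hθ
    obtain ⟨c₂, hc₂⟩ := IsBd_DF hθ k c M.κ
    obtain ⟨n₀, hn₀⟩ := h.freeze hθ hA ∅
    obtain ⟨n₁, hn₁⟩ := NC_eventually hθ (k + 1) (max c c₂)
    obtain ⟨hG, hsub⟩ := hn₀ (max n₀ n₁) (le_max_left _ _)
    set C₁ := C.freeze A ∅ (max n₀ n₁) with hC₁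
    have hqp : ∀ c₀ ≤ max c c₂, ∀ n, bd θ c₀ n ≤ bd θ (max c c₂) n := fun c₀ hc₀ n =>
      bd_le hθ hc₀ n
    choose Tz hTz1 hTz2 using hG.new_tree hθ M (fun X hX z => hinv X (hsub hX) z)
    have hkJ : k ∉ C₁.J := fun hk => by
      have := hG.sub hk
      simp at this
    have hC₁N : C₁.N = max n₀ n₁ := rfl
    let C' : Cond :=
      { J := insert k C₁.J
        T := fun w => if w.1 = k then Tz w.2 else C₁.T w
        N := C₁.N
        fr := C₁.fr
        a := C₁.a }
    have hT1 : ∀ w : ℕ × List Bool, w.1 = k → C'.T w = Tz w.2 := fun w hw => by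
      simp only [C', if_pos hw]
    have hT2 : ∀ w : ℕ × List Bool, w.1 ∈ C₁.J → C'.T w = C₁.T w := fun w hw => by
      have : w.1 ≠ k := fun h => hkJ (h ▸ hw)
      simp only [C', if_neg this]
    have hsub' : C'.sat (k + 1) ⊆ C₁.sat (k + 1) := by
      rintro X ⟨hX1, hX2⟩
      refine ⟨hX1, fun w hw hN => ?_⟩
      have h1 := hX2 w (Finset.mem_insert_of_mem hw) hN
      unfold wrong at h1 ⊢
      rwa [hT2 w hw] at h1
    refine ⟨max c c₂, C', ⟨?_, ?_, hG.frs, fun n hn => ?_, hG.pos⟩,
      hsub'.trans ((Cond.sat_anti _ _).trans hsub), fun A' hA' => ?_⟩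
    · intro j hj
      rcases Finset.mem_insert.mp hj with rfl | hj
      · simp
      · have := hG.sub hj
        rw [Finset.mem_range] at this ⊢
        omega
    · intro w hw hN
      rcases Finset.mem_insert.mp hw with hw | hw
      · rw [hT1 w hw]
        exact (hTz1 w.2).trans ((hc₂ _).trans (hqp c₂ (le_max_right _ _) _))
      · rw [hT2 w hw]
        exact (hG.dep w hw hN).trans (hqp c (le_max_left _ _) _)
    · refine hn₁ n (le_trans (le_max_right n₀ _) ?_)
      exact hn
    · refine Or.inr ⟨C₁.N, fun z hz => ?_⟩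
      have h1 := hA'.2 (k, z) (Finset.mem_insert_self _ _) hz
      have h2 : (C'.T (k, z)).eval A' = Sys.ans (M.run z) A' := by
        rw [hT1 (k, z) rfl]
        exact hTz2 z A' (hsub' hA')
      unfold wrong at h1
      rw [h2] at h1
      have h3 := (hG.num z.length hz).slk
      have h4 : slk k z.length ≤ 8 ^ z.length := by
        unfold slk
        rw [show (8 : ℕ) = 2 ^ 3 by norm_num, ← pow_mul]
        exact Nat.pow_le_pow_right (by omega) (by omega)
      rw [card_blk]
      simp only at h1 ⊢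
      omega

/-! ### compactness -/

theorem isClosed_of_dep (F : Finset (List Bool)) (U : Set (List Bool → Bool))
    (h : ∀ X Y, (∀ q ∈ F, X q = Y q) → X ∈ U → Y ∈ U) : IsClosed U := by
  let r : (List Bool → Bool) → (F → Bool) := fun X q => X q
  have hr : Continuous r := continuous_pi (fun q => continuous_apply _)
  have e : U = r ⁻¹' (r '' U) := by
    ext Y
    constructor
    · intro hY
      exact ⟨Y, hY, rfl⟩
    · rintro ⟨X, hX, hXY⟩
      exact h X Y (fun q hq => congrFun hXY ⟨q, hq⟩) hX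
  rw [e]
  exact (isClosed_discrete _).preimage hr

theorem Cond.isClosed_sat (C : Cond) (k : ℕ) : IsClosed (C.sat k) := by
  classical
  have h1 : C.sat k = {X | ∀ q ∈ C.fr, X q = C.a q} ∩
      ⋂ w : ℕ × List Bool, {X | w.1 ∈ C.J → C.N ≤ w.2.length →
        (wrong C.T X w).card ≤ slk k w.2.length} := by
    ext X
    simp only [Cond.sat, Set.mem_ofPred_eq, Set.mem_inter_iff, Set.mem_iInter]
  rw [h1]
  refine IsClosed.inter ?_ (isClosed_iInter (fun w => ?_))
  · exact isClosed_of_dep C.fr _ (fun X Y hXY hX q hq => by rw [← hXY q hq]; exact hX q hq)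
  · refine isClosed_of_dep (blk w ∪ (C.T w).support) _ (fun X Y hXY hX hw hN => ?_)
    have h2 : ∀ q ∈ (C.T w).path X, X q = Y q := fun q hq =>
      hXY q (Finset.mem_union_right _ (DT.mem_support hq))
    have h3 : wrong C.T Y w = wrong C.T X w := by
      ext q
      rw [mem_wrong, mem_wrong, (DT.agree h2).2]
      constructor
      · rintro ⟨a1, a2⟩
        rw [← hXY q (Finset.mem_union_left _ a1)] at a2
        exact ⟨a1, a2⟩
      · rintro ⟨a1, a2⟩
        rw [← hXY q (Finset.mem_union_left _ a1)]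
        exact ⟨a1, a2⟩
    rw [h3]
    exact hX hw hN

/-- **The oracle.** -/
theorem exists_oracle (hθ : Adm θ) (M : ℕ → PM θ) : ∃ A : List Bool → Bool, ∀ k, Req (M k) k A := by
  classical
  let St : ℕ → Type := fun k => {p : ℕ × Cond // p.2.Good θ k p.1}
  have hstep : ∀ (k : ℕ) (p : St k), ∃ p' : St (k + 1), p'.1.2.sat (k + 1) ⊆ p.1.2.sat k ∧
      ∀ A ∈ p'.1.2.sat (k + 1), Req (M k) k A := by
    rintro k ⟨⟨c, C⟩, hG⟩
    obtain ⟨c', C', h1, h2, h3⟩ := hG.step hθ (M k)
    exact ⟨⟨(c', C'), h1⟩, h2, h3⟩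
  choose f hf1 hf2 using hstep
  obtain ⟨n₀, hn₀⟩ := NC_eventually hθ 0 0
  let C₀ : Cond :=
    { J := ∅
      T := fun _ => DT.out false
      N := max 1 n₀
      fr := ∅
      a := fun _ => false }
  have hC₀ : C₀.Good θ 0 0 := ⟨by simp [C₀], fun w hw => by simp [C₀] at hw,
    fun w _ => by simp [C₀], fun n hn => hn₀ n ((le_max_right _ _).trans hn), le_max_left _ _⟩
  let s : (k : ℕ) → St k := fun k => Nat.rec (⟨(0, C₀), hC₀⟩ : St 0) (fun k p => f k p) k
  have hs : ∀ k, s (k + 1) = f k (s k) := fun k => rfl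
  let K : ℕ → Set (List Bool → Bool) := fun k => (s k).1.2.sat k
  have hK1 : ∀ k, K (k + 1) ⊆ K k := fun k => by
    simp only [K]
    rw [hs]
    exact hf1 k (s k)
  have hK2 : ∀ k, (K k).Nonempty := fun k => (s k).2.nonempty hθ
  have hK3 : ∀ k, IsClosed (K k) := fun k => Cond.isClosed_sat _ _
  obtain ⟨A, hA⟩ := IsCompact.nonempty_iInter_of_sequence_nonempty_isCompact_isClosed K hK1 hK2
    (hK3 0).isCompact hK3
  refine ⟨A, fun k => ?_⟩
  have h1 : A ∈ K (k + 1) := Set.mem_iInter.mp hA (k + 1)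
  simp only [K] at h1
  rw [hs] at h1
  exact hf2 k (s k) A h1

end Pool.Agent.H65.BP
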