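import Pool.Agent.H65.BP.Final

set_option autoImplicit false

/-!
# An oracle with a strict hierarchy
-/

namespace Pool.Agent.H65.BP

open DT

/-! ### the machine -/

/-- transitions -/
def wNext (q : Fin (4 + 1)) (a : Fin (0 + 2) → Fin (0 + 3)) (_ r : Bool) :
    Fin (4 + 1) × (Fin (0 + 2) → Fin (0 + 3)) × (Fin (0 + 2) → Fin 3) :=
  if q = 0 then
    if a 0 = 0 then (1, a, fun _ => 1) else (0, ![a 0, bitSym 0 false], ![2, 2])
  else if q = 1 then
    if r = true then (2, ![a 0, bitSym 0 false], ![1, 2]) else (1, ![a 0, bitSym 0 true], ![1, 2])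
  else (if r = true then 3 else 4, a, fun _ => 1)

/-- the machine -/
def wM : PTM (Fin (4 + 1)) 0 0 where
  start := 0
  kind := ![Kind.work, Kind.query, Kind.query, Kind.accept, Kind.reject]
  next := wNext

/-- a configuration: `x` on the input tape, `y` on the oracle tape -/
def wcf (q : Fin (4 + 1)) (h : ℕ) (x y : List Bool) : Cfg (Fin (4 + 1)) 0 0 where
  st := q
  hd := ![h, y.length]
  tp := ![strTape 0 x, strTape 0 y]

theorem init_wcf (x : List Bool) : wM.init x = wcf 0 0 x [] := by
  refine cfg_ext rfl rfl rfl rfl ?_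
  funext j
  exact (strTape_ge (g := 0) (y := []) (Nat.zero_le j)).symm

theorem stepWith_wcf {q : Fin (4 + 1)} (hq : wM.kind q = Kind.work ∨ wM.kind q = Kind.query)
    {h : ℕ} {x y : List Bool} {b r : Bool} :
    wM.stepWith b r (wcf q h x y) =
      { st := (wNext q ![strTape 0 x h, strTape 0 y y.length] b r).1
        hd := fun i => moveHead ((wNext q ![strTape 0 x h, strTape 0 y y.length] b r).2.2 i)
          ((wcf q h x y).hd i)
        tp := fun i => Function.update ((wcf q h x y).tp i) ((wcf q h x y).hd i)
          ((wNext q ![strTape 0 x h, strTape 0 y y.length] b r).2.1 i) } := by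
  have hk : ¬ (wM.kind (wcf q h x y).st = Kind.accept ∨
      wM.kind (wcf q h x y).st = Kind.reject) := by
    have e : (wcf q h x y).st = q := rfl
    rw [e]
    rcases hq with hq | hq <;> rw [hq] <;> decide
  have ha : (fun i => (wcf q h x y).tp i ((wcf q h x y).hd i)) =
      ![strTape 0 x h, strTape 0 y y.length] := by
    funext j
    match j with
    | ⟨0, _⟩ => rfl
    | ⟨1, _⟩ => rfl
  unfold PTM.stepWith
  rw [if_neg hk, ha]
  rfl

section

variable {A : List Bool → Bool} {h : ℕ} {x y : List Bool} {b : Bool}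

theorem w1 (hx : h < x.length) :
    wM.step A (wcf 0 h x y) b = wcf 0 (h + 1) x (y ++ [false]) := by
  have hk : wM.kind (wcf 0 h x y).st ≠ Kind.query := by
    show Kind.work ≠ Kind.query
    decide
  unfold PTM.step
  rw [if_neg hk, stepWith_wcf (Or.inl rfl)]
  have hn : wNext 0 ![strTape 0 x h, strTape 0 y y.length] b false =
      (0, ![strTape 0 x h, bitSym 0 false], ![2, 2]) := by
    unfold wNext
    rw [if_pos rfl, if_neg]
    · rfl
    · show strTape 0 x h ≠ 0
      rw [strTape_lt hx]
      exact bitSym_ne_zero 0 _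
  rw [hn]
  refine cfg_ext rfl ?_ ?_ ?_ ?_
  · simp [wcf, moveHead]
  · simp [wcf, moveHead]
  · exact Function.update_eq_self _ _
  · exact update_strTape 0 y false

theorem w2 (hx : x.length ≤ h) :
    wM.step A (wcf 0 h x y) b = wcf 1 h x y := by
  have hk : wM.kind (wcf 0 h x y).st ≠ Kind.query := by
    show Kind.work ≠ Kind.query
    decide
  unfold PTM.step
  rw [if_neg hk, stepWith_wcf (Or.inl rfl)]
  have hn : wNext 0 ![strTape 0 x h, strTape 0 y y.length] b false =
      (1, ![strTape 0 x h, strTape 0 y y.length], fun _ => 1) := by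
    unfold wNext
    rw [if_pos rfl, if_pos]
    show strTape 0 x h = 0
    exact strTape_ge hx
  rw [hn]
  refine cfg_ext rfl ?_ ?_ ?_ ?_
  · simp [wcf, moveHead]
  · simp [wcf, moveHead]
  · exact Function.update_eq_self _ _
  · exact Function.update_eq_self _ _

theorem w3 (hA : A y = false) :
    wM.step A (wcf 1 h x y) b = wcf 1 h x (y ++ [true]) := by
  have hk : wM.kind (wcf 1 h x y).st = Kind.query := rfl
  have ht : tapeStr ((wcf 1 h x y).tp 1) = y := tapeStr_strTape 0 y
  unfold PTM.step
  rw [if_pos hk, ht, hA, stepWith_wcf (Or.inr rfl)]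
  have hn : wNext 1 ![strTape 0 x h, strTape 0 y y.length] b false =
      (1, ![strTape 0 x h, bitSym 0 true], ![1, 2]) := by
    unfold wNext
    rw [if_neg (by decide), if_pos rfl, if_neg (by decide)]
    rfl
  rw [hn]
  refine cfg_ext rfl ?_ ?_ ?_ ?_
  · simp [wcf, moveHead]
  · simp [wcf, moveHead]
  · exact Function.update_eq_self _ _
  · exact update_strTape 0 y true

theorem w4 (hA : A y = true) :
    wM.step A (wcf 1 h x y) b = wcf 2 h x (y ++ [false]) := by
  have hk : wM.kind (wcf 1 h x y).st = Kind.query := rfl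
  have ht : tapeStr ((wcf 1 h x y).tp 1) = y := tapeStr_strTape 0 y
  unfold PTM.step
  rw [if_pos hk, ht, hA, stepWith_wcf (Or.inr rfl)]
  have hn : wNext 1 ![strTape 0 x h, strTape 0 y y.length] b true =
      (2, ![strTape 0 x h, bitSym 0 false], ![1, 2]) := by
    unfold wNext
    rw [if_neg (by decide), if_pos rfl, if_pos rfl]
    rfl
  rw [hn]
  refine cfg_ext rfl ?_ ?_ ?_ ?_
  · simp [wcf, moveHead]
  · simp [wcf, moveHead]
  · exact Function.update_eq_self _ _
  · exact update_strTape 0 y false

theorem w5 : (wM.step A (wcf 2 h x y) b).st = if A y = true then 3 else 4 := by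
  have hk : wM.kind (wcf 2 h x y).st = Kind.query := rfl
  have ht : tapeStr ((wcf 2 h x y).tp 1) = y := tapeStr_strTape 0 y
  unfold PTM.step
  rw [if_pos hk, ht, stepWith_wcf (Or.inr rfl)]
  have hn : (wNext 2 ![strTape 0 x h, strTape 0 y y.length] b (A y)).1 =
      if A y = true then 3 else 4 := by
    unfold wNext
    rw [if_neg (by decide), if_neg (by decide)]
  exact hn

end

theorem run1 (A : List Bool → Bool) (x : List Bool) : ∀ (l : List Bool) (h : ℕ) (y : List Bool),
    h + l.length ≤ x.length → wM.runFrom A (wcf 0 h x y) l =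
      wcf 0 (h + l.length) x (y ++ List.replicate l.length false) := by
  intro l
  induction l with
  | nil => intro h y _; simp [PTM.runFrom]
  | cons b l ih =>
    intro h y hl
    rw [List.length_cons] at hl
    have h1 : wM.runFrom A (wcf 0 h x y) (b :: l) =
      wM.runFrom A (wM.step A (wcf 0 h x y) b) l := rfl
    rw [h1, w1 (by omega), ih _ _ (by omega), List.length_cons, List.append_assoc]
    rw [show h + 1 + l.length = h + (l.length + 1) by ring]
    rfl

theorem run3 (A : List Bool → Bool) (h : ℕ) (x : List Bool) : ∀ (l : List Bool) (y : List Bool),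
    (∀ j < l.length, A (y ++ List.replicate j true) = false) → wM.runFrom A (wcf 1 h x y) l =
      wcf 1 h x (y ++ List.replicate l.length true) := by
  intro l
  induction l with
  | nil => intro y _; simp [PTM.runFrom]
  | cons b l ih =>
    intro y hl
    have h1 : wM.runFrom A (wcf 1 h x y) (b :: l) =
      wM.runFrom A (wM.step A (wcf 1 h x y) b) l := rfl
    have h2 : A y = false := by
      have := hl 0 (by simp)
      simpa using this
    rw [h1, w3 h2, ih, List.length_cons, List.append_assoc]
    · rfl
    · intro j hj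
      have := hl (j + 1) (by rw [List.length_cons]; omega)
      rw [List.append_assoc]
      exact this

/-! ### the strings -/

/-- the strings `0ⁿ1ʲ` -/
def us (n j : ℕ) : List Bool := List.replicate n false ++ List.replicate j true

/-- the strings carrying the information -/
def vs (n : ℕ) : List Bool := us n (n ^ 2 + 1) ++ [false]

theorem us_inj {n j n' j' : ℕ} (h : us n j = us n' j') : n = n' ∧ j = j' := by
  have h1 := congrArg (List.count false) h
  have h2 := congrArg (List.count true) h
  unfold us at h1 h2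
  simp [List.count_append, List.count_replicate] at h1 h2
  exact ⟨h1, h2⟩

theorem us_ne_vs (n j n' : ℕ) : us n j ≠ vs n' := by
  intro h
  have h1 : true ∈ vs n' := by
    unfold vs us
    simp
  rw [← h] at h1
  obtain ⟨j, rfl⟩ : ∃ i, j = i + 1 := by
    cases j with
    | zero => unfold us at h1; simp at h1
    | succ i => exact ⟨i, rfl⟩
  have h2 : us n (j + 1) = us n j ++ [true] := by
    unfold us
    rw [List.append_assoc, List.replicate_succ']
  rw [h2] at h
  have h3 := (List.append_inj' h rfl).2
  simp at h3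

theorem vs_inj {n n' : ℕ} (h : vs n = vs n') : n = n' :=
  (us_inj (List.append_inj' h rfl).1).1

theorem vs_length (n : ℕ) : (vs n).length = n + n ^ 2 + 2 := by
  unfold vs us
  simp
  ring

open Classical in
/-- the oracle given by the sequence `D` -/
noncomputable def orc (D : ℕ → Bool) (y : List Bool) : Bool :=
  decide ((∃ n j, n ^ 2 < j ∧ y = us n j) ∨ ∃ n, D n = true ∧ y = vs n)

theorem orc_us (D : ℕ → Bool) (n j : ℕ) : orc D (us n j) = decide (n ^ 2 < j) := by
  unfold orc
  rw [decide_eq_decide]
  constructor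
  · rintro (⟨n', j', h, h'⟩ | ⟨n', _, h⟩)
    · obtain ⟨rfl, rfl⟩ := us_inj h'
      exact h
    · exact absurd h (us_ne_vs _ _ _)
  · intro h
    exact Or.inl ⟨n, j, h, rfl⟩

theorem orc_vs (D : ℕ → Bool) (n : ℕ) : orc D (vs n) = D n := by
  classical
  unfold orc
  rw [Bool.eq_iff_iff, decide_eq_true_eq]
  constructor
  · rintro (⟨n', j', h, h'⟩ | ⟨n', h, h'⟩)
    · exact absurd h'.symm (us_ne_vs _ _ _)
    · rw [vs_inj h']
      exact h
  · intro h
    exact Or.inr ⟨n, h, rfl⟩

theorem orc_congr {D D' : ℕ → Bool} {n : ℕ} (h : ∀ m < n, D m = D' m) {y : List Bool}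
    (hy : y.length < n + n ^ 2 + 2) : orc D y = orc D' y := by
  have key : ∀ m, y = vs m → m < n := by
    rintro m rfl
    rw [vs_length] at hy
    by_contra hcon
    push Not at hcon
    have := Nat.pow_le_pow_left hcon 2
    omega
  unfold orc
  rw [decide_eq_decide]
  constructor
  · rintro (h' | ⟨m, hm, rfl⟩)
    · exact Or.inl h'
    · exact Or.inr ⟨m, by rw [← h m (key m rfl)]; exact hm, rfl⟩
  · rintro (h' | ⟨m, hm, rfl⟩)
    · exact Or.inl h'
    · exact Or.inr ⟨m, by rw [h m (key m rfl)]; exact hm, rfl⟩

/-- the language -/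
def LD (D : ℕ → Bool) : Set (List Bool) := {x | D x.length = true}

theorem wM_result (D : ℕ → Bool) (x l : List Bool) (hl : x.length + x.length ^ 2 + 4 ≤ l.length) :
    wM.result (orc D) x l = if D x.length = true then Kind.accept else Kind.reject := by
  set n := x.length with hn
  have h1 : l = l.take n ++ ((l.drop n).take 1 ++ (((l.drop n).drop 1).take (n ^ 2 + 1) ++
      ((((l.drop n).drop 1).drop (n ^ 2 + 1)).take 1 ++
      (((((l.drop n).drop 1).drop (n ^ 2 + 1)).drop 1).take 1 ++
      ((((l.drop n).drop 1).drop (n ^ 2 + 1)).drop 1).drop 1)))) := by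
    simp only [List.take_append_drop]
  obtain ⟨l₁, l₂, l₃, l₄, l₅, l₆, rfl, e1, e2, e3, e4, e5⟩ : ∃ l₁ l₂ l₃ l₄ l₅ l₆ : List Bool,
      l = l₁ ++ (l₂ ++ (l₃ ++ (l₄ ++ (l₅ ++ l₆)))) ∧ l₁.length = n ∧ l₂.length = 1 ∧
      l₃.length = n ^ 2 + 1 ∧ l₄.length = 1 ∧ l₅.length = 1 := by
    refine ⟨_, _, _, _, _, _, h1, ?_, ?_, ?_, ?_, ?_⟩ <;>
    simp only [List.length_take, List.length_drop] <;> omega
  clear h1
  obtain ⟨b₂, rfl⟩ := List.length_eq_one_iff.mp e2
  obtain ⟨b₄, rfl⟩ := List.length_eq_one_iff.mp e4
  obtain ⟨b₅, rfl⟩ := List.length_eq_one_iff.mp e5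
  unfold PTM.result
  rw [init_wcf, runFrom_append, run1 _ _ _ _ _ (by omega), runFrom_append]
  have r2 : wM.runFrom (orc D) (wcf 0 (0 + l₁.length) x ([] ++ List.replicate l₁.length false))
      [b₂] = wcf 1 (0 + l₁.length) x ([] ++ List.replicate l₁.length false) := w2 (by omega)
  rw [r2, runFrom_append, run3]
  · have e : [] ++ List.replicate l₁.length false ++ List.replicate l₃.length true =
        us n (n ^ 2 + 1) := by
      unfold us
      rw [List.nil_append, e1, e3]
    rw [e, runFrom_append]
    have r4 : wM.runFrom (orc D) (wcf 1 (0 + l₁.length) x (us n (n ^ 2 + 1))) [b₄] =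
        wcf 2 (0 + l₁.length) x (vs n) := w4 (by rw [orc_us]; simp)
    rw [r4, runFrom_append]
    have r5 : (wM.runFrom (orc D) (wcf 2 (0 + l₁.length) x (vs n)) [b₅]).st =
        if D n = true then 3 else 4 := by
      rw [← orc_vs D n]
      exact w5
    have k3 : wM.kind 3 = Kind.accept := rfl
    have k4 : wM.kind 4 = Kind.reject := rfl
    rw [runFrom_halted]
    · rw [r5]
      split_ifs
      · exact k3
      · exact k4
    · rw [r5]
      split_ifs
      · exact Or.inl k3
      · exact Or.inr k4
  · intro j hj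
    rw [List.nil_append, e1]
    have := orc_us D n j
    unfold us at this
    rw [this]
    simp only [decide_eq_false_iff_not]
    omega

open Classical in
theorem upper (D : ℕ → Bool) : BPTIME (orc D) (fun n => n ^ 100) (LD D) := by
  refine ⟨4, 0, 0, wM, 5, fun x => ?_⟩
  have hT : x.length + x.length ^ 2 + 4 ≤ 5 * x.length ^ 100 + 5 := by
    rcases Nat.eq_zero_or_pos x.length with h | h
    · rw [h]; norm_num
    · have h1 : x.length ^ 1 ≤ x.length ^ 100 := Nat.pow_le_pow_right h (by omega)
      have h2 : x.length ^ 2 ≤ x.length ^ 100 := Nat.pow_le_pow_right h (by omega)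
      rw [pow_one] at h1
      omega
  have hres : ∀ ω : Fin (5 * x.length ^ 100 + 5) → Bool, wM.result (orc D) x (List.ofFn ω) =
      if D x.length = true then Kind.accept else Kind.reject := fun ω =>
    wM_result D x _ (by rw [List.length_ofFn]; exact hT)
  refine ⟨fun ω => ?_, fun hx => ?_, fun hx => ?_⟩
  · rw [hres]
    split_ifs
    · exact Or.inl rfl
    · exact Or.inr rfl
  · have hx' : D x.length = true := hx
    simp only [hres, if_pos hx', Finset.filter_true, Finset.card_univ, Fintype.card_fun,
      Fintype.card_bool, Fintype.card_fin]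
    omega
  · have hx' : ¬ D x.length = true := hx
    simp only [hres, if_neg hx']
    simp

/-! ### diagonalization -/

open Classical in
/-- the next bit -/
noncomputable def bit (a : AllM) (n : ℕ) (A : List Bool → Bool) : Bool :=
  !decide (2 * 2 ^ (a.2.2.2.2 * n + a.2.2.2.2) ≤
    3 * (Finset.univ.filter (fun ω : Fin (a.2.2.2.2 * n + a.2.2.2.2) → Bool =>
      a.2.2.2.1.result A (List.replicate n false) (List.ofFn ω) = Kind.accept)).card)

/-- finite approximations -/
noncomputable def Dl (e : ℕ → AllM) : ℕ → ℕ → Bool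
  | 0 => fun _ => false
  | n + 1 => Function.update (Dl e n) n (bit (e (Nat.unpair n).1) n (orc (Dl e n)))

/-- the sequence -/
noncomputable def DD (e : ℕ → AllM) (n : ℕ) : Bool := Dl e (n + 1) n

theorem Dl_eq (e : ℕ → AllM) {m n : ℕ} (h : m < n) : Dl e n m = DD e m := by
  induction n with
  | zero => omega
  | succ n ih =>
    rcases Nat.lt_or_ge m n with h1 | h1
    · rw [Dl, Function.update_of_ne h1.ne]
      exact ih h1
    · rw [show m = n by omega]
      rfl

theorem DD_eq (e : ℕ → AllM) (n : ℕ) :
    DD e n = bit (e (Nat.unpair n).1) n (orc (Dl e n)) := by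
  unfold DD
  rw [Dl, Function.update_self]

theorem result_congr {Q : Type} {g m : ℕ} (M : PTM Q g m) {A B : List Bool → Bool}
    {x l : List Bool} (h : ∀ q : List Bool, q.length ≤ l.length → A q = B q) :
    M.result A x l = Kind.accept ↔ M.result B x l = Kind.accept := by
  have h1 := eval_treeM M A l (M.init x)
  have h2 := eval_treeM M B l (M.init x)
  have h3 : (treeM M l (M.init x)).eval A = (treeM M l (M.init x)).eval B :=
    (DT.agree (fun q hq => (h q (by
      have := len_treeM M A l 0 _ (short_init M x) q hq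
      omega)))).2.symm
  unfold PTM.result
  rw [h1, h2, decide_eq_decide] at h3
  exact h3

open Classical in
/-- **Strictness.** -/
theorem exists_strict : ∃ (B : List Bool → Bool) (L : Set (List Bool)),
    BPTIME B (fun n => n ^ 100) L ∧ ¬ BPTIME B (fun n => n) L := by
  have hne : Nonempty AllM := ⟨⟨0, 0, 0, ⟨0, fun _ => Kind.accept, fun q a _ _ =>
    (q, a, fun _ => 0)⟩, 0⟩⟩
  obtain ⟨e, he⟩ := exists_surjective_nat AllM
  refine ⟨orc (DD e), LD (DD e), upper _, ?_⟩
  rintro ⟨s, g, m, M, c, hM⟩
  obtain ⟨k, hk⟩ := he ⟨s, g, m, M, c⟩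
  set n := Nat.pair k c with hn
  have hcn : c ≤ n := Nat.right_le_pair k c
  have hM' := hM (List.replicate n false)
  rw [List.length_replicate] at hM'
  have hb := DD_eq e n
  rw [hn, Nat.unpair_pair, hk, ← hn] at hb
  unfold bit at hb
  simp only at hb
  have hcount : ∀ ω : Fin (c * n + c) → Bool,
      M.result (orc (Dl e n)) (List.replicate n false) (List.ofFn ω) = Kind.accept ↔
      M.result (orc (DD e)) (List.replicate n false) (List.ofFn ω) = Kind.accept := by
    intro ω
    refine result_congr M (fun q hq => orc_congr (fun m hm => Dl_eq e hm) (n := n) ?_)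
    rw [List.length_ofFn] at hq
    have : c * n ≤ n * n := Nat.mul_le_mul_right _ hcn
    have h2 : n ^ 2 = n * n := by ring
    omega
  simp only [hcount] at hb
  have hpos : 0 < 2 ^ (c * n + c) := by positivity
  by_cases hx : DD e n = true
  · have h1 := hM'.2.1 (by
      show DD e (List.replicate n false).length = true
      rw [List.length_replicate]
      exact hx)
    rw [hx] at hb
    simp only [Bool.true_eq, Bool.not_eq_true', decide_eq_false_iff_not] at hb
    exact hb h1
  · have h1 : 3 * (Finset.univ.filter (fun ω : Fin (c * n + c) → Bool =>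
        M.result (orc (DD e)) (List.replicate n false) (List.ofFn ω) = Kind.accept)).card ≤
        2 ^ (c * n + c) := hM'.2.2 (by
      show ¬ DD e (List.replicate n false).length = true
      rw [List.length_replicate]
      exact hx)
    rw [Bool.not_eq_true] at hx
    rw [hx] at hb
    simp only [Bool.false_eq, Bool.not_eq_false', decide_eq_true_eq] at hb
    omega

end Pool.Agent.H65.BP
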