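import Pool.Agent.H65.BP.DT

set_option autoImplicit false

/-!
# Systems of blocks and decision trees
-/

namespace Pool.Agent.H65.BP

open DT

/-- A system: blocks `B v` of positions, layers `L v`, decision trees `T v`, and a set of active
indices `v`. -/
structure Sys (P V : Type) where
  B : V → Finset P
  L : V → ℕ
  T : V → DT P
  act : Set V
  disj : ∀ v w q, q ∈ B v → q ∈ B w → v = w

namespace Sys

variable {P V : Type} (S : Sys P V)

/-- the value of the tree of `w` -/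
def tv (X : P → Bool) (w : V) : Bool := (S.T w).eval X

/-- the positions read by the active trees of layer at most `i` -/
def Des (X : P → Bool) (i : ℕ) : Set P := {q | ∃ v ∈ S.act, S.L v ≤ i ∧ q ∈ (S.T v).path X}

open Classical in
/-- auxiliary sequence of states -/
noncomputable def cur (Y : P → Bool) (prot : Set P) (c : V → Bool → Prop) : ℕ → P → Bool
  | 0 => Y
  | i + 1 => fun q =>
    if h : ∃ w ∈ S.act, q ∈ S.B w ∧ S.L w = i ∧ c w (S.tv (cur Y prot c i) w) ∧
        q ∉ S.Des (cur Y prot c i) i ∧ q ∉ prot then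
      S.tv (cur Y prot c i) h.choose
    else cur Y prot c i q

variable {S}

theorem cur_succ_pos {Y : P → Bool} {prot : Set P} {c : V → Bool → Prop} {i : ℕ} {q : P} {w : V}
    (hw : w ∈ S.act) (hq : q ∈ S.B w) (hL : S.L w = i) (hc : c w (S.tv (S.cur Y prot c i) w))
    (hD : q ∉ S.Des (S.cur Y prot c i) i) (hp : q ∉ prot) :
    S.cur Y prot c (i + 1) q = S.tv (S.cur Y prot c i) w := by
  have h : ∃ w ∈ S.act, q ∈ S.B w ∧ S.L w = i ∧ c w (S.tv (S.cur Y prot c i) w) ∧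
      q ∉ S.Des (S.cur Y prot c i) i ∧ q ∉ prot := ⟨w, hw, hq, hL, hc, hD, hp⟩
  rw [cur]
  simp only [dif_pos h]
  rw [S.disj _ _ _ h.choose_spec.2.1 hq]

theorem cur_succ_neg {Y : P → Bool} {prot : Set P} {c : V → Bool → Prop} {i : ℕ} {q : P}
    (h : ¬ ∃ w ∈ S.act, q ∈ S.B w ∧ S.L w = i ∧ c w (S.tv (S.cur Y prot c i) w) ∧
      q ∉ S.Des (S.cur Y prot c i) i ∧ q ∉ prot) :
    S.cur Y prot c (i + 1) q = S.cur Y prot c i q := by
  rw [cur]
  simp only [dif_neg h]

/-- **The repaired state.** -/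
theorem exists_fix (S : Sys P V) (Y : P → Bool) (prot : Set P) (c : V → Bool → Prop) :
    ∃ F : P → Bool,
      (∀ q, F q ≠ Y q → ∃ w ∈ S.act, q ∈ S.B w ∧ c w (S.tv F w) ∧ q ∉ S.Des F (S.L w) ∧
        q ∉ prot) ∧
      (∀ w ∈ S.act, ∀ q ∈ S.B w, c w (S.tv F w) → q ∉ S.Des F (S.L w) → q ∉ prot →
        F q = S.tv F w) := by
  classical
  set C := S.cur Y prot c with hC
  -- paths are stable
  have h1 : ∀ v ∈ S.act, ∀ i, S.L v ≤ i → ∀ q ∈ (S.T v).path (C i), C i q = C (i + 1) q := by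
    intro v hv i hi q hq
    refine (cur_succ_neg ?_).symm
    rintro ⟨w, hw, hqw, hL, hc, hD, hp⟩
    exact hD ⟨v, hv, hi, hq⟩
  have h2 : ∀ v ∈ S.act, ∀ i, S.L v ≤ i → (S.T v).path (C (i + 1)) = (S.T v).path (C i) ∧
      (S.T v).eval (C (i + 1)) = (S.T v).eval (C i) := fun v hv i hi => DT.agree (h1 v hv i hi)
  have h3 : ∀ v ∈ S.act, ∀ i, S.L v ≤ i → ∀ k, (S.T v).path (C (i + k)) = (S.T v).path (C i) ∧
      (S.T v).eval (C (i + k)) = (S.T v).eval (C i) ∧
      ∀ q ∈ (S.T v).path (C i), C (i + k) q = C i q := by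
    intro v hv i hi k
    induction k with
    | zero => exact ⟨rfl, rfl, fun _ _ => rfl⟩
    | succ k ih =>
      obtain ⟨a1, a2, a3⟩ := ih
      obtain ⟨b1, b2⟩ := h2 v hv (i + k) (by omega)
      rw [← add_assoc]
      refine ⟨b1.trans a1, b2.trans a2, fun q hq => ?_⟩
      rw [← h1 v hv (i + k) (by omega) q (by rw [a1]; exact hq), a3 q hq]
  -- values stabilise
  have h4 : ∀ q i, C (i + 1) q ≠ C i q → ∃ w ∈ S.act, q ∈ S.B w ∧ S.L w = i := by
    intro q i h
    by_contra hcon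
    refine h (cur_succ_neg ?_)
    rintro ⟨w, hw, hqw, hL, _⟩
    exact hcon ⟨w, hw, hqw, hL⟩
  have h5 : ∀ w ∈ S.act, ∀ q ∈ S.B w, ∀ i, i ≤ S.L w → C i q = Y q := by
    intro w hw q hq i hi
    induction i with
    | zero => rfl
    | succ i ih =>
      by_contra hcon
      have h6 : C (i + 1) q ≠ C i q := by
        intro h; rw [h] at hcon; exact hcon (ih (by omega))
      obtain ⟨w', hw', hq', hL'⟩ := h4 q i h6
      rw [S.disj _ _ _ hq' hq] at hL'
      omega
  have h6 : ∀ w ∈ S.act, ∀ q ∈ S.B w, ∀ k, C (S.L w + 1 + k) q = C (S.L w + 1) q := by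
    intro w hw q hq k
    induction k with
    | zero => rfl
    | succ k ih =>
      by_contra hcon
      have h6 : C (S.L w + 1 + k + 1) q ≠ C (S.L w + 1 + k) q := by
        intro h; rw [← add_assoc] at hcon; rw [h] at hcon; exact hcon ih
      obtain ⟨w', hw', hq', hL'⟩ := h4 q _ h6
      rw [S.disj _ _ _ hq' hq] at hL'
      omega
  have h7 : ∀ q, (¬ ∃ w ∈ S.act, q ∈ S.B w) → ∀ i, C i q = Y q := by
    intro q hq i
    induction i with
    | zero => rfl
    | succ i ih =>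
      by_contra hcon
      have h6 : C (i + 1) q ≠ C i q := by
        intro h; rw [h] at hcon; exact hcon ih
      obtain ⟨w', hw', hq', _⟩ := h4 q i h6
      exact hq ⟨w', hw', hq'⟩
  let F : P → Bool := fun q => if h : ∃ w ∈ S.act, q ∈ S.B w then C (S.L h.choose + 1) q else Y q
  have hF1 : ∀ w ∈ S.act, ∀ q ∈ S.B w, F q = C (S.L w + 1) q := by
    intro w hw q hq
    have h : ∃ w ∈ S.act, q ∈ S.B w := ⟨w, hw, hq⟩
    simp only [F, dif_pos h]
    rw [S.disj _ _ _ h.choose_spec.2 hq]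
  have hF2 : ∀ q, (¬ ∃ w ∈ S.act, q ∈ S.B w) → F q = Y q := fun q hq => by
    simp only [F, dif_neg hq]
  -- for every `q` and `i` there is a later time with the final value
  have hF3 : ∀ q i, ∃ k, C (i + k) q = F q := by
    intro q i
    by_cases h : ∃ w ∈ S.act, q ∈ S.B w
    · obtain ⟨w, hw, hq⟩ := h
      refine ⟨S.L w + 1, ?_⟩
      rw [hF1 w hw q hq, show i + (S.L w + 1) = S.L w + 1 + i by ring]
      exact h6 w hw q hq i
    · exact ⟨0, by rw [hF2 q h]; exact h7 q h _⟩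
  have hF4 : ∀ v ∈ S.act, ∀ i, S.L v ≤ i → (S.T v).path F = (S.T v).path (C i) ∧
      (S.T v).eval F = (S.T v).eval (C i) := by
    intro v hv i hi
    refine DT.agree (fun q hq => ?_)
    obtain ⟨k, hk⟩ := hF3 q i
    rw [← hk]
    exact ((h3 v hv i hi k).2.2 q hq).symm
  have hF5 : ∀ i, S.Des F i = S.Des (C i) i := by
    intro i
    ext q
    constructor
    · rintro ⟨v, hv, hL, hq⟩
      exact ⟨v, hv, hL, by rw [← (hF4 v hv i hL).1]; exact hq⟩
    · rintro ⟨v, hv, hL, hq⟩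
      exact ⟨v, hv, hL, by rw [(hF4 v hv i hL).1]; exact hq⟩
  have hF6 : ∀ w ∈ S.act, S.tv F w = S.tv (C (S.L w)) w := fun w hw => (hF4 w hw _ le_rfl).2
  refine ⟨F, fun q hq => ?_, fun w hw q hq hc hD hp => ?_⟩
  · by_cases h : ∃ w ∈ S.act, q ∈ S.B w
    · obtain ⟨w, hw, hqw⟩ := h
      rw [hF1 w hw q hqw] at hq
      have h8 : ∃ w' ∈ S.act, q ∈ S.B w' ∧ S.L w' = S.L w ∧ c w' (S.tv (C (S.L w)) w') ∧
          q ∉ S.Des (C (S.L w)) (S.L w) ∧ q ∉ prot := by
        by_contra hcon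
        exact hq ((cur_succ_neg hcon).trans (h5 w hw q hqw _ le_rfl))
      obtain ⟨w', hw', hq', hL', hc', hD', hp'⟩ := h8
      have e := S.disj _ _ _ hq' hqw
      subst e
      exact ⟨w', hw', hq', by rw [hF6 w' hw']; exact hc', by rw [hF5]; exact hD', hp'⟩
    · exact absurd (hF2 q h) hq
  · rw [hF1 w hw q hq, hF6 w hw]
    exact cur_succ_pos hw hq rfl (by rw [← hF6 w hw]; exact hc) (by rw [← hF5]; exact hD) hp

end Sys

end Pool.Agent.H65.BP
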