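import Pool.Agent.H65.BP.Num

set_option autoImplicit false

/-!
# Trees for a machine which is valid for all oracles satisfying a condition
-/

namespace Pool.Agent.H65.BP

open DT

variable {θ : ℕ → ℕ}

/-- the wrong positions of the block of `w` -/
def wrong (T : ℕ × List Bool → DT (List Bool)) (X : List Bool → Bool) (w : ℕ × List Bool) :
    Finset (List Bool) := (blk w).filter (fun q => X q ≠ (T w).eval X)

theorem mem_wrong {T : ℕ × List Bool → DT (List Bool)} {X : List Bool → Bool}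
    {w : ℕ × List Bool} {q : List Bool} :
    q ∈ wrong T X w ↔ q ∈ blk w ∧ X q ≠ (T w).eval X := by
  unfold wrong; rw [Finset.mem_filter]

/-- A condition: the machines in `J` are encoded for inputs of length at least `N`, with answers
computed by the trees `T`; the values of the oracle at the strings of `fr` are fixed by `a`. -/
structure Cond where
  J : Finset ℕ
  T : ℕ × List Bool → DT (List Bool)
  N : ℕ
  fr : Finset (List Bool)
  a : List Bool → Bool

/-- the oracles satisfying the condition -/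
def Cond.sat (C : Cond) (k : ℕ) : Set (List Bool → Bool) :=
  {X | (∀ q ∈ C.fr, X q = C.a q) ∧ ∀ w : ℕ × List Bool, w.1 ∈ C.J → C.N ≤ w.2.length →
    (wrong C.T X w).card ≤ slk k w.2.length}

/-- properties of conditions -/
structure Cond.Good (θ : ℕ → ℕ) (C : Cond) (k c : ℕ) : Prop where
  sub : C.J ⊆ Finset.range k
  dep : ∀ w : ℕ × List Bool, w.1 ∈ C.J → C.N ≤ w.2.length → (C.T w).depth ≤ bd θ c w.2.length
  frs : ∀ w : ℕ × List Bool, C.N ≤ w.2.length →
    ((blk w).filter (fun q => q ∈ C.fr)).card ≤ 2 ^ (2 * w.2.length)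
  num : ∀ n, C.N ≤ n → NC θ k c n
  pos : 1 ≤ C.N

theorem Cond.Good.card {C : Cond} {k c : ℕ} (h : C.Good θ k c) : C.J.card ≤ k := by
  have := Finset.card_le_card h.sub
  rwa [Finset.card_range] at this

/-- A clocked probabilistic oracle machine. -/
structure PM (θ : ℕ → ℕ) where
  κ : ℕ
  run : (z : List Bool) → (Fin (tauF θ κ z.length) → Bool) → DT (List Bool)
  depth_le : ∀ z ω, (run z ω).depth ≤ tauF θ κ z.length
  len_le : ∀ z ω X q, q ∈ (run z ω).path X → q.length ≤ tauF θ κ z.length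

/-- few positions in a block are frozen or read -/
theorem Cond.Good.few (hθ : Adm θ) {C : Cond} {k c : ℕ} (h : C.Good θ k c) {w : ℕ × List Bool}
    (hw : C.N ≤ w.2.length) (X Y : List Bool → Bool) (s : Finset (List Bool)) (hs : s ⊆ blk w)
    (hs' : ∀ q ∈ s, q ∈ C.fr ∨
      (∃ v : ℕ × List Bool, v.1 ∈ C.J ∧ C.N ≤ v.2.length ∧ layer v ≤ layer w ∧
        q ∈ (C.T v).path X) ∨
      (∃ v : ℕ × List Bool, v.1 ∈ C.J ∧ C.N ≤ v.2.length ∧ layer v ≤ layer w ∧
        q ∈ (C.T v).path Y)) :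
    s.card + 2 ^ (2 * w.2.length) ≤ slk (k + 1) w.2.length := by
  classical
  have hpos := h.pos
  have h1 : s ⊆ (blk w).filter (fun q => q ∈ C.fr) ∪
      (s.filter (fun q => ∃ v : ℕ × List Bool, v.1 ∈ C.J ∧ C.N ≤ v.2.length ∧
        layer v ≤ layer w ∧ q ∈ (C.T v).path X) ∪
      s.filter (fun q => ∃ v : ℕ × List Bool, v.1 ∈ C.J ∧ C.N ≤ v.2.length ∧
        layer v ≤ layer w ∧ q ∈ (C.T v).path Y)) := by
    intro q hq
    rw [Finset.mem_union, Finset.mem_union, Finset.mem_filter, Finset.mem_filter,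
      Finset.mem_filter]
    rcases hs' q hq with h' | h' | h'
    · exact Or.inl ⟨hs hq, h'⟩
    · exact Or.inr (Or.inl ⟨hq, h'⟩)
    · exact Or.inr (Or.inr ⟨hq, h'⟩)
  have h2 := h.frs w hw
  have h3 := count_paths (bd_mono hθ c) h.dep (w := w) (by omega) X _ (fun q hq => (Finset.mem_filter.mp hq).2 :
    ∀ q ∈ s.filter (fun q => ∃ v : ℕ × List Bool, v.1 ∈ C.J ∧ C.N ≤ v.2.length ∧
        layer v ≤ layer w ∧ q ∈ (C.T v).path X), _)
  have h4 := count_paths (bd_mono hθ c) h.dep (w := w) (by omega) Y _ (fun q hq => (Finset.mem_filter.mp hq).2 :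
    ∀ q ∈ s.filter (fun q => ∃ v : ℕ × List Bool, v.1 ∈ C.J ∧ C.N ≤ v.2.length ∧
        layer v ≤ layer w ∧ q ∈ (C.T v).path Y), _)
  have h5 := (Finset.card_le_card h1).trans (Finset.card_union_le _ _)
  have h6 := Finset.card_union_le (s.filter (fun q => ∃ v : ℕ × List Bool, v.1 ∈ C.J ∧
      C.N ≤ v.2.length ∧ layer v ≤ layer w ∧ q ∈ (C.T v).path X))
    (s.filter (fun q => ∃ v : ℕ × List Bool, v.1 ∈ C.J ∧ C.N ≤ v.2.length ∧
        layer v ≤ layer w ∧ q ∈ (C.T v).path Y))
  have h7 := h.num w.2.length hw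
  unfold NC at h7
  have h8 : C.J.card * 2 ^ (2 * w.2.length) * bd θ c (2 * w.2.length) ≤
      (k + 1) * 2 ^ (2 * w.2.length) * (bd θ c (2 * w.2.length) + 1) :=
    Nat.mul_le_mul (Nat.mul_le_mul_right _ (h.card.trans (by omega))) (by omega)
  have h9 : 2 ^ (2 * w.2.length) ≤ (k + 1) * 2 ^ (2 * w.2.length) * (bd θ c (2 * w.2.length) + 1) := by
    calc 2 ^ (2 * w.2.length) = 1 * 2 ^ (2 * w.2.length) * 1 := by ring
      _ ≤ _ := Nat.mul_le_mul (Nat.mul_le_mul_right _ (by omega)) (by omega)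
  have h10 : 64 * (k + 1) * 2 ^ (2 * w.2.length) * (bd θ c (2 * w.2.length) + 1) =
      64 * ((k + 1) * 2 ^ (2 * w.2.length) * (bd θ c (2 * w.2.length) + 1)) := by ring
  omega

/-- A state satisfying the constraints of the layers below `ℓ` can be changed at long strings so
that it satisfies all constraints. -/
theorem Cond.Good.complete (hθ : Adm θ) {C : Cond} {k c : ℕ} (h : C.Good θ k c) {j : ℕ} (hj : j ≤ k + 1) (ℓ : ℕ)
    {Z : List Bool → Bool} (hZ1 : ∀ q ∈ C.fr, Z q = C.a q)
    (hZ2 : ∀ w : ℕ × List Bool, w.1 ∈ C.J → C.N ≤ w.2.length → layer w < ℓ →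
      (wrong C.T Z w).card ≤ slk j w.2.length) :
    ∃ F ∈ C.sat j, ∀ q : List Bool, q.length < 2 ^ ℓ → F q = Z q := by
  classical
  let S : Sys (List Bool) (ℕ × List Bool) :=
    { B := blk
      L := layer
      T := C.T
      act := {w | w.1 ∈ C.J ∧ C.N ≤ w.2.length ∧ ℓ ≤ layer w}
      disj := blk_disj }
  obtain ⟨F, h1, h2⟩ := S.exists_fix Z {q | q ∈ C.fr ∨ ∃ v : ℕ × List Bool, v.1 ∈ C.J ∧
    C.N ≤ v.2.length ∧ layer v < ℓ ∧ q ∈ (C.T v).path Z} (fun _ _ => True)
  have hanti : ∀ n, slk (k + 1) n ≤ slk j n := fun n =>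
    Nat.pow_le_pow_right (by omega) (by omega)
  refine ⟨F, ⟨fun q hq => ?_, fun w hw hN => ?_⟩, fun q hq => ?_⟩
  · rw [← hZ1 q hq]
    by_contra hne
    obtain ⟨w, _, _, _, _, h'⟩ := h1 q hne
    exact h' (Or.inl hq)
  · rcases Nat.lt_or_ge (layer w) ℓ with hlt | hge
    · have h3 : ∀ q ∈ (C.T w).path Z, Z q = F q := by
        intro q hq
        by_contra hne
        obtain ⟨w', _, _, _, _, h'⟩ := h1 q (fun h => hne h.symm)
        exact h' (Or.inr ⟨w, hw, hN, hlt, hq⟩)
      have h4 : ∀ q ∈ blk w, F q = Z q := by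
        intro q hq
        by_contra hne
        obtain ⟨w', hw', hq', _⟩ := h1 q hne
        rw [blk_disj _ _ _ hq' hq] at hw'
        exact absurd hw'.2.2 (by omega)
      have h5 : wrong C.T F w = wrong C.T Z w := by
        ext q
        rw [mem_wrong, mem_wrong, (DT.agree h3).2]
        constructor
        · rintro ⟨a1, a2⟩
          rw [h4 q a1] at a2
          exact ⟨a1, a2⟩
        · rintro ⟨a1, a2⟩
          rw [h4 q a1]
          exact ⟨a1, a2⟩
      rw [h5]
      exact hZ2 w hw hN hlt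
    · have h3 := h.few hθ hN Z F (wrong C.T F w) (fun q hq => (mem_wrong.mp hq).1) (by
        intro q hq
        obtain ⟨a1, a2⟩ := mem_wrong.mp hq
        by_contra hcon
        rw [not_or, not_or] at hcon
        obtain ⟨c1, c2, c3⟩ := hcon
        refine a2 (h2 w ⟨hw, hN, hge⟩ q a1 trivial ?_ ?_)
        · rintro ⟨v, hv, hL, hq'⟩
          exact c3 ⟨v, hv.1, hv.2.1, hL, hq'⟩
        · rintro (h' | ⟨v, hv1, hv2, hv3, hq'⟩)
          · exact c1 h'
          · exact c2 ⟨v, hv1, hv2, by omega, hq'⟩)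
      exact (le_trans (Nat.le_add_right _ _) h3).trans (hanti _)
  · by_contra hne
    obtain ⟨w, hw, hqw, _⟩ := h1 q hne
    have h3 := blk_length hqw
    have h4 : 2 ^ ℓ ≤ w.2.length := by
      have h5 : 2 ^ layer w ≤ w.2.length := by
        unfold layer
        refine Nat.pow_log_le_self 2 ?_
        have := h.pos
        have := hw.2.1
        omega
      exact (Nat.pow_le_pow_right (by omega) hw.2.2).trans h5
    omega

theorem exists_i0 (Q : ℕ) (hQ : 2 ≤ Q) : ∃ i, Q ≤ 2 ^ (2 ^ i) ∧ 2 ^ (2 ^ i) ≤ Q ^ 2 := by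
  classical
  have hex : ∃ i, Q ≤ 2 ^ (2 ^ i) := ⟨Q, Nat.lt_two_pow_self.le.trans
    (Nat.pow_le_pow_right (by omega) Nat.lt_two_pow_self.le)⟩
  refine ⟨Nat.find hex, Nat.find_spec hex, ?_⟩
  cases hi : Nat.find hex with
  | zero =>
    simp only [pow_zero, pow_one]
    nlinarith
  | succ j =>
    have h1 : ¬ Q ≤ 2 ^ (2 ^ j) := Nat.find_min hex (by omega)
    rw [pow_succ, pow_mul]
    exact Nat.pow_le_pow_left (by omega) 2

/-- **New trees.** -/
theorem Cond.Good.new_tree (hθ : Adm θ) {C : Cond} {k c : ℕ} (h : C.Good θ k c) (M : PM θ)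
    (hval : ∀ X ∈ C.sat k, ∀ z, Sys.Valid (M.run z) X) (z : List Bool) :
    ∃ T : DT (List Bool), T.depth ≤ DF θ k c M.κ z.length ∧
      ∀ X ∈ C.sat (k + 1), T.eval X = Sys.ans (M.run z) X := by
  classical
  set n := z.length with hn
  set τ := tauF θ M.κ n with hτ
  set ℓ := ellF θ M.κ n with hℓ
  set H := HF θ c M.κ n with hH
  set Q := QF θ c M.κ n with hQ
  have hτ1 : 1 ≤ τ := one_le_bd hθ _ _
  obtain ⟨i, hi1, hi2⟩ := exists_i0 Q (by rw [hQ]; unfold QF; omega)
  have hτℓ : τ < 2 ^ ℓ := by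
    rw [hℓ]
    exact Nat.lt_pow_succ_log_self (by omega) _
  have hℓτ : 2 ^ ℓ ≤ 2 * τ := by
    rw [hℓ]
    unfold ellF
    rw [pow_succ, mul_comm]
    exact Nat.mul_le_mul_left _ (Nat.pow_log_le_self 2 (by omega))
  -- the initial tree
  let W : Finset (ℕ × List Bool) := (C.J ×ˢ shorts (2 ^ i)).filter (fun w => C.N ≤ w.2.length)
  have hW : ∀ w : ℕ × List Bool, w ∈ W ↔ w.1 ∈ C.J ∧ w.2.length < 2 ^ i ∧ C.N ≤ w.2.length := by
    intro w
    simp only [W, Finset.mem_filter, Finset.mem_product, mem_shorts, and_assoc]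
  let t₀ : DT (List Bool) := DT.seqs (W.toList.map (fun w =>
    DT.seq (DT.lin (blk w).toList) (C.T w)))
  have ht₀ : ∀ X q, q ∈ t₀.path X ↔ ∃ w ∈ W, q ∈ blk w ∨ q ∈ (C.T w).path X := by
    intro X q
    simp only [t₀, DT.path_seqs, List.mem_flatMap, List.mem_map, Finset.mem_toList]
    constructor
    · rintro ⟨t, ⟨w, hw, rfl⟩, hq⟩
      rw [DT.path_seq, DT.path_lin, List.mem_append, Finset.mem_toList] at hq
      exact ⟨w, hw, hq⟩
    · rintro ⟨w, hw, hq⟩
      refine ⟨_, ⟨w, hw, rfl⟩, ?_⟩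
      rw [DT.path_seq, DT.path_lin, List.mem_append, Finset.mem_toList]
      exact hq
  have hdt₀ : t₀.depth ≤ k * Q ^ 2 * (Q ^ 6 + bd θ c (Q ^ 2)) := by
    have h1 : t₀.depth ≤ W.card * (8 ^ (2 ^ i) + bd θ c (2 ^ i)) := by
      refine (DT.depth_seqs _).trans ?_
      have h2 := List.sum_le_card_nsmul ((W.toList.map (fun w =>
        DT.seq (DT.lin (blk w).toList) (C.T w))).map DT.depth) (8 ^ (2 ^ i) + bd θ c (2 ^ i)) (by
          intro x hx
          simp only [List.map_map, List.mem_map, Finset.mem_toList, Function.comp] at hx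
          obtain ⟨w, hw, rfl⟩ := hx
          rw [hW] at hw
          refine (DT.depth_seq _ _).trans (Nat.add_le_add ?_ ?_)
          · rw [DT.depth_lin, Finset.length_toList, card_blk]
            exact Nat.pow_le_pow_right (by omega) hw.2.1.le
          · exact (h.dep w hw.1 hw.2.2).trans (bd_mono hθ c hw.2.1.le))
      simpa using h2
    have h3 : W.card ≤ k * 2 ^ (2 ^ i) := by
      refine (Finset.card_filter_le _ _).trans ?_
      rw [Finset.card_product]
      refine Nat.mul_le_mul h.card ?_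
      have := card_shorts (2 ^ i)
      omega
    have h4 : 8 ^ (2 ^ i) ≤ Q ^ 6 := by
      calc 8 ^ (2 ^ i) = (2 ^ (2 ^ i)) ^ 3 := by
            rw [show (8 : ℕ) = 2 ^ 3 by norm_num, ← pow_mul, ← pow_mul, mul_comm]
        _ ≤ (Q ^ 2) ^ 3 := Nat.pow_le_pow_left hi2 3
        _ = Q ^ 6 := by rw [← pow_mul]
    have h5 : bd θ c (2 ^ i) ≤ bd θ c (Q ^ 2) :=
      bd_mono hθ c (Nat.lt_two_pow_self.le.trans hi2)
    calc t₀.depth ≤ W.card * (8 ^ (2 ^ i) + bd θ c (2 ^ i)) := h1
      _ ≤ (k * Q ^ 2) * (Q ^ 6 + bd θ c (Q ^ 2)) :=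
        Nat.mul_le_mul (h3.trans (Nat.mul_le_mul_left _ hi2)) (Nat.add_le_add h4 h5)
  -- the system
  let S : Sys (List Bool) (ℕ × List Bool) :=
    { B := blk
      L := layer
      T := C.T
      act := {w | w.1 ∈ C.J ∧ C.N ≤ w.2.length ∧ 2 ^ i ≤ w.2.length ∧ layer w < ℓ}
      disj := blk_disj }
  have hWr : ∀ X w, S.Wr X w = wrong C.T X w := fun X w => rfl
  have hfin : S.act.Finite := by
    refine ((C.J ×ˢ shorts (2 ^ ℓ)).finite_toSet).subset ?_
    rintro w ⟨hw1, hw2, hw3, hw4⟩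
    rw [Finset.mem_coe, Finset.mem_product, mem_shorts]
    refine ⟨hw1, ?_⟩
    unfold layer at hw4
    exact Nat.lt_pow_of_log_lt (by omega) hw4
  -- existence of the tree for the frozen positions
  have key : ∀ X ∈ C.sat (k + 1), ∃ T : DT (List Bool), T.depth ≤ (H * H) * (H * H) ∧
      ∀ Z : List Bool → Bool, (∀ q ∈ t₀.path X, Z q = X q) → (∀ q ∈ C.fr, Z q = C.a q) →
        (∀ w ∈ S.act, (S.Wr Z w).card ≤ slk (k + 1) w.2.length) →
        T.eval Z = Sys.ans (M.run z) Z := by
    rintro X ⟨hX1, hX2⟩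
    obtain ⟨T, hT1, hT2⟩ := Sys.exists_tree (S := S) (d := dF θ c M.κ n) (ℓ := ℓ) (t := τ)
      (M := M.run z) (fr := {q | q ∈ C.fr ∨ q ∈ t₀.path X}) (a := X)
      (e := fun w => slk (k + 1) w.2.length) (e' := fun w => slk k w.2.length)
      (m := fun w => 2 * slk (k + 1) w.2.length - 1) (H := H)
      hfin (fun w hw => hw.2.2.2) (one_le_bd hθ _ _) (fun v hv => by
        refine (h.dep v hv.1 hv.2.1).trans (bd_mono hθ c ?_)
        have h1 : v.2.length < 2 ^ ℓ := Nat.lt_pow_of_log_lt (by omega) hv.2.2.2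
        exact h1.le.trans hℓτ)
      (by rw [Fintype.card_fun, Fintype.card_bool, Fintype.card_fin]; positivity)
      (M.depth_le z) rfl (fun w hw Y s hs hs' => by
        have h1 := h.few hθ hw.2.1 Y X s hs (by
          intro q hq
          rcases hs' q hq with ⟨v, hv, hL, hq'⟩ | hq' | hq'
          · exact Or.inr (Or.inl ⟨v, hv.1, hv.2.1, hL, hq'⟩)
          · exact Or.inl hq'
          · rw [ht₀] at hq'
            obtain ⟨v, hv, hq'⟩ := hq'
            rw [hW] at hv
            rcases hq' with hq' | hq'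
            · exfalso
              have e := blk_disj _ _ _ hq' (hs hq)
              subst e
              have := hw.2.2.1
              omega
            · refine Or.inr (Or.inr ⟨v, hv.1, hv.2.2, ?_, hq'⟩)
              unfold layer
              exact Nat.log_mono_right (hv.2.1.le.trans hw.2.2.1))
        have h2 : Q ≤ 2 ^ (2 * w.2.length) := by
          refine hi1.trans (Nat.pow_le_pow_right (by omega) ?_)
          have := hw.2.2.1
          omega
        have h3 : Q = 2 * (H * H) + H + 2 := rfl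
        constructor <;> omega)
      (fun w hw => by
        have h1 := (h.num w.2.length hw.2.1).slk
        have h2 : 1 ≤ slk (k + 1) w.2.length := Nat.one_le_pow _ _ (by omega)
        omega)
      (fun Z hZ1 hZ2 => by
        -- validity
        obtain ⟨F, hF1, hF2⟩ := h.complete hθ (j := k) (by omega) ℓ (Z := Z)
          (fun q hq => by rw [hZ1 q (Or.inl hq), hX1 q hq]) (by
            intro w hw hN hlt
            rcases Nat.lt_or_ge w.2.length (2 ^ i) with hsm | hbig
            · have hwW : w ∈ W := (hW w).mpr ⟨hw, hsm, hN⟩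
              have h1 : ∀ q ∈ (C.T w).path X, X q = Z q := fun q hq =>
                (hZ1 q (Or.inr ((ht₀ X q).mpr ⟨w, hwW, Or.inr hq⟩))).symm
              have h2 : wrong C.T Z w = wrong C.T X w := by
                ext q
                rw [mem_wrong, mem_wrong, (DT.agree h1).2]
                constructor
                · rintro ⟨a1, a2⟩
                  rw [hZ1 q (Or.inr ((ht₀ X q).mpr ⟨w, hwW, Or.inl a1⟩))] at a2
                  exact ⟨a1, a2⟩
                · rintro ⟨a1, a2⟩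
                  rw [hZ1 q (Or.inr ((ht₀ X q).mpr ⟨w, hwW, Or.inl a1⟩))]
                  exact ⟨a1, a2⟩
              rw [h2]
              exact (hX2 w hw hN).trans (slk_anti _ _)
            · exact hZ2 w ⟨hw, hN, hbig, hlt⟩)
        have h1 : ∀ ω, (M.run z ω).eval F = (M.run z ω).eval Z := fun ω =>
          (DT.agree (fun q hq => (hF2 q (lt_of_le_of_lt (M.len_le z ω Z q hq) hτℓ)).symm)).2
        have h2 := hval F hF1 z
        unfold Sys.Valid Sys.acc at h2 ⊢
        simp only [h1] at h2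
        exact h2)
    exact ⟨T, hT1, fun Z hZ1 hZ2 hZ3 => hT2 Z (fun q hq => by
      rcases hq with hq | hq
      · rw [hZ2 q hq, hX1 q hq]
      · exact hZ1 q hq) hZ3⟩
  -- the final tree
  let t : (List Bool → Bool) → DT (List Bool) := fun Y =>
    if hY : ∃ T : DT (List Bool), T.depth ≤ (H * H) * (H * H) ∧
      ∀ Z : List Bool → Bool, (∀ q ∈ t₀.path Y, Z q = Y q) → (∀ q ∈ C.fr, Z q = C.a q) →
        (∀ w ∈ S.act, (S.Wr Z w).card ≤ slk (k + 1) w.2.length) →
        T.eval Z = Sys.ans (M.run z) Z then hY.choose else DT.out false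
  refine ⟨DT.run t t₀ (fun _ => false), ?_, ?_⟩
  · refine (DT.depth_run t (D := (H * H) * (H * H)) (fun Y => ?_) _ _).trans ?_
    · simp only [t]
      split_ifs with hY
      · exact hY.choose_spec.1
      · simp [DT.depth]
    · unfold DF
      exact Nat.add_le_add hdt₀ le_rfl
  · rintro X hX
    rw [DT.eval_run]
    set Y := DT.ovr (fun _ => false) X (t₀.path X) with hYdef
    have h1 : ∀ q ∈ t₀.path X, X q = Y q := by
      intro q hq
      rw [hYdef]
      unfold DT.ovr
      rw [if_pos hq]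
    have h2 : t₀.path Y = t₀.path X := (DT.agree h1).1
    have hY : ∃ T : DT (List Bool), T.depth ≤ (H * H) * (H * H) ∧
        ∀ Z : List Bool → Bool, (∀ q ∈ t₀.path Y, Z q = Y q) → (∀ q ∈ C.fr, Z q = C.a q) →
          (∀ w ∈ S.act, (S.Wr Z w).card ≤ slk (k + 1) w.2.length) →
          T.eval Z = Sys.ans (M.run z) Z := by
      obtain ⟨T, hT1, hT2⟩ := key X hX
      refine ⟨T, hT1, fun Z hZ => hT2 Z (fun q hq => ?_)⟩
      rw [hZ q (by rw [h2]; exact hq), h1 q hq]
    simp only [t]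
    rw [dif_pos hY]
    exact hY.choose_spec.2 X (fun q hq => h1 q (by rw [← h2]; exact hq)) hX.1
      (fun w hw => hX.2 w hw.1 hw.2.1)

end Pool.Agent.H65.BP
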